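import Pool.Agent.J6H1.GX.Eval

/-!
# The finite computations for `p = 5`
-/

set_option autoImplicit false

namespace Pool.Agent.J6H1.GX

/-- one sum is not zero -/
def nz (T : ℕ) (f e : ℕ → ℕ) (L : ℕ) : Bool :=
  !(sP T f e L % 5 == 0 && sQ T f e L % 5 == 0)

/-- the sum of two sums is not zero -/
def nz2 (T : ℕ) (f e f' e' : ℕ → ℕ) (L : ℕ) : Bool :=
  !((sP T f e L + sP T f' e' L) % 5 == 0 && (sQ T f e L + sQ T f' e' L) % 5 == 0)

/-- `x = ± 5^j` modulo `32`: the sign -/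
def s4 (x : ℕ) : ℕ := if x % 4 = 3 then 1 else 0

/-- `x = ± 5^j` modulo `32`: the exponent -/
def lg (x : ℕ) : ℕ := [0, 1, 6, 7, 4, 5, 2, 3].getD ((if x % 4 = 3 then 32 - x % 32 else x % 32) / 4) 0

/-- the value of `FF m` at `x / N` modulo `5` -/
def gv (a b m x : ℕ) : ℕ := GG m (x * (3 ^ b * 2 ^ a) ^ 3 % 5) % 5

/-! ### `a ≥ 6`, `b ≥ 2` -/

/-- the table of the pairs `(y, z)` -/
def candT : List (List (List (ℕ × ℕ × ℕ))) :=
  [[[(1, 1, 17), (5, 13, 5)], [(1, 1, 17), (1, 25, 65)], [(1, 1, 161), (1, 25, 137)], [(1, 1, 161)], [(1, 1, 1457), (1, 25, 1433)], [(1, 1, 1457)]],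
    [[(1, 25, 41), (1, 1, 17)], [(1, 1, 17), (1, 25, 137)], [(1, 1, 161)], [(1, 1, 161)], [(1, 1, 1457), (1, 49, 1409)], []],
    [[(1, 1, 65), (1, 25, 89)], [(1, 1, 161), (1, 25, 281)], [(1, 1, 161), (1, 25, 569)], [(1, 1, 161)], [(1, 1, 5345)], []],
    [[(1, 1, 65), (1, 49, 113)], [(1, 1, 449), (1, 25, 281)], [(1, 1, 1025), (1, 25, 1433)], [(1, 1, 2753)], [(1, 1, 13121), (1, 25, 1433)], []],
    [[(1, 1, 257), (1, 25, 281)], [(1, 1, 1025)], [(1, 1, 1025)], [(1, 1, 7937)], [(1, 1, 28673)], []],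
    [[(1, 1, 257)], [(1, 25, 281)], [(1, 25, 4889)], [(1, 1, 7937)], [(1, 1, 28673), (1, 25, 32537)], []]]

def cand (a b : ℕ) : List (ℕ × ℕ × ℕ) := (candT.getD (a - 6) []).getD (b - 2) []

def f3 (a b m c t : ℕ) (s : ℕ) : ℕ := gv a b m (c + 2 ^ (a - 3) * (t + 3 ^ (b - 1) * s))

def chk3 (T a b m ε c₁ c ty tz κ : ℕ) : Bool :=
  decide (c < 2 ^ (a - 3)) && decide (c * c₁ % 2 ^ 3 = 1) && decide (ty < 3 ^ (b - 1)) &&
  decide (tz < 3 ^ (b - 1)) && decide ((c + 2 ^ (a - 3) * ty) % 3 ^ 1 = 1) &&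
  decide ((c + 2 ^ (a - 3) * ty) + (c + 2 ^ (a - 3) * tz) = 3 ^ (b - 1) * κ) &&
  nz2 T (f3 a b m c ty) (fun s => 3 * c₁ * ty + (8 * 2 ^ (a - 3) + 3 * c₁ * 3 ^ (b - 1)) * s)
    (f3 a b m c tz) (fun s => 12 * ε + 16 * κ + 3 * c₁ * tz + (16 * 2 ^ (a - 3) + 3 * c₁ * 3 ^ (b - 1)) * s) 24

def cond3 (a b m : ℕ) : Bool :=
  decide (6 ≤ a) && decide (2 ≤ b) && decide (1 ≤ m) &&
  (if a = 6 then decide (3 ^ b < 576 * m) else
    decide (2 ^ (a - 3) < 24 * (3 * (m - 1) + 2)) && decide (3 ^ (b - 1) < 24 * (4 * (m - 1) + 2)))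

def all3 : Bool :=
  (List.range 12).all fun a => (List.range 8).all fun b => (List.range 5).all fun m =>
    !(cond3 a b m) || (tabs.all fun T => (List.range 2).all fun ε => (cand a b).any fun w =>
      chk3 T a b m ε w.1 (w.2.1 % 2 ^ (a - 3)) (w.2.1 / 2 ^ (a - 3)) (w.2.2 / 2 ^ (a - 3))
        ((w.2.1 + w.2.2) / 3 ^ (b - 1)))

theorem all3_ok : all3 = true := by decide +kernel

/-! ### `2 ≤ a ≤ 5`, `b ≥ 2` -/

def chk1 (T a b m ε c : ℕ) : Bool :=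
  decide (c < 3 ^ (b - 1)) && decide (c % 3 ^ 1 = 1) &&
  nz T (fun t => if (c + 3 ^ (b - 1) * t) % 2 = 0 then 0 else gv a b m (c + 3 ^ (b - 1) * t))
    (fun t => 12 * ε * s4 (c + 3 ^ (b - 1) * t) + 3 * 2 ^ (5 - a) * lg (c + 3 ^ (b - 1) * t) + 8 * t) (2 ^ a * 3 ^ 1)

def cond1 (a b m : ℕ) : Bool :=
  decide (2 ≤ a) && decide (2 ≤ b) && decide (1 ≤ m) && decide (3 ^ b < 9 * m * 2 ^ a) &&
  !(decide (a = 2) && decide (b = 2) && decide (m = 4))

def all1 : Bool :=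
  (List.range 6).all fun a => (List.range 8).all fun b => (List.range 5).all fun m =>
    !(cond1 a b m) || (tabs.all fun T => (List.range 2).all fun ε => [1, 4].any fun c => chk1 T a b m ε c)

theorem all1_ok : all1 = true := by decide +kernel

/-! ### `a ≥ 6`, `b ≤ 1` -/

def chk2 (T a b m c : ℕ) : Bool :=
  decide (c < 2 ^ (a - 3)) && decide (c % 2 ^ 3 = 1) &&
  nz T (fun t => if b = 1 ∧ (c + 2 ^ (a - 3) * t) % 3 = 0 then 0 else gv a b m (c + 2 ^ (a - 3) * t))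
    (fun t => 12 * (if (c + 2 ^ (a - 3) * t) % 3 = 2 then b else 0) + 3 * t) (3 ^ b * 2 ^ 3)

def cond2 (a b m : ℕ) : Bool :=
  decide (6 ≤ a) && decide (1 ≤ m) && decide (2 ^ a < 64 * m * 3 ^ b)

def all2 : Bool :=
  (List.range 10).all fun a => (List.range 2).all fun b => (List.range 5).all fun m =>
    !(cond2 a b m) || (tabs.all fun T => chk2 T a b m 1)

theorem all2_ok : all2 = true := by decide +kernel

/-! ### `2 ≤ a ≤ 5`, `b ≤ 1` -/

def chk0 (T a b m : ℕ) : Bool :=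
  nz T (fun x => if x % 2 = 0 ∨ (b = 1 ∧ x % 3 = 0) then 0 else gv a b m x)
    (fun x => 12 * (if x % 3 = 2 then b else 0) + 12 * ((m + b) % 2) * s4 x + 3 * 2 ^ (5 - a) * lg x) (3 ^ b * 2 ^ a)

def cond0 (a b m : ℕ) : Bool :=
  decide (2 ≤ a) && decide (1 ≤ m) && !(decide (a = 2) && decide ((m + b) % 2 = 0)) &&
  !(decide (a = 4) && decide (b = 0) && decide (m = 2)) && !(decide (a = 4) && decide (b = 1) && decide (m = 3))

def all0 : Bool :=
  (List.range 6).all fun a => (List.range 2).all fun b => (List.range 5).all fun m =>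
    !(cond0 a b m) || (tabs.all fun T => chk0 T a b m)

theorem all0_ok : all0 = true := by decide +kernel

end Pool.Agent.J6H1.GX
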