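import Pool.Agent.Y18.GX.Class

/-!
# Character sums over classes: arbitrary classes, and projection to classes

Variants of the library theorem `class_zero` (start files, `Pool.Agent.Y18.GX.Class`).
-/

set_option autoImplicit false

namespace Pool.Agent.J6H1.GX

open Finset Pool.Agent.Y18.GX

section
variable {k : Type*} [Field k]

lemma psi_b_gen {ℓ K n : ℕ} (ψ : MulChar (ZMod (ℓ ^ K)) k) (hn : 2 * n ≤ K) (b t b₁ : ℕ)
    (hb : b * b₁ % ℓ ^ n = 1) :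
    ψ ((b + ℓ ^ (K - n) * t : ℕ) : ZMod (ℓ ^ K)) =
      ψ (b : ZMod (ℓ ^ K)) * (ψ ((1 + ℓ ^ (K - n) : ℕ) : ZMod (ℓ ^ K)) ^ b₁) ^ t := by
  rw [← pow_mul, ← psi_one_add ψ hn, ← map_mul]
  congr 1
  have h1 : b * b₁ = 1 + ℓ ^ n * (b * b₁ / ℓ ^ n) := by
    have := Nat.mod_add_div (b * b₁) (ℓ ^ n)
    omega
  have h2 : ((ℓ ^ (K - n) : ℕ) : ZMod (ℓ ^ K)) * ((ℓ ^ n : ℕ) : ZMod (ℓ ^ K)) = 0 := by
    rw [← Nat.cast_mul, ← pow_add, Nat.sub_add_cancel (by omega), ZMod.natCast_self]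
  have h3 : (b : ZMod (ℓ ^ K)) * (b₁ : ZMod (ℓ ^ K)) =
      1 + ((ℓ ^ n : ℕ) : ZMod (ℓ ^ K)) * ((b * b₁ / ℓ ^ n : ℕ) : ZMod (ℓ ^ K)) := by
    rw [← Nat.cast_mul]
    conv_lhs => rw [h1]
    push_cast
    rfl
  rw [Nat.cast_add, Nat.cast_mul, Nat.cast_add, Nat.cast_mul, Nat.cast_one, Nat.cast_mul]
  linear_combination (-(t : ZMod (ℓ ^ K))) * ((ℓ ^ (K - n) : ℕ) : ZMod (ℓ ^ K)) * h3 -
    (t : ZMod (ℓ ^ K)) * ((b * b₁ / ℓ ^ n : ℕ) : ZMod (ℓ ^ K)) * h2

end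

section
variable {k : Type*} [Field k] {p : ℕ} [Fact p.Prime] [CharP k p]

/-- the character sum over an arbitrary class modulo `M` (library `class_zero`: classes `1` modulo `ℓ ^ n`) -/
theorem class_zero_gen {ℓ n K N₁ g m u : ℕ} (ψ₁ : MulChar (ZMod N₁) k) (ψ₂ : MulChar (ZMod (ℓ ^ K)) k)
    (hp2 : p ≠ 2) (hA : Adm ℓ (p ^ g)) (hn1 : 1 ≤ n) (hn : 2 * n ≤ K) (h3 : 3 ≤ ℓ ^ n)
    (hq : p ^ g - 1 = ℓ ^ n * u) (hu : u.Coprime ℓ) (hψ₁ : ∀ a, ψ₁ a ^ p ^ g = ψ₁ a)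
    (hprim : ψ₂ ((1 + ℓ ^ (K - 1) : ℕ) : ZMod (ℓ ^ K)) ≠ 1)
    (hN₁ : N₁.Coprime ℓ) (hN0 : N₁ ≠ 0) (hNk : (N₁ : k) ≠ 0) (hℓk : (ℓ : k) ≠ 0)
    (F : Polynomial ℤ) (c : k)
    (hF : ∀ x : k, Polynomial.aeval (1 - x) F = (-1) ^ m * Polynomial.aeval x F + c)
    (hpar : ψ₁ (-1) * ψ₂ (-1) = (-1) ^ m)
    (hS : ∑ a ∈ range (N₁ * ℓ ^ K), ψ₁ (a : ZMod N₁) * ψ₂ (a : ZMod (ℓ ^ K)) *
      Polynomial.aeval ((a : k) / (N₁ * ℓ ^ K : ℕ)) F = 0)
    (b : ℕ) (hb : b < ℓ ^ (K - n)) (b₁ : ℕ) (hb1 : b * b₁ % ℓ ^ n = 1) :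
    ∑ t ∈ range (N₁ * ℓ ^ n), ψ₁ ((b + ℓ ^ (K - n) * t : ℕ) : ZMod N₁) *
      (ψ₂ ((1 + ℓ ^ (K - n) : ℕ) : ZMod (ℓ ^ K)) ^ b₁) ^ t *
      Polynomial.aeval (((b + ℓ ^ (K - n) * t : ℕ) : k) / (N₁ * ℓ ^ K : ℕ)) F = 0 := by
  have hℓ := hA.prime
  have hp := (Fact.out : p.Prime)
  set M := ℓ ^ (K - n) with hM
  set N := N₁ * ℓ ^ K with hN
  set ξ := ψ₂ ((1 + M : ℕ) : ZMod (ℓ ^ K)) with hξ
  have hML : N = M * (N₁ * ℓ ^ n) := by
    rw [hN, hM, mul_left_comm, ← pow_add, Nat.sub_add_cancel (by omega)]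
  have hMN : M ∣ N := ⟨_, hML⟩
  have hM0 : 0 < M := Nat.pos_of_ne_zero (pow_ne_zero _ hℓ.ne_zero)
  have hMn : ℓ ^ n ∣ M := pow_dvd_pow _ (by omega)
  have hq1 : 1 ≤ p ^ g := Nat.one_le_pow _ _ hp.pos
  have hqodd : Even (p ^ g - 1) := by
    have h1 : Odd (p ^ g) := (hp.odd_of_ne_two hp2).pow
    exact Nat.Odd.sub_odd h1 odd_one
  have hb0 : b ≠ 0 := by
    rintro rfl
    rw [zero_mul, Nat.zero_mod] at hb1
    exact zero_ne_one hb1
  have hbb : ¬ ℓ ∣ b * b₁ := by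
    intro h
    have h1 : ℓ ∣ b * b₁ % ℓ ^ n := (Nat.dvd_mod_iff (dvd_pow_self ℓ (by omega))).2 h
    rw [hb1] at h1
    exact hℓ.one_lt.ne' (Nat.dvd_one.1 h1)
  have hbℓ : ¬ ℓ ∣ b := fun h => hbb (h.mul_right _)
  have hb₁ℓ : b₁.Coprime ℓ := by
    rw [Nat.coprime_comm, Nat.Prime.coprime_iff_not_dvd hℓ]
    exact fun h => hbb (h.mul_left _)
  have hbcop : b.Coprime (ℓ ^ K) :=
    Nat.Coprime.pow_right _ ((Nat.Prime.coprime_iff_not_dvd hℓ).2 hbℓ).symm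
  have hunit : ∀ a : ℕ, ¬ ℓ ∣ a → IsUnit (a : ZMod (ℓ ^ K)) := fun a ha =>
    (ZMod.isUnit_iff_coprime a (ℓ ^ K)).2
      (Nat.Coprime.pow_right _ ((Nat.Prime.coprime_iff_not_dvd hℓ).2 ha).symm)
  have hnunit : ∀ a : ℕ, ℓ ∣ a → ψ₂ (a : ZMod (ℓ ^ K)) = 0 := by
    intro a ha
    apply ψ₂.map_nonunit
    intro h
    have h1 := (ZMod.isUnit_iff_coprime a (ℓ ^ K)).1 h
    have h2 := Nat.dvd_gcd ha (dvd_pow_self ℓ (show K ≠ 0 by omega))
    rw [h1] at h2
    exact hℓ.one_lt.ne' (Nat.dvd_one.1 h2)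
  -- the root of unity `ξ`
  have hξ1 : ξ ^ ℓ ^ n = 1 := psi_M_pow ψ₂ hn
  have hξL : (ξ ^ b₁) ^ (N₁ * ℓ ^ n) = 1 := by
    rw [← pow_mul, show b₁ * (N₁ * ℓ ^ n) = ℓ ^ n * (b₁ * N₁) by ring, pow_mul, hξ1, one_pow]
  have hξN : (ξ ^ b₁) ^ N₁ ≠ 1 := by
    intro h
    rw [← pow_mul] at h
    have h4 : orderOf ξ ∣ 1 := by
      have h5 : Nat.Coprime (b₁ * N₁) (ℓ ^ n) := (Nat.Coprime.mul_left hb₁ℓ hN₁).pow_right n
      rw [← h5]
      exact Nat.dvd_gcd (orderOf_dvd_of_pow_eq_one h) (orderOf_dvd_of_pow_eq_one hξ1)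
    have h6 : ξ = 1 := orderOf_eq_one_iff.1 (Nat.dvd_one.1 h4)
    apply hprim
    rw [← psi_M_pow' ψ₂ hn hn1, ← hM, ← hξ, h6, one_pow]
  -- Frobenius
  have hSj : ∀ j, ∑ a ∈ range N, ψ₁ (a : ZMod N₁) * ψ₂ (a : ZMod (ℓ ^ K)) ^ (p ^ g) ^ j *
      Polynomial.aeval ((a : k) / (N : ℕ)) F = 0 := by
    intro j
    have h1 := congrArg (iterateFrobenius k p (g * j)) hS
    rw [map_zero, map_sum] at h1
    rw [← h1]
    refine Finset.sum_congr rfl fun a _ => ?_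
    rw [iterateFrobenius_def, mul_pow, mul_pow, frob_fix, pow_mul]
    congr 2
    have h2 : ∀ j, ψ₁ (a : ZMod N₁) ^ (p ^ g) ^ j = ψ₁ (a : ZMod N₁) := by
      intro j
      induction j with
      | zero => simp
      | succ j ih => rw [pow_succ, pow_mul, ih, hψ₁]
    rw [h2]
  -- the inverse of `b`
  set β := ψ₂ (b : ZMod (ℓ ^ K)) with hβ
  have hβ0 : β ≠ 0 := ((hunit b hbℓ).map ψ₂).ne_zero
  obtain ⟨b', hb'⟩ : ∃ b' : ℕ, (b : ZMod (ℓ ^ K)) * b' = 1 := by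
    have : NeZero (ℓ ^ K) := ⟨pow_ne_zero _ hℓ.ne_zero⟩
    refine ⟨((b : ZMod (ℓ ^ K))⁻¹).val, ?_⟩
    rw [ZMod.natCast_val, ZMod.cast_id', id_eq]
    exact ZMod.coe_mul_inv_eq_one b hbcop
  have hβ' : ψ₂ (b' : ZMod (ℓ ^ K)) = β⁻¹ := by
    apply eq_inv_of_mul_eq_one_left
    rw [hβ, ← map_mul, mul_comm, hb', map_one]
  have hb'M : b * b' ≡ 1 [MOD M] := by
    have h1 : b * b' ≡ 1 [MOD ℓ ^ K] := by
      rw [← ZMod.natCast_eq_natCast_iff]
      push_cast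
      exact hb'
    exact h1.of_dvd (pow_dvd_pow _ (by omega))
  have hb'0 : ¬ ℓ ∣ b' := by
    intro h
    have h1 : b * b' ≡ 1 [MOD ℓ] := hb'M.of_dvd ((dvd_pow_self ℓ (by omega)).trans hMn)
    have h2 : b * b' ≡ 0 [MOD ℓ] := (Nat.modEq_zero_iff_dvd).2 (h.mul_left b)
    have h4 := h2.symm.trans h1
    have h5 := (Nat.modEq_iff_dvd' (Nat.zero_le 1)).1 h4
    exact hℓ.one_lt.ne' (Nat.dvd_one.1 h5)
  -- the traces
  have hT : ∀ a : ℕ, ∑ j ∈ range (ℓ ^ K), (ψ₂ (a : ZMod (ℓ ^ K)) * β⁻¹) ^ (p ^ g) ^ j =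
      if a % M = b ∨ a % M = M - b then (ℓ ^ K : ℕ) * (ψ₂ (a : ZMod (ℓ ^ K)) * β⁻¹) else 0 := by
    intro a
    by_cases ha : ℓ ∣ a
    · rw [hnunit a ha]
      have h1 : ∀ j, ((0 : k) * β⁻¹) ^ (p ^ g) ^ j = 0 := fun j => by
        rw [zero_mul, zero_pow]
        exact (Nat.pos_of_ne_zero (pow_ne_zero _ (by omega))).ne'
      rw [Finset.sum_eq_zero fun j _ => h1 j, zero_mul, mul_zero, ite_self]
    · have hz : ψ₂ (a : ZMod (ℓ ^ K)) * β⁻¹ = ψ₂ ((a * b' : ℕ) : ZMod (ℓ ^ K)) := by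
        rw [← hβ', ← map_mul]
        push_cast
        rfl
      have hcℓ : ¬ ℓ ∣ a * b' := fun h => by
        rcases (hℓ.dvd_mul).1 h with h | h
        · exact ha h
        · exact hb'0 h
      have hc0 : a * b' ≠ 0 := fun h => hcℓ (h ▸ dvd_zero _)
      have hz0 : ψ₂ ((a * b' : ℕ) : ZMod (ℓ ^ K)) ≠ 0 := ((hunit _ hcℓ).map ψ₂).ne_zero
      have hab : a * b' * b ≡ a [MOD M] := by
        calc a * b' * b = a * (b * b') := by ring
          _ ≡ a * 1 [MOD M] := hb'M.mul_left a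
          _ = a := mul_one a
      rw [hz]
      split_ifs with hcase
      · refine trace_one _ hq1 (kernel_conv ψ₂ hn hqodd hq hc0
          (Nat.one_le_pow _ _ hℓ.pos) ?_)
        rcases hcase with h1 | h1
        · left
          have h2 : a ≡ b [MOD M] := by
            rw [Nat.ModEq, h1, Nat.mod_eq_of_lt hb]
          have h4 : 1 ≡ a * b' [MOD M] := (h2.mul_right b' |>.trans hb'M).symm
          exact (Nat.modEq_iff_dvd' (Nat.pos_of_ne_zero hc0)).1 h4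
        · right
          have h2 : a + b ≡ 0 [MOD M] := by
            have h4 : a ≡ M - b [MOD M] := by
              rw [Nat.ModEq, h1, Nat.mod_eq_of_lt (by omega)]
            have h5 := h4.add_right b
            rw [Nat.sub_add_cancel hb.le] at h5
            exact h5.trans (Nat.modEq_zero_iff_dvd.2 dvd_rfl)
          have h4 : a * b' + b * b' ≡ 0 [MOD M] := by
            have := h2.mul_right b'
            rwa [add_mul, zero_mul] at this
          exact Nat.modEq_zero_iff_dvd.1 ((hb'M.symm.add_left (a * b')).trans h4)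
      · refine trace_zero hA _ hz0 ?_ ?_
        · intro h1
          apply hcase
          rcases kernel ψ₂ hA hn hn1 hprim hq hu
            ((Nat.Prime.coprime_iff_not_dvd hℓ).2 hcℓ).symm h1 with h2 | h2
          · left
            have h4 : 1 ≡ a * b' [MOD M] := (Nat.modEq_iff_dvd' (Nat.pos_of_ne_zero hc0)).2 h2
            have h5 : b ≡ a [MOD M] := by
              have := (h4.mul_right b).trans hab
              rwa [one_mul] at this
            rw [← Nat.mod_eq_of_lt hb]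
            exact h5.symm
          · right
            have h4 : (a * b' + 1) * b ≡ 0 [MOD M] := Nat.modEq_zero_iff_dvd.2 (h2.mul_right b)
            rw [add_mul, one_mul] at h4
            have h5 : a + b ≡ 0 [MOD M] := (hab.symm.add_right b).trans h4
            have h6 : a + b ≡ (M - b) + b [MOD M] := by
              rw [Nat.sub_add_cancel hb.le]
              exact h5.trans (Nat.modEq_zero_iff_dvd.2 dvd_rfl).symm
            have h7 : a ≡ M - b [MOD M] := Nat.ModEq.add_right_cancel' b h6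
            rw [Nat.ModEq, Nat.mod_eq_of_lt (show M - b < M by omega)] at h7
            exact h7
        · rw [← pow_mul, ← map_pow]
          have h1 : ((a * b' : ℕ) : ZMod (ℓ ^ K)) ^ ((p ^ g - 1) * ℓ ^ K) = 1 := by
            obtain ⟨U, hU⟩ := hunit _ hcℓ
            rw [← hU, ← Units.val_pow_eq_pow_val]
            have h2 := ZMod.pow_totient U
            rw [Nat.totient_prime_pow hℓ (by omega)] at h2
            have h4 : ℓ - 1 ∣ p ^ g - 1 := by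
              rcases hA with ⟨h5, -⟩ | ⟨h5, -⟩
              · rw [h5]
                exact even_iff_two_dvd.1 hqodd
              · rw [h5]
                exact one_dvd _
            obtain ⟨w, hw⟩ := h4
            have h5 : (p ^ g - 1) * ℓ ^ K = (ℓ ^ (K - 1) * (ℓ - 1)) * (w * ℓ) := by
              rw [hw]
              have : ℓ ^ K = ℓ ^ (K - 1) * ℓ := by
                rw [← pow_succ]
                congr 1
                omega
              rw [this]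
              ring
            rw [h5, pow_mul, h2, one_pow, Units.val_one]
          rw [h1, map_one]
  -- the sum over the two classes
  have hsum : ∑ a ∈ range N, (if a % M = b ∨ a % M = M - b then
      ψ₁ (a : ZMod N₁) * ψ₂ (a : ZMod (ℓ ^ K)) * Polynomial.aeval ((a : k) / (N : ℕ)) F else 0) = 0 := by
    have h1 : ∑ j ∈ range (ℓ ^ K), (β⁻¹) ^ (p ^ g) ^ j * ∑ a ∈ range N, ψ₁ (a : ZMod N₁) *
        ψ₂ (a : ZMod (ℓ ^ K)) ^ (p ^ g) ^ j * Polynomial.aeval ((a : k) / (N : ℕ)) F = 0 := by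
      simp only [hSj, mul_zero, Finset.sum_const_zero]
    simp only [Finset.mul_sum] at h1
    rw [Finset.sum_comm] at h1
    have h2 : ∀ a ∈ range N, ∑ j ∈ range (ℓ ^ K), (β⁻¹) ^ (p ^ g) ^ j * (ψ₁ (a : ZMod N₁) *
        ψ₂ (a : ZMod (ℓ ^ K)) ^ (p ^ g) ^ j * Polynomial.aeval ((a : k) / (N : ℕ)) F) =
        ((ℓ ^ K : ℕ) * β⁻¹) * (if a % M = b ∨ a % M = M - b then
      ψ₁ (a : ZMod N₁) * ψ₂ (a : ZMod (ℓ ^ K)) * Polynomial.aeval ((a : k) / (N : ℕ)) F else 0) := by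
      intro a _
      have h4 : ∀ j, (β⁻¹) ^ (p ^ g) ^ j * (ψ₁ (a : ZMod N₁) *
          ψ₂ (a : ZMod (ℓ ^ K)) ^ (p ^ g) ^ j * Polynomial.aeval ((a : k) / (N : ℕ)) F) =
          (ψ₁ (a : ZMod N₁) * Polynomial.aeval ((a : k) / (N : ℕ)) F) *
          (ψ₂ (a : ZMod (ℓ ^ K)) * β⁻¹) ^ (p ^ g) ^ j := by
        intro j
        rw [mul_pow]
        ring
      simp only [h4]
      rw [← Finset.mul_sum, hT]
      split_ifs
      · ring
      · ring
    rw [Finset.sum_congr rfl h2, ← Finset.mul_sum] at h1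
    rcases mul_eq_zero.1 h1 with h4 | h4
    · exfalso
      rcases mul_eq_zero.1 h4 with h5 | h5
      · push_cast at h5
        exact pow_ne_zero _ hℓk h5
      · exact inv_ne_zero hβ0 h5
    · exact h4
  have hex : ∀ a, ¬ (a % M = b ∧ a % M = M - b) := by
    rintro a ⟨h1, h2⟩
    rw [h1] at h2
    have h4 : M = 2 * b := by omega
    have h5 : ℓ ^ n ∣ 2 * b := h4 ▸ hMn
    have h6 : ℓ ^ n ∣ 2 := by
      refine Nat.Coprime.dvd_of_dvd_mul_right (Nat.Coprime.pow_left n ?_) h5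
      exact (Nat.Prime.coprime_iff_not_dvd hℓ).2 hbℓ
    have := Nat.le_of_dvd (by norm_num) h6
    omega
  have hsplit : ∑ a ∈ range N, (if a % M = b then
      ψ₁ (a : ZMod N₁) * ψ₂ (a : ZMod (ℓ ^ K)) * Polynomial.aeval ((a : k) / (N : ℕ)) F else 0) +
      ∑ a ∈ range N, (if a % M = M - b then
      ψ₁ (a : ZMod N₁) * ψ₂ (a : ZMod (ℓ ^ K)) * Polynomial.aeval ((a : k) / (N : ℕ)) F else 0) = 0 := by
    rw [← Finset.sum_add_distrib]
    refine Eq.trans (Finset.sum_congr rfl fun a _ => ?_) hsum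
    have := hex a
    by_cases h1 : a % M = b <;> by_cases h2 : a % M = M - b
    · exact absurd ⟨h1, h2⟩ this
    · rw [if_pos h1, if_neg h2, if_pos (Or.inl h1), add_zero]
    · rw [if_neg h1, if_pos h2, if_pos (Or.inr h2), zero_add]
    · rw [if_neg h1, if_neg h2, if_neg (by tauto), add_zero]
  -- reflection
  have hNk0 : ((N : ℕ) : k) ≠ 0 := by
    rw [hN]
    push_cast
    exact mul_ne_zero hNk (pow_ne_zero _ hℓk)
  have hrefl : ∑ a ∈ range N, (if a % M = M - b then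
      ψ₁ (a : ZMod N₁) * ψ₂ (a : ZMod (ℓ ^ K)) * Polynomial.aeval ((a : k) / (N : ℕ)) F else 0) =
      ∑ a ∈ range N, (if a % M = b then
      (ψ₁ (a : ZMod N₁) * ψ₂ (a : ZMod (ℓ ^ K)) * Polynomial.aeval ((a : k) / (N : ℕ)) F +
        (-1) ^ m * c * (ψ₁ (a : ZMod N₁) * ψ₂ (a : ZMod (ℓ ^ K)))) else 0) := by
    have hNM : N % M = 0 := Nat.mod_eq_zero_of_dvd hMN
    have h1 : ∑ a ∈ range (N + 1), (if a % M = M - b then
      ψ₁ (a : ZMod N₁) * ψ₂ (a : ZMod (ℓ ^ K)) * Polynomial.aeval ((a : k) / (N : ℕ)) F else 0) =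
      ∑ a ∈ range N, (if a % M = M - b then
      ψ₁ (a : ZMod N₁) * ψ₂ (a : ZMod (ℓ ^ K)) * Polynomial.aeval ((a : k) / (N : ℕ)) F else 0) := by
      rw [Finset.sum_range_succ, if_neg, add_zero]
      omega
    have h2 : ∑ a ∈ range (N + 1), (if a % M = b then
      (ψ₁ (a : ZMod N₁) * ψ₂ (a : ZMod (ℓ ^ K)) * Polynomial.aeval ((a : k) / (N : ℕ)) F +
        (-1) ^ m * c * (ψ₁ (a : ZMod N₁) * ψ₂ (a : ZMod (ℓ ^ K)))) else 0) =
      ∑ a ∈ range N, (if a % M = b then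
      (ψ₁ (a : ZMod N₁) * ψ₂ (a : ZMod (ℓ ^ K)) * Polynomial.aeval ((a : k) / (N : ℕ)) F +
        (-1) ^ m * c * (ψ₁ (a : ZMod N₁) * ψ₂ (a : ZMod (ℓ ^ K)))) else 0) := by
      rw [Finset.sum_range_succ, if_neg, add_zero]
      omega
    rw [← h1, ← h2, ← Finset.sum_range_reflect]
    refine Finset.sum_congr rfl fun j hj => ?_
    have hj' : j ≤ N := by
      have := mem_range.1 hj
      omega
    rw [Nat.add_sub_cancel]
    have h4 : (N - j) % M = M - b ↔ j % M = b := by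
      obtain ⟨w, hw⟩ := hMN
      constructor
      · intro h
        have h5 := Nat.mod_add_div (N - j) M
        have h6 := Nat.mod_add_div j M
        have h7 : j % M < M := Nat.mod_lt _ hM0
        have h8 : (M - b) + j % M + M * ((N - j) / M + j / M) = M * w := by
          rw [← hw, mul_add]
          omega
        have h9 : M ∣ (M - b) + j % M := by
          refine (Nat.dvd_add_left (dvd_mul_right M ((N - j) / M + j / M))).1 ?_
          rw [h8]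
          exact dvd_mul_right _ _
        obtain ⟨v, hv⟩ := h9
        have hv1 : v = 1 := by
          rcases Nat.lt_or_ge v 1 with h | h
          · have : v = 0 := by omega
            subst this
            omega
          · rcases Nat.lt_or_ge 1 v with h' | h'
            · have : M * 2 ≤ M * v := Nat.mul_le_mul_left _ h'
              omega
            · omega
        subst hv1
        omega
      · intro h
        have h6 := Nat.mod_add_div j M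
        rw [h] at h6
        have h7 : j / M < w := by
          by_contra hcon
          push Not at hcon
          have : M * w ≤ M * (j / M) := Nat.mul_le_mul_left _ hcon
          omega
        have h8 : N - j = (M - b) + M * (w - 1 - j / M) := by
          have h9 : M * w = M * (w - 1 - j / M) + M * (j / M) + M := by
            have : w = (w - 1 - j / M) + j / M + 1 := by omega
            conv_lhs => rw [this]
            ring
          omega
        rw [h8, Nat.add_mul_mod_self_left, Nat.mod_eq_of_lt (by omega)]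
    by_cases h5 : j % M = b
    · rw [if_pos h5, if_pos (h4.2 h5)]
      have e1 : ((N - j : ℕ) : ZMod N₁) = (-1) * (j : ZMod N₁) := by
        rw [Nat.cast_sub hj', hN]
        push_cast
        simp
      have e2 : ((N - j : ℕ) : ZMod (ℓ ^ K)) = (-1) * (j : ZMod (ℓ ^ K)) := by
        rw [Nat.cast_sub hj', hN]
        have := ZMod.natCast_self (ℓ ^ K)
        rw [Nat.cast_mul, this]
        ring
      have e3 : (((N - j : ℕ) : k) / (N : ℕ)) = 1 - (j : k) / (N : ℕ) := by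
        rw [Nat.cast_sub hj', sub_div, div_self hNk0]
      rw [e1, e2, e3, map_mul, map_mul, hF]
      have e4 : ((-1 : k) ^ m) * (-1) ^ m = 1 := by
        rw [← mul_pow]
        simp
      linear_combination (ψ₁ (j : ZMod N₁) * ψ₂ (j : ZMod (ℓ ^ K)) *
        ((-1) ^ m * Polynomial.aeval ((j : k) / (N : ℕ)) F + c)) * hpar +
        ψ₁ (j : ZMod N₁) * ψ₂ (j : ZMod (ℓ ^ K)) * Polynomial.aeval ((j : k) / (N : ℕ)) F * e4
    · rw [if_neg h5, if_neg (fun h => h5 (h4.1 h))]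
  rw [hrefl] at hsplit
  have hsp2 : ∑ a ∈ range N, (if a % M = b then
      (2 * (ψ₁ (a : ZMod N₁) * ψ₂ (a : ZMod (ℓ ^ K)) * Polynomial.aeval ((a : k) / (N : ℕ)) F) +
        (-1) ^ m * c * (ψ₁ (a : ZMod N₁) * ψ₂ (a : ZMod (ℓ ^ K)))) else 0) = 0 := by
    rw [← Finset.sum_add_distrib] at hsplit
    refine Eq.trans (Finset.sum_congr rfl fun a _ => ?_) hsplit
    split_ifs
    · ring
    · ring
  rw [hML, class_sum M (N₁ * ℓ ^ n) b hb (fun a => 2 * (ψ₁ (a : ZMod N₁) * ψ₂ (a : ZMod (ℓ ^ K)) *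
    Polynomial.aeval ((a : k) / ((M * (N₁ * ℓ ^ n) : ℕ) : k)) F) +
        (-1) ^ m * c * (ψ₁ (a : ZMod N₁) * ψ₂ (a : ZMod (ℓ ^ K))))] at hsp2
  have hE := E_zero (M := M) ψ₁ (ξ ^ b₁) (dvd_mul_right N₁ (ℓ ^ n)) hξL hξN b
  have hfin : 2 * β * ∑ t ∈ range (N₁ * ℓ ^ n), ψ₁ ((b + M * t : ℕ) : ZMod N₁) * (ξ ^ b₁) ^ t *
      Polynomial.aeval (((b + M * t : ℕ) : k) / (N : ℕ)) F = 0 := by
    have h1 : ∑ t ∈ range (N₁ * ℓ ^ n), (2 * (ψ₁ ((b + M * t : ℕ) : ZMod N₁) *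
        ψ₂ ((b + M * t : ℕ) : ZMod (ℓ ^ K)) *
        Polynomial.aeval (((b + M * t : ℕ) : k) / ((M * (N₁ * ℓ ^ n) : ℕ) : k)) F) +
        (-1) ^ m * c * (ψ₁ ((b + M * t : ℕ) : ZMod N₁) * ψ₂ ((b + M * t : ℕ) : ZMod (ℓ ^ K)))) =
        2 * β * ∑ t ∈ range (N₁ * ℓ ^ n), ψ₁ ((b + M * t : ℕ) : ZMod N₁) * (ξ ^ b₁) ^ t *
          Polynomial.aeval (((b + M * t : ℕ) : k) / (N : ℕ)) F +
        (-1) ^ m * c * β * ∑ t ∈ range (N₁ * ℓ ^ n), ψ₁ ((b + M * t : ℕ) : ZMod N₁) * (ξ ^ b₁) ^ t := by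
      rw [Finset.mul_sum, Finset.mul_sum, ← Finset.sum_add_distrib]
      refine Finset.sum_congr rfl fun t _ => ?_
      rw [psi_b_gen ψ₂ hn b t b₁ hb1, ← hβ, ← hM, ← hξ, ← hML]
      ring
    rw [h1, hE, mul_zero, add_zero] at hsp2
    exact hsp2
  rcases mul_eq_zero.1 hfin with h1 | h1
  · exfalso
    rcases mul_eq_zero.1 h1 with h2 | h2
    · have h4 : ((2 : ℕ) : k) = 0 := by exact_mod_cast h2
      rw [CharP.cast_eq_zero_iff k p] at h4
      exact hp2 ((Nat.prime_dvd_prime_iff_eq hp Nat.prime_two).1 h4)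
    · exact hβ0 h2
  · exact h1

end

end Pool.Agent.J6H1.GX
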