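import Pool.Agent.J6H1.GX.Proj

/-!
# Characters modulo `2 ^ a * 3 ^ b`: relations between the sums over two classes
-/

set_option autoImplicit false

namespace Pool.Agent.J6H1.GX

open Finset Pool.Agent.Y18.GX

/-- `q ^ (3 ^ b) - 1` and `q - 1` have the same `2`-part. -/
lemma two_part {q n u J : ℕ} (hq1 : 1 ≤ q) (hqo : Odd q) (hJ : Odd J) (hq : q - 1 = 2 ^ n * u) (hu : u.Coprime 2) :
    ∃ u', q ^ J - 1 = 2 ^ n * u' ∧ u'.Coprime 2 := by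
  refine ⟨u * ∑ i ∈ range J, q ^ i, ?_, ?_⟩
  · rw [pow_sub_one_geom q J hq1, hq, mul_assoc]
  · rw [Nat.coprime_two_right] at hu ⊢
    refine hu.mul ?_
    rw [Finset.odd_sum_iff_odd_card_odd]
    have h1 : {i ∈ range J | Odd (q ^ i)} = range J := by
      rw [Finset.filter_true_of_mem]
      intro i _
      exact hqo.pow
    rw [h1, card_range]
    exact hJ

/-- `q ^ (2 ^ a) - 1` and `q - 1` have the same `3`-part. -/
lemma three_part {q n u J : ℕ} (hq1 : 1 ≤ q) (hq3 : q % 3 = 1) (hJ : ¬ 3 ∣ J) (hq : q - 1 = 3 ^ n * u)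
    (hu : u.Coprime 3) : ∃ u', q ^ J - 1 = 3 ^ n * u' ∧ u'.Coprime 3 := by
  refine ⟨u * ∑ i ∈ range J, q ^ i, ?_, ?_⟩
  · rw [pow_sub_one_geom q J hq1, hq, mul_assoc]
  · refine Nat.Coprime.mul_left hu ?_
    rw [Nat.coprime_comm, Nat.Prime.coprime_iff_not_dvd Nat.prime_three]
    intro h
    apply hJ
    have h1 : (∑ i ∈ range J, q ^ i) ≡ J [MOD 3] := by
      have h2 : ∀ i ∈ range J, q ^ i ≡ 1 [MOD 3] := by
        intro i _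
        have : q ≡ 1 [MOD 3] := hq3
        simpa using this.pow i
      calc (∑ i ∈ range J, q ^ i) ≡ ∑ i ∈ range J, 1 [MOD 3] := by
            unfold Nat.ModEq
            rw [Finset.sum_nat_mod, Finset.sum_congr rfl (fun i hi => (h2 i hi : q ^ i % 3 = 1 % 3)),
              Finset.sum_nat_mod (range J) 3 (fun _ => 1)]
        _ = J := by simp
    exact (h1.dvd_iff dvd_rfl).1 h

section
variable {k : Type*} [Field k]

/-- values of characters modulo `3 ^ b` -/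
lemma char_pow_eq {b Q : ℕ} (χ : MulChar (ZMod (3 ^ b)) k) (hQ1 : 1 ≤ Q) (hQ : (3 ^ b).totient ∣ Q - 1)
    (x : ZMod (3 ^ b)) : χ x ^ Q = χ x := by
  by_cases hx : IsUnit x
  · obtain ⟨U, rfl⟩ := hx
    obtain ⟨w, hw⟩ := hQ
    have h1 : Q = (3 ^ b).totient * w + 1 := by omega
    rw [h1, pow_succ, pow_mul, ← map_pow, ← Units.val_pow_eq_pow_val, ZMod.pow_totient, Units.val_one, map_one,
      one_pow, one_mul]
  · rw [MulChar.map_nonunit _ hx, zero_pow]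
    omega

end

section
variable {k : Type*} [Field k] {p : ℕ} [Fact p.Prime] [CharP k p]

theorem two_rel {a b n r g u v m : ℕ} (χ₃ : MulChar (ZMod (3 ^ b)) k) (χ₂ : MulChar (ZMod (2 ^ a)) k)
    (hp2 : p ≠ 2) (hp3 : p ≠ 3) (hn : 2 ≤ n) (hr : 1 ≤ r) (ha : 2 * n ≤ a) (hb : 2 * r ≤ b)
    (hA2 : p ^ g % 4 = 1) (hA3 : p ^ g % 3 = 1)
    (hq2 : p ^ g - 1 = 2 ^ n * u) (hu : u.Coprime 2) (hq3 : p ^ g - 1 = 3 ^ r * v) (hv : v.Coprime 3)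
    (hprim2 : χ₂ ((1 + 2 ^ (a - 1) : ℕ) : ZMod (2 ^ a)) ≠ 1)
    (hprim3 : χ₃ ((1 + 3 ^ (b - 1) : ℕ) : ZMod (3 ^ b)) ≠ 1)
    (F : Polynomial ℤ) (C : k)
    (hF : ∀ x : k, Polynomial.aeval (1 - x) F = (-1) ^ m * Polynomial.aeval x F + C)
    (hpar : χ₃ (-1) * χ₂ (-1) = (-1) ^ m)
    (hS : ∑ x ∈ range (3 ^ b * 2 ^ a), χ₃ (x : ZMod (3 ^ b)) * χ₂ (x : ZMod (2 ^ a)) *
      Polynomial.aeval ((x : k) / (3 ^ b * 2 ^ a : ℕ)) F = 0)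
    (c c₁ ty tz κ : ℕ) (hc : c < 2 ^ (a - n)) (hc1 : c * c₁ % 2 ^ n = 1)
    (hty : ty < 3 ^ (b - r)) (htz : tz < 3 ^ (b - r)) (hy : (c + 2 ^ (a - n) * ty) % 3 ^ r = 1)
    (hyz : (c + 2 ^ (a - n) * ty) + (c + 2 ^ (a - n) * tz) = 3 ^ (b - r) * κ) :
    (χ₂ ((1 + 2 ^ (a - n) : ℕ) : ZMod (2 ^ a)) ^ c₁) ^ ty *
      ∑ s ∈ range (3 ^ r * 2 ^ n), (χ₃ ((1 + 3 ^ (b - r) : ℕ) : ZMod (3 ^ b)) ^ 2 ^ (a - n) *
        (χ₂ ((1 + 2 ^ (a - n) : ℕ) : ZMod (2 ^ a)) ^ c₁) ^ 3 ^ (b - r)) ^ s *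
        Polynomial.aeval (((c + 2 ^ (a - n) * (ty + 3 ^ (b - r) * s) : ℕ) : k) / (3 ^ b * 2 ^ a : ℕ)) F +
    χ₃ (-1) * ((χ₃ ((1 + 3 ^ (b - r) : ℕ) : ZMod (3 ^ b)))⁻¹) ^ κ *
      (χ₂ ((1 + 2 ^ (a - n) : ℕ) : ZMod (2 ^ a)) ^ c₁) ^ tz *
      ∑ s ∈ range (3 ^ r * 2 ^ n), (((χ₃ ((1 + 3 ^ (b - r) : ℕ) : ZMod (3 ^ b)))⁻¹) ^ 2 ^ (a - n) *
        (χ₂ ((1 + 2 ^ (a - n) : ℕ) : ZMod (2 ^ a)) ^ c₁) ^ 3 ^ (b - r)) ^ s *
        Polynomial.aeval (((c + 2 ^ (a - n) * (tz + 3 ^ (b - r) * s) : ℕ) : k) / (3 ^ b * 2 ^ a : ℕ)) F = 0 := by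
  have hp := (Fact.out : p.Prime)
  have hAdm2 : Adm 2 (p ^ g) := Or.inr ⟨rfl, hA2⟩
  have hAdm3 : Adm 3 (p ^ g) := Or.inl ⟨rfl, hA3⟩
  have hq1 : 1 ≤ p ^ g := Nat.one_le_pow _ _ hp.pos
  have hqo : Odd (p ^ g) := (hp.odd_of_ne_two hp2).pow
  have h2k : ((2 : ℕ) : k) ≠ 0 := fun h => hp2
    ((Nat.prime_dvd_prime_iff_eq hp Nat.prime_two).1 ((CharP.cast_eq_zero_iff k p 2).1 h))
  have h3k : ((3 : ℕ) : k) ≠ 0 := fun h => hp3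
    ((Nat.prime_dvd_prime_iff_eq hp Nat.prime_three).1 ((CharP.cast_eq_zero_iff k p 3).1 h))
  -- the field which contains the values of `χ₃`
  obtain ⟨u', hu', hu'c⟩ := two_part hq1 hqo (J := 3 ^ b) (Odd.pow (by decide)) hq2 hu
  rw [← pow_mul] at hu'
  have hψ : ∀ x, χ₃ x ^ p ^ (g * 3 ^ b) = χ₃ x := by
    intro x
    refine char_pow_eq χ₃ (Nat.one_le_pow _ _ hp.pos) ?_ x
    rw [Nat.totient_prime_pow Nat.prime_three (by omega)]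
    refine Nat.Coprime.mul_dvd_of_dvd_of_dvd (Nat.Coprime.pow_left _ (by norm_num)) ?_ ?_
    · obtain ⟨y, hy, -⟩ := pow_iter (r := r) hAdm3 (by omega : p ^ g = 1 + 3 ^ r * v) hv b
      rw [pow_mul, hy]
      rw [Nat.add_sub_cancel_left]
      exact (pow_dvd_pow _ (by omega)).mul_right _
    · rw [hu']
      exact (dvd_pow_self 2 (by omega)).mul_right _
  have hC := class_zero_gen (p := p) (ℓ := 2) (n := n) (K := a) (N₁ := 3 ^ b) (g := g * 3 ^ b) (m := m) (u := u')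
    χ₃ χ₂ hp2 (by rw [pow_mul]; exact hAdm2.pow _) (by omega) ha
    (by calc 3 ≤ 2 ^ 2 := by norm_num
          _ ≤ 2 ^ n := Nat.pow_le_pow_right (by norm_num) hn) hu' hu'c hψ hprim2
    (Nat.Coprime.pow_left _ (by norm_num)) (by positivity) (by push_cast; exact pow_ne_zero _ (by exact_mod_cast h3k))
    (by exact_mod_cast h2k) F C hF hpar hS c hc c₁ hc1
  set Q₂ := 2 ^ (a - n) with hQ₂
  set Q₃ := 3 ^ (b - r) with hQ₃
  set ξ := χ₂ ((1 + Q₂ : ℕ) : ZMod (2 ^ a)) ^ c₁ with hξ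
  set η := χ₃ ((1 + Q₃ : ℕ) : ZMod (3 ^ b)) with hη
  set N := 3 ^ b * 2 ^ a with hN
  have hr3 : 3 ^ r ∣ Q₃ := pow_dvd_pow _ (by omega)
  have h3r : 3 ∣ 3 ^ r := dvd_pow_self 3 (by omega)
  have hQ₃0 : 0 < Q₃ := pow_pos (by norm_num) _
  set y := c + Q₂ * ty with hyd
  set z := c + Q₂ * tz with hzd
  have hy3 : ¬ 3 ∣ y := by
    intro h
    have h1 : 3 ∣ y % 3 ^ r := (Nat.dvd_mod_iff h3r).2 h
    rw [hy] at h1
    omega
  have hcop : Nat.Coprime Q₂ Q₃ := Nat.Coprime.pow _ _ (by norm_num)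
  have hd3 : ¬ 3 ∣ y % Q₃ := by
    intro h
    exact hy3 ((Nat.dvd_mod_iff (h3r.trans hr3)).1 h)
  -- the projection
  have hw : ∀ t ∈ range (3 ^ b * 2 ^ n), (ξ ^ t * Polynomial.aeval (((c + Q₂ * t : ℕ) : k) / (N : ℕ)) F) ^ p ^ g =
      ξ ^ t * Polynomial.aeval (((c + Q₂ * t : ℕ) : k) / (N : ℕ)) F := by
    intro t _
    rw [mul_pow, frob_fix]
    congr 1
    have h1 : ξ ^ (p ^ g - 1) = 1 := by
      rw [hξ, ← pow_mul, hq2, show c₁ * (2 ^ n * u) = 2 ^ n * (c₁ * u) by ring, pow_mul, psi_M_pow χ₂ ha, one_pow]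
    have h2 : ξ ^ p ^ g = ξ := by
      calc ξ ^ p ^ g = ξ ^ (p ^ g - 1 + 1) := by rw [Nat.sub_add_cancel hq1]
        _ = ξ := by rw [pow_succ, h1, one_mul]
    rw [← pow_mul, mul_comm, pow_mul, h2]
  have hP := project (p := p) (ℓ := 3) (n := r) (K := b) (u := v) (g := g) χ₃ hp2 hAdm3 hr hb hq3 hv hprim3
    (by exact_mod_cast h3k) (y % Q₃) (Nat.mod_lt _ hQ₃0) hd3 (range (3 ^ b * 2 ^ n)) (fun t => c + Q₂ * t)
    (fun t => ξ ^ t * Polynomial.aeval (((c + Q₂ * t : ℕ) : k) / (N : ℕ)) F) hw (by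
      rw [← hC]
      refine Finset.sum_congr rfl fun t _ => ?_
      ring)
  rw [← hQ₃] at hP
  -- the two classes
  have hcl : ∀ t t' : ℕ, t' < Q₃ → ((c + Q₂ * t) ≡ (c + Q₂ * t') [MOD Q₃] ↔ t % Q₃ = t') := by
    intro t t' ht'
    constructor
    · intro h
      have h1 : Q₂ * t ≡ Q₂ * t' [MOD Q₃] := Nat.ModEq.add_left_cancel' c h
      have h2 : t ≡ t' [MOD Q₃] := Nat.ModEq.cancel_left_of_coprime (by rw [Nat.gcd_comm]; exact hcop) h1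
      rw [Nat.ModEq, Nat.mod_eq_of_lt ht'] at h2
      exact h2
    · intro h
      have h1 : t ≡ t' [MOD Q₃] := by rw [Nat.ModEq, h, Nat.mod_eq_of_lt ht']
      exact (h1.mul_left _).add_left _
  have hyzM : y + z ≡ 0 [MOD Q₃] := by
    rw [hyz]
    exact Nat.modEq_zero_iff_dvd.2 (dvd_mul_right _ _)
  have hd0 : 0 < y % Q₃ := Nat.pos_of_ne_zero fun h => hd3 (h ▸ dvd_zero _)
  have hdl : y % Q₃ < Q₃ := Nat.mod_lt _ hQ₃0
  have hzy : z ≡ Q₃ - y % Q₃ [MOD Q₃] := by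
    have h1 : y % Q₃ + z ≡ y % Q₃ + (Q₃ - y % Q₃) [MOD Q₃] := by
      rw [Nat.add_sub_cancel' hdl.le]
      have h2 : y % Q₃ + z ≡ y + z [MOD Q₃] := (Nat.mod_modEq y Q₃).add_right z
      exact h2.trans (hyzM.trans (Nat.modEq_zero_iff_dvd.2 dvd_rfl).symm)
    exact Nat.ModEq.add_left_cancel' _ h1
  have hcase : ∀ t : ℕ, ((c + Q₂ * t) % Q₃ = y % Q₃ ∨ (c + Q₂ * t) % Q₃ = Q₃ - y % Q₃) ↔
      (t % Q₃ = ty ∨ t % Q₃ = tz) := by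
    intro t
    rw [← hcl t ty hty, ← hcl t tz htz]
    constructor
    · rintro (h | h)
      · exact Or.inl h
      · right
        refine Nat.ModEq.trans ?_ hzy.symm
        rw [Nat.ModEq, h, Nat.mod_eq_of_lt (show Q₃ - y % Q₃ < Q₃ from Nat.sub_lt hQ₃0 hd0)]
    · rintro (h | h)
      · exact Or.inl h
      · right
        have h1 := h.trans hzy
        rw [Nat.ModEq, Nat.mod_eq_of_lt (show Q₃ - y % Q₃ < Q₃ from Nat.sub_lt hQ₃0 hd0)] at h1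
        exact h1
  have hne : ty ≠ tz := by
    intro h
    have h1 : y = z := by rw [hyd, hzd, h]
    rw [← h1] at hyzM
    have h2 : 3 ∣ y + y := (h3r.trans hr3).trans (Nat.modEq_zero_iff_dvd.1 hyzM)
    omega
  have hdis : ∀ t : ℕ, (if (c + Q₂ * t) % Q₃ = y % Q₃ ∨ (c + Q₂ * t) % Q₃ = Q₃ - y % Q₃ then
      χ₃ ((c + Q₂ * t : ℕ) : ZMod (3 ^ b)) * (ξ ^ t * Polynomial.aeval (((c + Q₂ * t : ℕ) : k) / (N : ℕ)) F) else 0) =
      (if t % Q₃ = ty then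
      χ₃ ((c + Q₂ * t : ℕ) : ZMod (3 ^ b)) * (ξ ^ t * Polynomial.aeval (((c + Q₂ * t : ℕ) : k) / (N : ℕ)) F) else 0) +
      (if t % Q₃ = tz then
      χ₃ ((c + Q₂ * t : ℕ) : ZMod (3 ^ b)) * (ξ ^ t * Polynomial.aeval (((c + Q₂ * t : ℕ) : k) / (N : ℕ)) F) else 0) := by
    intro t
    rw [if_congr (hcase t) rfl rfl]
    by_cases h1 : t % Q₃ = ty <;> by_cases h2 : t % Q₃ = tz
    · exact absurd (h1.symm.trans h2) hne
    · rw [if_pos (Or.inl h1), if_pos h1, if_neg h2, add_zero]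
    · rw [if_pos (Or.inr h2), if_neg h1, if_pos h2, zero_add]
    · rw [if_neg (by tauto), if_neg h1, if_neg h2, add_zero]
  have hbn : 3 ^ b * 2 ^ n = Q₃ * (3 ^ r * 2 ^ n) := by
    rw [hQ₃, ← mul_assoc, ← pow_add, Nat.sub_add_cancel (by omega)]
  have hP2 : ∑ t ∈ range (3 ^ b * 2 ^ n), (if (c + Q₂ * t) % Q₃ = y % Q₃ ∨ (c + Q₂ * t) % Q₃ = Q₃ - y % Q₃ then
      χ₃ ((c + Q₂ * t : ℕ) : ZMod (3 ^ b)) * (ξ ^ t * Polynomial.aeval (((c + Q₂ * t : ℕ) : k) / (N : ℕ)) F)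
        else 0) = 0 := hP
  rw [Finset.sum_congr rfl (fun t _ => hdis t), Finset.sum_add_distrib, hbn,
    class_sum Q₃ (3 ^ r * 2 ^ n) ty hty (fun t => χ₃ ((c + Q₂ * t : ℕ) : ZMod (3 ^ b)) *
      (ξ ^ t * Polynomial.aeval (((c + Q₂ * t : ℕ) : k) / (N : ℕ)) F)),
    class_sum Q₃ (3 ^ r * 2 ^ n) tz htz (fun t => χ₃ ((c + Q₂ * t : ℕ) : ZMod (3 ^ b)) *
      (ξ ^ t * Polynomial.aeval (((c + Q₂ * t : ℕ) : k) / (N : ℕ)) F))] at hP2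
  -- the values of `χ₃`
  have hkill : ((Q₃ : ℕ) : ZMod (3 ^ b)) * ((3 ^ r : ℕ) : ZMod (3 ^ b)) = 0 := by
    rw [← Nat.cast_mul, hQ₃, ← pow_add, Nat.sub_add_cancel (by omega), ZMod.natCast_self]
  have hz1 : 3 ^ r ∣ z + 1 := by
    have h1 : 3 ^ r ∣ y + z := hr3.trans (Nat.modEq_zero_iff_dvd.1 hyzM)
    have h2 : y = 3 ^ r * (y / 3 ^ r) + 1 := by
      have := Nat.div_add_mod y (3 ^ r)
      omega
    rw [h2] at h1
    have h3 : 3 ^ r * (y / 3 ^ r) + 1 + z = 3 ^ r * (y / 3 ^ r) + (z + 1) := by ring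
    rw [h3] at h1
    exact (Nat.dvd_add_right (dvd_mul_right _ _)).1 h1
  have hzw : ((Q₃ : ℕ) : ZMod (3 ^ b)) * ((z : ℕ) : ZMod (3 ^ b)) = -((Q₃ : ℕ) : ZMod (3 ^ b)) := by
    obtain ⟨w, hw⟩ := hz1
    have h1 : ((z + 1 : ℕ) : ZMod (3 ^ b)) = ((3 ^ r : ℕ) : ZMod (3 ^ b)) * w := by
      rw [hw]
      push_cast
      rfl
    rw [Nat.cast_add, Nat.cast_one] at h1
    linear_combination ((Q₃ : ℕ) : ZMod (3 ^ b)) * h1 + (w : ZMod (3 ^ b)) * hkill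
  have hval_y : ∀ s : ℕ, χ₃ ((c + Q₂ * (ty + Q₃ * s) : ℕ) : ZMod (3 ^ b)) =
      χ₃ ((y : ℕ) : ZMod (3 ^ b)) * η ^ (Q₂ * s) := by
    intro s
    have h1 : c + Q₂ * (ty + Q₃ * s) = y + Q₃ * (Q₂ * s) := by
      rw [hyd]
      ring
    rw [h1]
    exact psi_b χ₃ hb y (Q₂ * s) hy
  have hval_z : ∀ s : ℕ, χ₃ ((c + Q₂ * (tz + Q₃ * s) : ℕ) : ZMod (3 ^ b)) =
      χ₃ ((z : ℕ) : ZMod (3 ^ b)) * (η⁻¹) ^ (Q₂ * s) := by
    intro s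
    have h1 : c + Q₂ * (tz + Q₃ * s) = z + Q₃ * (Q₂ * s) := by
      rw [hzd]
      ring
    rw [h1]
    have h2 := psi_w_neg χ₃ hb Nat.prime_three ((z : ℕ) : ZMod (3 ^ b)) (Q₂ * s) hzw
    rw [Nat.cast_add, Nat.cast_mul Q₃]
    exact h2
  have hneg : χ₃ (-1) * χ₃ (-1) = 1 := by
    rw [← map_mul]
    simp
  have hzy' : χ₃ ((z : ℕ) : ZMod (3 ^ b)) = χ₃ (-1) * χ₃ ((y : ℕ) : ZMod (3 ^ b)) * (η⁻¹) ^ κ := by
    have hw1 : ((Q₃ : ℕ) : ZMod (3 ^ b)) * (-((z : ℕ) : ZMod (3 ^ b))) = ((Q₃ : ℕ) : ZMod (3 ^ b)) := by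
      linear_combination -hzw
    have h1 := psi_w χ₃ hb (-((z : ℕ) : ZMod (3 ^ b))) κ hw1
    have h2 : -((z : ℕ) : ZMod (3 ^ b)) + ((Q₃ : ℕ) : ZMod (3 ^ b)) * κ = ((y : ℕ) : ZMod (3 ^ b)) := by
      have h3 : ((y + z : ℕ) : ZMod (3 ^ b)) = ((Q₃ * κ : ℕ) : ZMod (3 ^ b)) := by rw [hyz]
      rw [Nat.cast_add, Nat.cast_mul] at h3
      linear_combination -h3
    rw [h2] at h1
    have h3 : χ₃ (-((z : ℕ) : ZMod (3 ^ b))) = χ₃ (-1) * χ₃ ((z : ℕ) : ZMod (3 ^ b)) := by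
      rw [← map_mul, neg_one_mul]
    have hη0 : η ≠ 0 := by
      intro h
      have h5 := psi_M_pow χ₃ hb
      rw [← hQ₃, ← hη, h, zero_pow (by positivity)] at h5
      exact zero_ne_one h5
    rw [h1, h3, ← hη, inv_pow]
    field_simp
    linear_combination (-χ₃ ((z : ℕ) : ZMod (3 ^ b))) * hneg
  have hy0 : χ₃ ((y : ℕ) : ZMod (3 ^ b)) ≠ 0 := by
    have h1 : IsUnit ((y : ℕ) : ZMod (3 ^ b)) := (ZMod.isUnit_iff_coprime y (3 ^ b)).2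
      (Nat.Coprime.pow_right _ ((Nat.Prime.coprime_iff_not_dvd Nat.prime_three).2 hy3).symm)
    exact (h1.map χ₃).ne_zero
  apply mul_left_cancel₀ hy0
  rw [mul_zero, ← hP2, mul_add]
  simp only [Finset.mul_sum]
  congr 1
  · refine Finset.sum_congr rfl fun s _ => ?_
    rw [hval_y s]
    rw [mul_pow, ← pow_mul, ← pow_mul, pow_add]
    ring
  · refine Finset.sum_congr rfl fun s _ => ?_
    rw [hval_z s, hzy']
    rw [mul_pow, ← pow_mul, ← pow_mul, pow_add]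
    ring

end

end Pool.Agent.J6H1.GX
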