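import Pool.Agent.J6H1.GX.TypeTwo
import Pool.Agent.J6H1.GX.Two

/-!
# Characters modulo `2 ^ a * 3 ^ b`: the sums are not zero modulo `p` if `2 ^ a` or `3 ^ b` is large
-/

set_option autoImplicit false

namespace Pool.Agent.J6H1.GX

open Finset Polynomial Pool.Agent.Y18.GX

section
variable {k : Type*} [Field k] {p : ℕ} [Fact p.Prime] [CharP k p]

theorem rel_yz {a b n r g u v m : ℕ} (χ₃ : MulChar (ZMod (3 ^ b)) k) (χ₂ : MulChar (ZMod (2 ^ a)) k)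
    (hp2 : p ≠ 2) (hp3 : p ≠ 3) (hn : 2 ≤ n) (hr : 1 ≤ r) (ha : 2 * n ≤ a) (hb : 2 * r ≤ b)
    (hA2 : p ^ g % 4 = 1) (hA3 : p ^ g % 3 = 1)
    (hq2 : p ^ g - 1 = 2 ^ n * u) (hu : u.Coprime 2) (hq3 : p ^ g - 1 = 3 ^ r * v) (hv : v.Coprime 3)
    (hprim2 : χ₂ ((1 + 2 ^ (a - 1) : ℕ) : ZMod (2 ^ a)) ≠ 1)
    (hprim3 : χ₃ ((1 + 3 ^ (b - 1) : ℕ) : ZMod (3 ^ b)) ≠ 1)
    (F : Polynomial ℤ) (C : k)
    (hF : ∀ x : k, Polynomial.aeval (1 - x) F = (-1) ^ m * Polynomial.aeval x F + C)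
    (hpar : χ₃ (-1) * χ₂ (-1) = (-1) ^ m)
    (hS : ∑ x ∈ range (3 ^ b * 2 ^ a), χ₃ (x : ZMod (3 ^ b)) * χ₂ (x : ZMod (2 ^ a)) *
      Polynomial.aeval ((x : k) / (3 ^ b * 2 ^ a : ℕ)) F = 0) (c₁ : ℕ) :
    Rel (tw (3 ^ r * 2 ^ n) (χ₃ ((1 + 3 ^ (b - r) : ℕ) : ZMod (3 ^ b)) ^ 2 ^ (a - n) *
        (χ₂ ((1 + 2 ^ (a - n) : ℕ) : ZMod (2 ^ a)) ^ c₁) ^ 3 ^ (b - r)) (F.map (Int.castRingHom k)))
      (tw (3 ^ r * 2 ^ n) (((χ₃ ((1 + 3 ^ (b - r) : ℕ) : ZMod (3 ^ b)))⁻¹) ^ 2 ^ (a - n) *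
        (χ₂ ((1 + 2 ^ (a - n) : ℕ) : ZMod (2 ^ a)) ^ c₁) ^ 3 ^ (b - r)) (F.map (Int.castRingHom k)))
      (χ₂ ((1 + 2 ^ (a - n) : ℕ) : ZMod (2 ^ a)) ^ c₁) ((χ₃ ((1 + 3 ^ (b - r) : ℕ) : ZMod (3 ^ b)))⁻¹)
      (χ₃ (-1)) ((3 ^ b * 2 ^ a : ℕ) : k) (2 ^ (a - n)) (3 ^ (b - r)) n r c₁ := by
  intro y z κ hy hz hyz hyc hy3 hsum
  have hp := (Fact.out : p.Prime)
  have h2k : ((2 : ℕ) : k) ≠ 0 := fun h => hp2
    ((Nat.prime_dvd_prime_iff_eq hp Nat.prime_two).1 ((CharP.cast_eq_zero_iff k p 2).1 h))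
  have h3k : ((3 : ℕ) : k) ≠ 0 := fun h => hp3
    ((Nat.prime_dvd_prime_iff_eq hp Nat.prime_three).1 ((CharP.cast_eq_zero_iff k p 3).1 h))
  have hQ₂0 : 0 < 2 ^ (a - n) := by positivity
  have hy' : y % 2 ^ (a - n) + 2 ^ (a - n) * (y / 2 ^ (a - n)) = y := Nat.mod_add_div _ _
  have hz' : y % 2 ^ (a - n) + 2 ^ (a - n) * (z / 2 ^ (a - n)) = z := by
    rw [hyz]
    exact Nat.mod_add_div _ _
  have h1 := two_rel (p := p) (g := g) (u := u) (v := v) χ₃ χ₂ hp2 hp3 hn hr ha hb hA2 hA3 hq2 hu hq3 hv hprim2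
    hprim3 F C hF hpar hS (y % 2 ^ (a - n)) c₁ (y / 2 ^ (a - n)) (z / 2 ^ (a - n)) κ (Nat.mod_lt _ hQ₂0)
    (by
      obtain ⟨w, hw⟩ : 2 ^ n ∣ 2 ^ (a - n) := pow_dvd_pow _ (by omega)
      rw [← hyc]
      show (y % 2 ^ (a - n)) * c₁ ≡ y * c₁ [MOD 2 ^ n]
      exact ((Nat.mod_modEq y (2 ^ (a - n))).of_dvd ⟨w, hw⟩).mul_right _)
    (by
      rw [Nat.div_lt_iff_lt_mul hQ₂0, mul_comm]
      exact hy)
    (by
      rw [Nat.div_lt_iff_lt_mul hQ₂0, mul_comm]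
      exact hz)
    (by rw [hy']; exact hy3)
    (by rw [hy', hz']; exact hsum)
  have hN : 3 ^ b * 2 ^ a = 2 ^ (a - n) * 3 ^ (b - r) * (3 ^ r * 2 ^ n) := by
    have e1 : 2 ^ a = 2 ^ (a - n) * 2 ^ n := by rw [← pow_add, Nat.sub_add_cancel (by omega)]
    have e2 : 3 ^ b = 3 ^ (b - r) * 3 ^ r := by rw [← pow_add, Nat.sub_add_cancel (by omega)]
    rw [e1, e2]
    ring
  have hNk : ((3 ^ b * 2 ^ a : ℕ) : k) ≠ 0 := by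
    push_cast
    exact mul_ne_zero (pow_ne_zero _ (by exact_mod_cast h3k)) (pow_ne_zero _ (by exact_mod_cast h2k))
  have hLk : ((3 ^ r * 2 ^ n : ℕ) : k) ≠ 0 := by
    push_cast
    exact mul_ne_zero (pow_ne_zero _ (by exact_mod_cast h3k)) (pow_ne_zero _ (by exact_mod_cast h2k))
  have hfev : ∀ x : k, (F.map (Int.castRingHom k)).eval x = Polynomial.aeval x F := fun x => by
    rw [eval_map, aeval_def]
    rfl
  have harg : ∀ (x s : ℕ), x % 2 ^ (a - n) = y % 2 ^ (a - n) →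
      ((y % 2 ^ (a - n) + 2 ^ (a - n) * (x / 2 ^ (a - n) + 3 ^ (b - r) * s) : ℕ) : k) / ((3 ^ b * 2 ^ a : ℕ) : k) =
      (x : k) / ((3 ^ b * 2 ^ a : ℕ) : k) + (s : k) / ((3 ^ r * 2 ^ n : ℕ) : k) := by
    intro x s hx
    have e1 : y % 2 ^ (a - n) + 2 ^ (a - n) * (x / 2 ^ (a - n) + 3 ^ (b - r) * s) =
        x + 2 ^ (a - n) * 3 ^ (b - r) * s := by
      have e2 : y % 2 ^ (a - n) + 2 ^ (a - n) * (x / 2 ^ (a - n)) = x := by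
        rw [← hx]
        exact Nat.mod_add_div _ _
      calc y % 2 ^ (a - n) + 2 ^ (a - n) * (x / 2 ^ (a - n) + 3 ^ (b - r) * s) =
          (y % 2 ^ (a - n) + 2 ^ (a - n) * (x / 2 ^ (a - n))) + 2 ^ (a - n) * 3 ^ (b - r) * s := by ring
        _ = _ := by rw [e2]
    rw [e1, Nat.cast_add, add_div]
    congr 1
    rw [div_eq_div_iff hNk hLk]
    rw [hN]
    push_cast
    ring
  rw [tw_eval, tw_eval]
  simp only [hfev]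
  rw [← h1]
  congr 2
  · refine Finset.sum_congr rfl fun s _ => ?_
    rw [harg y s rfl]
  · refine Finset.sum_congr rfl fun s _ => ?_
    rw [harg z s hyz.symm]

/-- The sums do not vanish if `2 ^ a` or `3 ^ b` is large. -/
theorem core_two {a b n r g u v m : ℕ} (χ₃ : MulChar (ZMod (3 ^ b)) k) (χ₂ : MulChar (ZMod (2 ^ a)) k)
    (hp2 : p ≠ 2) (hp3 : p ≠ 3) (hn : 2 ≤ n) (hr : 1 ≤ r) (ha : 2 * n + 1 ≤ a) (hb : 2 * r ≤ b)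
    (hA2 : p ^ g % 4 = 1) (hA3 : p ^ g % 3 = 1)
    (hq2 : p ^ g - 1 = 2 ^ n * u) (hu : u.Coprime 2) (hq3 : p ^ g - 1 = 3 ^ r * v) (hv : v.Coprime 3)
    (hprim2 : χ₂ ((1 + 2 ^ (a - 1) : ℕ) : ZMod (2 ^ a)) ≠ 1)
    (hprim3 : χ₃ ((1 + 3 ^ (b - 1) : ℕ) : ZMod (3 ^ b)) ≠ 1)
    (F : Polynomial ℤ) (C : k)
    (hF : ∀ x : k, Polynomial.aeval (1 - x) F = (-1) ^ m * Polynomial.aeval x F + C)
    (hpar : χ₃ (-1) * χ₂ (-1) = (-1) ^ m) (hdeg : F.natDegree ≤ m) (hlead : ((F.coeff m : ℤ) : k) ≠ 0)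
    (hm1 : 1 ≤ m) (hmp : m < p)
    (hsize : 2 ^ n * 3 ^ r * (3 ^ r * (m - 1) + 2) ≤ 2 ^ (a - n) ∨
      2 ^ n * 3 ^ r * (2 ^ (n - 1) * (m - 1) + 2) ≤ 3 ^ (b - r)) :
    ∑ x ∈ range (3 ^ b * 2 ^ a), χ₃ (x : ZMod (3 ^ b)) * χ₂ (x : ZMod (2 ^ a)) *
      Polynomial.aeval ((x : k) / (3 ^ b * 2 ^ a : ℕ)) F ≠ 0 := by
  intro hS
  have hp := (Fact.out : p.Prime)
  have h2k : (2 : k) ≠ 0 := by
    have : ((2 : ℕ) : k) ≠ 0 := fun h => hp2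
      ((Nat.prime_dvd_prime_iff_eq hp Nat.prime_two).1 ((CharP.cast_eq_zero_iff k p 2).1 h))
    exact_mod_cast this
  have h3k : (3 : k) ≠ 0 := by
    have : ((3 : ℕ) : k) ≠ 0 := fun h => hp3
      ((Nat.prime_dvd_prime_iff_eq hp Nat.prime_three).1 ((CharP.cast_eq_zero_iff k p 3).1 h))
    exact_mod_cast this
  have hrel := rel_yz (p := p) (g := g) (u := u) (v := v) χ₃ χ₂ hp2 hp3 hn hr (by omega) hb hA2 hA3 hq2 hu hq3 hv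
    hprim2 hprim3 F C hF hpar hS 1
  rw [pow_one] at hrel
  set ξ := χ₂ ((1 + 2 ^ (a - n) : ℕ) : ZMod (2 ^ a)) with hξ
  set η := χ₃ ((1 + 3 ^ (b - r) : ℕ) : ZMod (3 ^ b)) with hη
  set f := F.map (Int.castRingHom k) with hf
  have hξn : ξ ^ 2 ^ n = 1 := psi_M_pow χ₂ (by omega)
  have hηr : η ^ 3 ^ r = 1 := psi_M_pow χ₃ (by omega)
  have hξn1 : ξ ^ 2 ^ (n - 1) ≠ 1 := by
    rw [hξ, psi_M_pow' χ₂ (by omega) (by omega)]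
    exact hprim2
  have hη1 : η ≠ 1 := by
    intro h
    apply hprim3
    rw [← psi_M_pow' χ₃ (n := r) (by omega) (by omega), ← hη, h, one_pow]
  have hξ0 : ξ ≠ 0 := by
    intro h
    rw [h, zero_pow (by positivity)] at hξn
    exact zero_ne_one hξn
  have hη0 : η ≠ 0 := by
    intro h
    rw [h, zero_pow (by positivity)] at hηr
    exact zero_ne_one hηr
  have hη'r : η⁻¹ ^ 3 ^ r = 1 := by rw [inv_pow, hηr, inv_one]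
  have hη'1 : η⁻¹ ≠ 1 := fun h => hη1 (inv_eq_one.1 h)
  have hcop : Nat.Coprime (3 ^ r) (2 ^ n) := Nat.Coprime.pow _ _ (by norm_num)
  have hτ : ∀ x : k, x ^ 3 ^ r = 1 → x ≠ 1 → (x ^ 2 ^ (a - n) * ξ ^ 3 ^ (b - r)) ^ (3 ^ r * 2 ^ n) = 1 ∧
      x ^ 2 ^ (a - n) * ξ ^ 3 ^ (b - r) ≠ 1 := by
    intro x hx hx1
    constructor
    · have e1 : (x ^ 2 ^ (a - n)) ^ (3 ^ r * 2 ^ n) = 1 := by
        rw [← pow_mul, show 2 ^ (a - n) * (3 ^ r * 2 ^ n) = 3 ^ r * (2 ^ (a - n) * 2 ^ n) by ring, pow_mul, hx,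
          one_pow]
      have e2 : (ξ ^ 3 ^ (b - r)) ^ (3 ^ r * 2 ^ n) = 1 := by
        rw [← pow_mul, show 3 ^ (b - r) * (3 ^ r * 2 ^ n) = 2 ^ n * (3 ^ (b - r) * 3 ^ r) by ring, pow_mul, hξn,
          one_pow]
      rw [mul_pow, e1, e2, one_mul]
    · intro h
      apply hx1
      have e2 : (ξ ^ 3 ^ (b - r)) ^ 2 ^ n = 1 := by
        rw [← pow_mul, mul_comm, pow_mul, hξn, one_pow]
      have e3 : (x ^ 2 ^ (a - n)) ^ 2 ^ n = 1 := by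
        have := congrArg (· ^ 2 ^ n) h
        simpa [mul_pow, e2] using this
      rw [← pow_mul, ← pow_add] at e3
      exact pow_one_coprime e3 hx (Nat.Coprime.pow _ _ (by norm_num))
  have hfdeg : f.natDegree ≤ m := (natDegree_map_le).trans hdeg
  have hfm : f.coeff m ≠ 0 := by
    rw [hf, coeff_map]
    exact hlead
  have hLk : ((3 ^ r * 2 ^ n : ℕ) : k) ≠ 0 := by
    push_cast
    exact mul_ne_zero (pow_ne_zero _ h3k) (pow_ne_zero _ h2k)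
  have hNk : ((3 ^ b * 2 ^ a : ℕ) : k) ≠ 0 := by
    push_cast
    exact mul_ne_zero (pow_ne_zero _ h3k) (pow_ne_zero _ h2k)
  have hσ : χ₃ (-1) ≠ 0 := by
    intro h
    have : χ₃ (-1) * χ₃ (-1) = 1 := by
      rw [← map_mul]
      simp
    rw [h, mul_zero] at this
    exact zero_ne_one this
  have hA := tw_degree (m := m) f hfdeg (hτ η hηr hη1).1 (hτ η hηr hη1).2
  have hB := tw_degree (m := m) f hfdeg (hτ η⁻¹ hη'r hη'1).1 (hτ η⁻¹ hη'r hη'1).2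
  refine tw_ne_zero (p := p) (m := m) f hfdeg (hτ η⁻¹ hη'r hη'1).1 (hτ η⁻¹ hη'r hη'1).2 hfm hm1 hmp hLk ?_
  rcases hsize with hsize | hsize
  · exact type_I (p := p) _ _ hA hB hm1 hmp ξ η⁻¹ (χ₃ (-1)) _ hξ0 hη'r hη'1 hσ hNk h2k h3k (by omega) (by omega)
      hr (by omega) hsize hrel
  · exact type_II (p := p) _ _ hA hB hm1 hmp ξ η⁻¹ (χ₃ (-1)) _ (inv_ne_zero hη0) hξn hξn1 hσ hNk h2k h3k hn
      (by omega) hr (by omega) hsize hrel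

end

end Pool.Agent.J6H1.GX
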