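import Pool.Agent.J6H1.GX.Two

/-!
# The Euler factor at `p` for characters modulo `2 ^ a * 3 ^ b`
-/

set_option autoImplicit false

namespace Pool.Agent.J6H1.GX

open Finset Polynomial Pool.Agent.Y18.GX

section
variable {k : Type*} [Field k]

lemma prim_val_ne {ℓ K n x d : ℕ} (ψ : MulChar (ZMod (ℓ ^ K)) k) (hA : Adm ℓ d) (hd : d = 1 + ℓ ^ n * x)
    (hx : x.Coprime ℓ) (hnK : n + 1 ≤ K) (hK : 2 ≤ K)
    (hprim : ψ ((1 + ℓ ^ (K - 1) : ℕ) : ZMod (ℓ ^ K)) ≠ 1) : ψ (d : ZMod (ℓ ^ K)) ≠ 1 := by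
  intro h
  obtain ⟨y, hy, hyc⟩ := pow_iter hA hd hx (K - 1 - n)
  have h1 : n + (K - 1 - n) = K - 1 := by omega
  rw [h1] at hy
  have h2 : ψ ((d ^ ℓ ^ (K - 1 - n) : ℕ) : ZMod (ℓ ^ K)) = 1 := by
    rw [Nat.cast_pow, map_pow, h, one_pow]
  rw [hy, psi_one_add (n := 1) ψ (by omega)] at h2
  have h3 := psi_M_pow (n := 1) ψ (ℓ := ℓ) (K := K) (by omega)
  rw [pow_one] at h3
  exact ne_one_of_coprime hprim h3 hyc h2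

/-- `χ₃ (p) χ₂ (p) ≠ 1` if `2 ^ a` is large -/
lemma euler_a {a b n g u p : ℕ} (hp : p.Prime) (χ₃ : MulChar (ZMod (3 ^ b)) k) (χ₂ : MulChar (ZMod (2 ^ a)) k)
    (hp2 : p ≠ 2) (hA2 : p ^ g % 4 = 1) (hA3 : p ^ g % 3 = 1)
    (hq2 : p ^ g - 1 = 2 ^ n * u) (hu : u.Coprime 2) (ha : n + 1 ≤ a) (ha2 : 2 ≤ a)
    (hprim2 : χ₂ ((1 + 2 ^ (a - 1) : ℕ) : ZMod (2 ^ a)) ≠ 1) :
    χ₃ (p : ZMod (3 ^ b)) * χ₂ (p : ZMod (2 ^ a)) ≠ 1 := by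
  intro h
  have hq1 : 1 ≤ p ^ g := Nat.one_le_pow _ _ hp.pos
  have hqo : Odd (p ^ g) := (hp.odd_of_ne_two hp2).pow
  have hAdm2 : Adm 2 (p ^ g) := Or.inr ⟨rfl, hA2⟩
  have hAdm3 : Adm 3 (p ^ g) := Or.inl ⟨rfl, hA3⟩
  obtain ⟨u', hu', hu'c⟩ := two_part hq1 hqo (J := 3 ^ b) (Odd.pow (by decide)) hq2 hu
  have h3 : χ₃ (p : ZMod (3 ^ b)) ^ (g * 3 ^ b) = 1 := by
    rw [pow_mul, ← map_pow, ← map_pow]
    have hmod : ((p ^ g) ^ 3 ^ b : ℕ) ≡ 1 [MOD 3 ^ b] := by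
      have h4 : ∃ r x, p ^ g = 1 + 3 ^ r * x ∧ x.Coprime 3 ∨ p ^ g = 1 := by
        rcases Nat.eq_or_lt_of_le hq1 with h5 | h5
        · exact ⟨0, 0, Or.inr h5.symm⟩
        · obtain ⟨r, x, hx, h6⟩ := Nat.exists_eq_pow_mul_and_not_dvd (n := p ^ g - 1) (by omega) 3 (by norm_num)
          refine ⟨r, x, Or.inl ⟨by omega, ?_⟩⟩
          exact ((Nat.Prime.coprime_iff_not_dvd Nat.prime_three).2 hx).symm
      obtain ⟨r, x, h5 | h5⟩ := h4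
      · obtain ⟨y, hy, -⟩ := pow_iter hAdm3 h5.1 h5.2 b
        rw [hy]
        have h6 : 3 ^ (r + b) * y ≡ 0 [MOD 3 ^ b] :=
          Nat.modEq_zero_iff_dvd.2 (Dvd.dvd.mul_right (pow_dvd_pow _ (by omega)) _)
        simpa using (Nat.ModEq.refl 1).add h6
      · rw [h5, one_pow]
    have h4 : ((((p ^ g) ^ 3 ^ b : ℕ)) : ZMod (3 ^ b)) = ((1 : ℕ) : ZMod (3 ^ b)) :=
      (ZMod.natCast_eq_natCast_iff _ _ _).2 hmod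
    push_cast at h4
    rw [h4, map_one]
  have h2 : χ₂ (((p ^ g) ^ 3 ^ b : ℕ) : ZMod (2 ^ a)) = 1 := by
    have h5 := congrArg (· ^ (g * 3 ^ b)) h
    simp only [mul_pow, h3, one_mul, one_pow] at h5
    rw [← pow_mul, Nat.cast_pow, map_pow]
    exact h5
  refine prim_val_ne χ₂ (hAdm2.pow _) (d := (p ^ g) ^ 3 ^ b)
    (by rw [← hu', Nat.add_sub_cancel' (Nat.one_le_pow _ _ hq1)]) hu'c ha ha2 hprim2 h2

/-- `χ₃ (p) χ₂ (p) ≠ 1` if `3 ^ b` is large -/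
lemma euler_b {a b r g v p : ℕ} (hp : p.Prime) (χ₃ : MulChar (ZMod (3 ^ b)) k) (χ₂ : MulChar (ZMod (2 ^ a)) k)
    (hA2 : p ^ g % 4 = 1) (hA3 : p ^ g % 3 = 1)
    (hq3 : p ^ g - 1 = 3 ^ r * v) (hv : v.Coprime 3) (hb : r + 1 ≤ b) (hb2 : 2 ≤ b)
    (hprim3 : χ₃ ((1 + 3 ^ (b - 1) : ℕ) : ZMod (3 ^ b)) ≠ 1) :
    χ₃ (p : ZMod (3 ^ b)) * χ₂ (p : ZMod (2 ^ a)) ≠ 1 := by
  intro h
  have hq1 : 1 ≤ p ^ g := Nat.one_le_pow _ _ hp.pos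
  have hAdm2 : Adm 2 (p ^ g) := Or.inr ⟨rfl, hA2⟩
  have hAdm3 : Adm 3 (p ^ g) := Or.inl ⟨rfl, hA3⟩
  obtain ⟨v', hv', hv'c⟩ := three_part hq1 hA3 (J := 2 ^ a)
    (fun h4 => by
      have := Nat.Prime.dvd_of_dvd_pow Nat.prime_three h4
      omega) hq3 hv
  have h2 : χ₂ (p : ZMod (2 ^ a)) ^ (g * 2 ^ a) = 1 := by
    rw [pow_mul, ← map_pow, ← map_pow]
    have hmod : ((p ^ g) ^ 2 ^ a : ℕ) ≡ 1 [MOD 2 ^ a] := by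
      have h4 : ∃ r x, p ^ g = 1 + 2 ^ r * x ∧ x.Coprime 2 ∨ p ^ g = 1 := by
        rcases Nat.eq_or_lt_of_le hq1 with h5 | h5
        · exact ⟨0, 0, Or.inr h5.symm⟩
        · obtain ⟨r, x, hx, h6⟩ := Nat.exists_eq_pow_mul_and_not_dvd (n := p ^ g - 1) (by omega) 2 (by norm_num)
          refine ⟨r, x, Or.inl ⟨by omega, ?_⟩⟩
          exact ((Nat.Prime.coprime_iff_not_dvd Nat.prime_two).2 hx).symm
      obtain ⟨r, x, h5 | h5⟩ := h4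
      · obtain ⟨y, hy, -⟩ := pow_iter hAdm2 h5.1 h5.2 a
        rw [hy]
        have h6 : 2 ^ (r + a) * y ≡ 0 [MOD 2 ^ a] :=
          Nat.modEq_zero_iff_dvd.2 (Dvd.dvd.mul_right (pow_dvd_pow _ (by omega)) _)
        simpa using (Nat.ModEq.refl 1).add h6
      · rw [h5, one_pow]
    have h4 : ((((p ^ g) ^ 2 ^ a : ℕ)) : ZMod (2 ^ a)) = ((1 : ℕ) : ZMod (2 ^ a)) :=
      (ZMod.natCast_eq_natCast_iff _ _ _).2 hmod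
    push_cast at h4
    rw [h4, map_one]
  have h3 : χ₃ (((p ^ g) ^ 2 ^ a : ℕ) : ZMod (3 ^ b)) = 1 := by
    have h5 := congrArg (· ^ (g * 2 ^ a)) h
    simp only [mul_pow, h2, mul_one, one_pow] at h5
    rw [← pow_mul, Nat.cast_pow, map_pow]
    exact h5
  refine prim_val_ne χ₃ (hAdm3.pow _) (d := (p ^ g) ^ 2 ^ a)
    (by rw [← hv', Nat.add_sub_cancel' (Nat.one_le_pow _ _ hq1)]) hv'c hb hb2 hprim3 h3

end

end Pool.Agent.J6H1.GX
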