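import Pool.Agent.Y18.GX.Small

/-!
# Sums of `24`-th roots of unity in characteristic `5`
-/

set_option autoImplicit false

namespace Pool.Agent.J6H1.GX

open Finset Polynomial Pool.Agent.Y18.GX

/-- the `i`-th digit in base `25` -/
def PQ (T i : ℕ) : ℕ := T / 25 ^ i % 25

/-- the sum of the `f s` times the first coordinates -/
def sP (T : ℕ) (f e : ℕ → ℕ) : ℕ → ℕ
  | 0 => 0
  | n + 1 => sP T f e n + f n * (PQ T (e n % 24) % 5)

/-- the sum of the `f s` times the second coordinates -/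
def sQ (T : ℕ) (f e : ℕ → ℕ) : ℕ → ℕ
  | 0 => 0
  | n + 1 => sQ T f e n + f n * (PQ T (e n % 24) / 5)

/-- the tables of the powers of the roots of the four factors of `X^8 - X^4 + 1` -/
def tabs : List ℕ :=
  [1884878706031397266355347378098876, 2782820991097718743485505100538876,
    2384553260262638603377778065338876, 1827307689546898289660095944498876]

/-- values of `m! (B_m(x) - B_m)` modulo `5` -/
def GG (m j : ℕ) : ℕ :=
  if m = 1 then j else if m = 2 then 2 * j ^ 2 + 3 * j else if m = 3 then j ^ 3 + j ^ 2 + 3 * j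
    else 4 * j ^ 4 + 2 * j ^ 3 + 4 * j ^ 2

section
variable {k : Type*} [Field k] [CharP k 5] {ζ : k}

/-- `T` is a table of the powers of `ζ` -/
def Tab (T : ℕ) (ζ : k) : Prop :=
  ζ ^ 24 = 1 ∧ ∀ i < 24, ζ ^ i = ((PQ T i % 5 : ℕ) : k) + ((PQ T i / 5 : ℕ) : k) * ζ

lemma cast_mod5 (n : ℕ) : ((n % 5 : ℕ) : k) = n := by
  have h5 := five (k := k)
  have h := congrArg (Nat.cast (R := k)) (Nat.mod_add_div n 5)
  push_cast at h
  rw [h5, zero_mul, add_zero] at h
  exact h

omit [CharP k 5] in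
lemma eval_sum {T : ℕ} (hT : Tab T ζ) (f e : ℕ → ℕ) (L : ℕ) :
    ∑ s ∈ range L, ζ ^ e s * (f s : k) = (sP T f e L : k) + (sQ T f e L : k) * ζ := by
  induction L with
  | zero => simp [sP, sQ]
  | succ L ih =>
    rw [Finset.sum_range_succ, ih]
    have h1 : ζ ^ e L = ζ ^ (e L % 24) := by
      conv_lhs => rw [← Nat.div_add_mod (e L) 24, pow_add, pow_mul, hT.1, one_pow, one_mul]
    rw [h1, hT.2 _ (Nat.mod_lt _ (by norm_num))]
    simp only [sP, sQ]
    push_cast
    ring

lemma pow_four_nat (n : ℕ) (hn : (n : k) ≠ 0) : (n : k) ^ 4 = 1 := by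
  have h : ¬ 5 ∣ n := fun h => hn ((CharP.cast_eq_zero_iff k 5 n).2 h)
  rw [← cast_mod5 n]
  have h5 := five (k := k)
  have h1 : n % 5 = 1 ∨ n % 5 = 2 ∨ n % 5 = 3 ∨ n % 5 = 4 := by omega
  rcases h1 with h1 | h1 | h1 | h1 <;> rw [h1] <;> push_cast
  · ring
  · linear_combination (3 : k) * h5
  · linear_combination (16 : k) * h5
  · linear_combination (51 : k) * h5

lemma zero_coeffs (hζ : ζ ^ 8 = ζ ^ 4 - 1) {A B : ℕ} (h : (A : k) + (B : k) * ζ = 0) :
    A % 5 = 0 ∧ B % 5 = 0 := by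
  have hB : (B : k) = 0 := by
    by_contra hB
    have hζB : (B : k) * ζ = -A := by linear_combination h
    by_cases hA : (A : k) = 0
    · rw [hA, neg_zero] at hζB
      have h0 := (mul_eq_zero.1 hζB).resolve_left hB
      rw [h0] at hζ
      norm_num at hζ
    · have h1 : ((B : k) * ζ) ^ 4 = (-(A : k)) ^ 4 := by rw [hζB]
      have h2 : ζ ^ 4 = 1 := by
        linear_combination h1 - ζ ^ 4 * pow_four_nat B hB + pow_four_nat A hA
      have h3 : ζ ^ 8 = 1 := by
        rw [show ζ ^ 8 = (ζ ^ 4) ^ 2 by ring, h2, one_pow]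
      rw [h2, h3] at hζ
      norm_num at hζ
  rw [hB, zero_mul, add_zero] at h
  constructor
  · have := (CharP.cast_eq_zero_iff k 5 A).1 h
    omega
  · have := (CharP.cast_eq_zero_iff k 5 B).1 hB
    omega

/-- a table with the right recursion -/
def recOK (T u v : ℕ) : Bool :=
  PQ T 0 == 1 && (List.range 23).all fun i =>
    PQ T (i + 1) % 5 == v * (PQ T i / 5) % 5 && PQ T (i + 1) / 5 == (PQ T i % 5 + u * (PQ T i / 5)) % 5

lemma tab_of_rec {T u v : ℕ} (h : recOK T u v = true) (hζ : ζ ^ 8 = ζ ^ 4 - 1)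
    (hq : ζ ^ 2 = (u : k) * ζ + (v : k)) : Tab T ζ := by
  unfold recOK at h
  rw [Bool.and_eq_true, beq_iff_eq, List.all_eq_true] at h
  obtain ⟨h0, h1⟩ := h
  refine ⟨?_, ?_⟩
  · have h8 : ζ ^ 12 = -1 := by
      linear_combination (ζ ^ 4 + 1) * hζ
    rw [show ζ ^ 24 = (ζ ^ 12) ^ 2 by ring, h8]
    ring
  · intro i
    induction i with
    | zero =>
      intro _
      rw [h0]
      norm_num
    | succ i ih =>
      intro hi
      have h2 := h1 i (List.mem_range.2 (by omega))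
      rw [Bool.and_eq_true, beq_iff_eq, beq_iff_eq] at h2
      rw [h2.1, h2.2, pow_succ, ih (by omega), cast_mod5 (v * (PQ T i / 5)),
        cast_mod5 (PQ T i % 5 + u * (PQ T i / 5))]
      push_cast
      linear_combination ((PQ T i / 5 : ℕ) : k) * hq

lemma exists_tab (hζ : ζ ^ 8 = ζ ^ 4 - 1) : ∃ T ∈ tabs, Tab T ζ := by
  have h5 := five (k := k)
  have h : (ζ ^ 2 - (1 * ζ + 3)) * ((ζ ^ 2 - (2 * ζ + 2)) * ((ζ ^ 2 - (3 * ζ + 2)) * (ζ ^ 2 - (4 * ζ + 3)))) = 0 := by
    linear_combination hζ + (7 + 30 * ζ + 32 * ζ ^ 2 - 11 * ζ ^ 3 - 23 * ζ ^ 4 + 5 * ζ ^ 5 + 5 * ζ ^ 6 - 2 * ζ ^ 7 : k) * h5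
  rcases mul_eq_zero.1 h with h | h
  · refine ⟨1884878706031397266355347378098876, by decide, tab_of_rec (u := 1) (v := 3) (by decide +kernel) hζ ?_⟩
    push_cast
    linear_combination h
  rcases mul_eq_zero.1 h with h | h
  · refine ⟨2782820991097718743485505100538876, by decide, tab_of_rec (u := 2) (v := 2) (by decide +kernel) hζ ?_⟩
    push_cast
    linear_combination h
  rcases mul_eq_zero.1 h with h | h
  · refine ⟨2384553260262638603377778065338876, by decide, tab_of_rec (u := 3) (v := 2) (by decide +kernel) hζ ?_⟩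
    push_cast
    linear_combination h
  · refine ⟨1827307689546898289660095944498876, by decide, tab_of_rec (u := 4) (v := 3) (by decide +kernel) hζ ?_⟩
    push_cast
    linear_combination h

omit [CharP k 5] in
lemma FF_one (x : k) : aeval x (FF 1) = x := by
  have h0 : zc 1 0 = 1 := zc_eq (by norm_num) (by norm_num [Nat.factorial])
  rw [FF, Finset.sum_range_succ, Finset.sum_range_zero, h0]
  simp [aeval_monomial]

/-- the value of `FF m` at `x / N` -/
lemma FF_val {m : ℕ} (hm : m = 1 ∨ m = 2 ∨ m = 3 ∨ m = 4) (x N : ℕ) (hN : ¬ 5 ∣ N) :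
    aeval ((x : k) / (N : ℕ)) (FF m) = ((GG m (x * N ^ 3 % 5) % 5 : ℕ) : k) := by
  have h5 := five (k := k)
  have hNk : (N : k) ≠ 0 := fun h => hN ((CharP.cast_eq_zero_iff k 5 N).1 h)
  have h1 : (x : k) / (N : ℕ) = ((x * N ^ 3 % 5 : ℕ) : k) := by
    rw [cast_mod5, div_eq_iff hNk]
    push_cast
    linear_combination (-(x : k)) * pow_four_nat N hNk
  rw [h1, cast_mod5 (GG m (x * N ^ 3 % 5))]
  generalize (x * N ^ 3 % 5 : ℕ) = j
  rcases hm with rfl | rfl | rfl | rfl
  · rw [FF_one]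
    simp [GG]
  · rw [FF_two]
    simp only [GG]
    norm_num
    linear_combination (-(j : k)) * h5
  · rw [FF_three]
    simp only [GG]
    norm_num
    linear_combination ((j : k) ^ 3 - 2 * (j : k) ^ 2) * h5
  · rw [FF_four]
    simp only [GG]
    norm_num
    linear_combination (4 * (j : k) ^ 4 - 10 * (j : k) ^ 3 + 4 * (j : k) ^ 2) * h5

end

end Pool.Agent.J6H1.GX
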