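import Pool.Agent.J6H1.GX.Checks
import Pool.Agent.J6H1.GX.CoreTwo

/-!
# The sums for `p = 5` and the small conductors `2 ^ a * 3 ^ b`
-/

set_option autoImplicit false

namespace Pool.Agent.J6H1.GX

open Finset Polynomial Pool.Agent.Y18.GX

section
variable {k : Type*} [Field k]

lemma mk_zeta {ξ η : k} (hξ : ξ ^ 4 = -1) (hη : η ^ 2 + η + 1 = 0) :
    ∃ ζ : k, ζ ^ 3 = ξ ∧ ζ ^ 8 = η ∧ ζ ^ 12 = -1 ∧ ζ ^ 8 = ζ ^ 4 - 1 := by
  have hη3 : η ^ 3 = 1 := by linear_combination (η - 1) * hη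
  have hξ8 : ξ ^ 8 = 1 := by linear_combination (ξ ^ 4 - 1) * hξ
  have e3 : (ξ ^ 3 * η ^ 2) ^ 3 = ξ := by
    calc (ξ ^ 3 * η ^ 2) ^ 3 = ξ ^ 8 * ξ * (η ^ 3) ^ 2 := by ring
      _ = ξ := by rw [hξ8, hη3]; ring
  have e8 : (ξ ^ 3 * η ^ 2) ^ 8 = η := by
    calc (ξ ^ 3 * η ^ 2) ^ 8 = (ξ ^ 8) ^ 3 * ((η ^ 3) ^ 5 * η) := by ring
      _ = η := by rw [hξ8, hη3]; ring
  have e4 : (ξ ^ 3 * η ^ 2) ^ 4 = -η ^ 2 := by
    calc (ξ ^ 3 * η ^ 2) ^ 4 = (ξ ^ 4) ^ 3 * ((η ^ 3) ^ 2 * η ^ 2) := by ring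
      _ = -η ^ 2 := by rw [hξ, hη3]; ring
  refine ⟨ξ ^ 3 * η ^ 2, e3, e8, ?_, ?_⟩
  · calc (ξ ^ 3 * η ^ 2) ^ 12 = ((ξ ^ 3 * η ^ 2) ^ 3) ^ 4 := by ring
      _ = -1 := by rw [e3, hξ]
  · rw [e8, e4]
    linear_combination hη

lemma sq_one {σ : k} (h : σ * σ = 1) : σ = 1 ∨ σ = -1 := by
  have h1 : (σ - 1) * (σ + 1) = 0 := by linear_combination h
  rcases mul_eq_zero.1 h1 with h2 | h2
  · exact Or.inl (sub_eq_zero.1 h2)
  · exact Or.inr (eq_neg_of_add_eq_zero_left h2)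

lemma sign_eps {σ ζ : k} (h : σ * σ = 1) (hζ : ζ ^ 12 = -1) : ∃ ε < 2, σ = ζ ^ (12 * ε) := by
  rcases sq_one h with h1 | h1
  · exact ⟨0, by norm_num, by rw [h1]; simp⟩
  · exact ⟨1, by norm_num, by rw [h1, mul_one, hζ]⟩

lemma exists_eta [CharP k 5] [IsAlgClosed k] : ∃ η : k, η ^ 2 + η + 1 = 0 := by
  have h5 := five (k := k)
  obtain ⟨s, hs⟩ := IsAlgClosed.exists_pow_nat_eq (k := k) (-3) (n := 2) (by norm_num)
  refine ⟨2 + 3 * s, ?_⟩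
  linear_combination (9 : k) * hs + (-4 + 3 * s : k) * h5

lemma char_neg_sq {N : ℕ} (χ : MulChar (ZMod N) k) : χ (-1) * χ (-1) = 1 := by
  rw [← map_mul]
  simp

end

section
variable {k : Type*} [Field k] [CharP k 5]

lemma nz_false {T : ℕ} {ζ : k} (hT : Tab T ζ) (hζ : ζ ^ 8 = ζ ^ 4 - 1) {f e : ℕ → ℕ} {L : ℕ}
    (h : nz T f e L = true) (h0 : ∑ s ∈ range L, ζ ^ e s * (f s : k) = 0) : False := by
  rw [eval_sum hT] at h0
  obtain ⟨h1, h2⟩ := zero_coeffs hζ h0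
  unfold nz at h
  rw [h1, h2] at h
  simp at h

lemma nz2_false {T : ℕ} {ζ : k} (hT : Tab T ζ) (hζ : ζ ^ 8 = ζ ^ 4 - 1) {f e f' e' : ℕ → ℕ} {L : ℕ}
    (h : nz2 T f e f' e' L = true)
    (h0 : ∑ s ∈ range L, ζ ^ e s * (f s : k) + ∑ s ∈ range L, ζ ^ e' s * (f' s : k) = 0) : False := by
  rw [eval_sum hT, eval_sum hT] at h0
  have h3 : ((sP T f e L + sP T f' e' L : ℕ) : k) + ((sQ T f e L + sQ T f' e' L : ℕ) : k) * ζ = 0 := by
    push_cast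
    linear_combination h0
  obtain ⟨h1, h2⟩ := zero_coeffs hζ h3
  unfold nz2 at h
  rw [h1, h2] at h
  simp at h

lemma not_five (a b : ℕ) : ¬ 5 ∣ 3 ^ b * 2 ^ a := by
  intro h
  rcases (Nat.Prime.dvd_mul (by norm_num : Nat.Prime 5)).1 h with h | h
  · have := Nat.Prime.dvd_of_dvd_pow (by norm_num : Nat.Prime 5) h
    omega
  · have := Nat.Prime.dvd_of_dvd_pow (by norm_num : Nat.Prime 5) h
    omega

lemma gv_eq {a b m : ℕ} (hm1 : 1 ≤ m) (hm4 : m ≤ 4) (x : ℕ) :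
    aeval ((x : k) / (3 ^ b * 2 ^ a : ℕ)) (FF m) = (gv a b m x : k) :=
  FF_val (by omega) x _ (not_five a b)

/-- the case `a ≥ 6`, `b ≥ 2` -/
theorem region3 {a b m : ℕ} (h3 : cond3 a b m = true) (ha12 : a < 12) (hb8 : b < 8) (hm4 : m ≤ 4)
    (χ₃ : MulChar (ZMod (3 ^ b)) k) (χ₂ : MulChar (ZMod (2 ^ a)) k)
    (hprim2 : χ₂ ((1 + 2 ^ (a - 1) : ℕ) : ZMod (2 ^ a)) ≠ 1)
    (hprim3 : χ₃ ((1 + 3 ^ (b - 1) : ℕ) : ZMod (3 ^ b)) ≠ 1)
    (hpar : χ₃ (-1) * χ₂ (-1) = (-1) ^ m) :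
    ∑ x ∈ range (3 ^ b * 2 ^ a), χ₃ (x : ZMod (3 ^ b)) * χ₂ (x : ZMod (2 ^ a)) *
      Polynomial.aeval ((x : k) / (3 ^ b * 2 ^ a : ℕ)) (FF m) ≠ 0 := by
  intro hS
  have : Fact (Nat.Prime 5) := ⟨by norm_num⟩
  have hc := h3
  unfold cond3 at hc
  simp only [Bool.and_eq_true, decide_eq_true_eq] at hc
  obtain ⟨⟨⟨ha, hb⟩, hm1⟩, -⟩ := hc
  have hall := all3_ok
  unfold all3 at hall
  rw [List.all_eq_true] at hall
  have hall := hall a (List.mem_range.2 ha12)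
  rw [List.all_eq_true] at hall
  have hall := hall b (List.mem_range.2 hb8)
  rw [List.all_eq_true] at hall
  have hall := hall m (List.mem_range.2 (by omega))
  rw [h3, Bool.not_true, Bool.false_or, List.all_eq_true] at hall
  -- the roots of unity
  have hξ8 := psi_M_pow (n := 3) χ₂ (ℓ := 2) (K := a) (by omega)
  have hξ4 : χ₂ ((1 + 2 ^ (a - 3) : ℕ) : ZMod (2 ^ a)) ^ 2 ^ (3 - 1) ≠ 1 := by
    rw [psi_M_pow' χ₂ (by omega) (by omega)]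
    exact hprim2
  have hη3 := psi_M_pow (n := 1) χ₃ (ℓ := 3) (K := b) (by omega)
  have hξ : χ₂ ((1 + 2 ^ (a - 3) : ℕ) : ZMod (2 ^ a)) ^ 4 = -1 := by
    rcases sq_one (σ := χ₂ ((1 + 2 ^ (a - 3) : ℕ) : ZMod (2 ^ a)) ^ 4) (by
      rw [← pow_add]; exact hξ8) with h | h
    · exact absurd h hξ4
    · exact h
  have hη : χ₃ ((1 + 3 ^ (b - 1) : ℕ) : ZMod (3 ^ b)) ^ 2 + χ₃ ((1 + 3 ^ (b - 1) : ℕ) : ZMod (3 ^ b)) + 1 = 0 := by
    have h1 : (χ₃ ((1 + 3 ^ (b - 1) : ℕ) : ZMod (3 ^ b)) - 1) *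
        (χ₃ ((1 + 3 ^ (b - 1) : ℕ) : ZMod (3 ^ b)) ^ 2 + χ₃ ((1 + 3 ^ (b - 1) : ℕ) : ZMod (3 ^ b)) + 1) = 0 := by
      linear_combination hη3
    exact (mul_eq_zero.1 h1).resolve_left (sub_ne_zero.2 hprim3)
  obtain ⟨ζ, z3, z8, z12, hζ⟩ := mk_zeta hξ hη
  obtain ⟨T, hTm, hT⟩ := exists_tab hζ
  obtain ⟨ε, hε, hσ⟩ := sign_eps (char_neg_sq χ₃) z12
  have hall := hall T hTm
  rw [List.all_eq_true] at hall
  have hall := hall ε (List.mem_range.2 hε)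
  rw [List.any_eq_true] at hall
  obtain ⟨w, -, hw⟩ := hall
  generalize w.2.1 % 2 ^ (a - 3) = c at hw
  generalize w.2.1 / 2 ^ (a - 3) = ty at hw
  generalize w.2.2 / 2 ^ (a - 3) = tz at hw
  generalize (w.2.1 + w.2.2) / 3 ^ (b - 1) = κ at hw
  generalize w.1 = c₁ at hw
  unfold chk3 at hw
  simp only [Bool.and_eq_true, decide_eq_true_eq] at hw
  obtain ⟨⟨⟨⟨⟨⟨w1, w2⟩, w3⟩, w4⟩, w5⟩, w6⟩, w7⟩ := hw
  have key := two_rel (p := 5) (g := 2) (n := 3) (r := 1) (u := 3) (v := 8) (m := m) χ₃ χ₂ (by norm_num) (by norm_num)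
    (by norm_num) le_rfl (by omega) (by omega) (by norm_num) (by norm_num) (by norm_num) (by norm_num) (by norm_num)
    (by norm_num) hprim2 hprim3 (FF m) _ (fun x => FF_aeval_refl m x) hpar hS c c₁ ty tz κ w1 w2 w3 w4 w5 w6
  have hη16 : (χ₃ ((1 + 3 ^ (b - 1) : ℕ) : ZMod (3 ^ b)))⁻¹ = ζ ^ 16 := by
    rw [← z8]
    apply inv_eq_of_mul_eq_one_right
    rw [← pow_add]
    exact hT.1
  rw [hη16, ← z3, ← z8, hσ] at key
  refine nz2_false hT hζ w7 ?_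
  rw [← key]
  simp only [f3, gv_eq hm1 hm4, Finset.mul_sum]
  congr 1
  · refine Finset.sum_congr (by norm_num) fun s _ => ?_
    rw [← mul_assoc]
    congr 1
    ring
  · refine Finset.sum_congr (by norm_num) fun s _ => ?_
    rw [← mul_assoc]
    congr 1
    ring

omit [CharP k 5] in
/-- the values of `χ₃` for `b ≤ 1` -/
lemma chi3_val {b : ℕ} (hb : b < 2) (χ₃ : MulChar (ZMod (3 ^ b)) k) (h : b = 1 → χ₃ (-1) = -1) {ζ : k}
    (hζ : ζ ^ 12 = -1) (x : ℕ) :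
    χ₃ (x : ZMod (3 ^ b)) = if b = 1 ∧ x % 3 = 0 then 0 else ζ ^ (12 * (if x % 3 = 2 then b else 0)) := by
  have hb' : b = 0 ∨ b = 1 := by omega
  rcases hb' with rfl | rfl
  · have : (x : ZMod (3 ^ 0)) = 1 := Subsingleton.elim (α := ZMod 1) _ _
    rw [this, map_one, if_neg (by omega)]
    simp
  · have hx : (x : ZMod (3 ^ 1)) = ((x % 3 : ℕ) : ZMod (3 ^ 1)) := by
      rw [ZMod.natCast_eq_natCast_iff]
      exact (Nat.mod_modEq x 3).symm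
    have h3 : x % 3 = 0 ∨ x % 3 = 1 ∨ x % 3 = 2 := by omega
    rw [hx]
    rcases h3 with h3 | h3 | h3
    · rw [h3, if_pos ⟨rfl, rfl⟩]
      apply χ₃.map_nonunit
      decide
    · rw [h3]
      simp
    · rw [h3, if_neg (by omega), if_pos rfl, mul_one, hζ]
      have : ((2 : ℕ) : ZMod (3 ^ 1)) = -1 := by decide
      rw [this]
      exact h rfl

omit [CharP k 5] in
/-- the values of `χ₂` for `2 ≤ a ≤ 5` -/
lemma chi2_val {a ε : ℕ} (ha : 2 ≤ a) (ha5 : a < 6) (χ₂ : MulChar (ZMod (2 ^ a)) k) {ζ : k}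
    (h1 : χ₂ (-1) = ζ ^ (12 * ε)) (h2 : χ₂ 5 = ζ ^ (3 * 2 ^ (5 - a))) (x : ℕ) :
    χ₂ (x : ZMod (2 ^ a)) = if x % 2 = 0 then 0 else ζ ^ (12 * ε * s4 x + 3 * 2 ^ (5 - a) * lg x) := by
  split_ifs with hx
  · apply χ₂.map_nonunit
    intro h
    rw [ZMod.isUnit_iff_coprime] at h
    have h3 : Nat.Coprime x 2 := Nat.Coprime.coprime_dvd_right (dvd_pow_self 2 (by omega)) h
    rw [Nat.coprime_two_right, Nat.odd_iff] at h3
    omega
  · have hx' : (x : ZMod (2 ^ a)) = ((x % 32 : ℕ) : ZMod (2 ^ a)) := by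
      rw [ZMod.natCast_eq_natCast_iff]
      have h3 : x % 32 ≡ x [MOD 2 ^ 5] := Nat.mod_modEq x 32
      exact (h3.of_dvd (pow_dvd_pow 2 (by omega))).symm
    have hs : s4 x = s4 (x % 32) := by
      unfold s4
      rw [Nat.mod_mod_of_dvd x (by norm_num : 4 ∣ 32)]
    have hl : lg x = lg (x % 32) := by
      unfold lg
      rw [Nat.mod_mod_of_dvd x (by norm_num : 4 ∣ 32), Nat.mod_mod]
    have key : (x : ZMod (2 ^ a)) = (-1) ^ s4 x * 5 ^ lg x := by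
      rw [hx', hs, hl]
      have h4 : x % 32 < 32 := Nat.mod_lt _ (by norm_num)
      have h5 : (x % 32) % 2 = 1 := by omega
      generalize x % 32 = y at h4 h5
      have ha' : a = 2 ∨ a = 3 ∨ a = 4 ∨ a = 5 := by omega
      rcases ha' with rfl | rfl | rfl | rfl <;> revert h5 <;> revert h4 <;> revert y <;> decide +kernel
    rw [key, map_mul, map_pow, map_pow, h1, h2, pow_add, ← pow_mul, ← pow_mul]

/-- the case `a ≥ 6`, `b ≤ 1` -/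
theorem region2 {a b m : ℕ} (h3 : cond2 a b m = true) (ha10 : a < 10) (hb2 : b < 2) (hm4 : m ≤ 4)
    [IsAlgClosed k]
    (χ₃ : MulChar (ZMod (3 ^ b)) k) (χ₂ : MulChar (ZMod (2 ^ a)) k)
    (hprim2 : χ₂ ((1 + 2 ^ (a - 1) : ℕ) : ZMod (2 ^ a)) ≠ 1)
    (hprim3 : b = 1 → χ₃ (-1) ≠ 1)
    (hpar : χ₃ (-1) * χ₂ (-1) = (-1) ^ m) :
    ∑ x ∈ range (3 ^ b * 2 ^ a), χ₃ (x : ZMod (3 ^ b)) * χ₂ (x : ZMod (2 ^ a)) *
      Polynomial.aeval ((x : k) / (3 ^ b * 2 ^ a : ℕ)) (FF m) ≠ 0 := by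
  intro hS
  have : Fact (Nat.Prime 5) := ⟨by norm_num⟩
  have hc := h3
  unfold cond2 at hc
  simp only [Bool.and_eq_true, decide_eq_true_eq] at hc
  obtain ⟨⟨ha, hm1⟩, -⟩ := hc
  have hall := all2_ok
  unfold all2 at hall
  rw [List.all_eq_true] at hall
  have hall := hall a (List.mem_range.2 ha10)
  rw [List.all_eq_true] at hall
  have hall := hall b (List.mem_range.2 hb2)
  rw [List.all_eq_true] at hall
  have hall := hall m (List.mem_range.2 (by omega))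
  rw [h3, Bool.not_true, Bool.false_or, List.all_eq_true] at hall
  -- the roots of unity
  have hξ8 := psi_M_pow (n := 3) χ₂ (ℓ := 2) (K := a) (by omega)
  have hξ4 : χ₂ ((1 + 2 ^ (a - 3) : ℕ) : ZMod (2 ^ a)) ^ 2 ^ (3 - 1) ≠ 1 := by
    rw [psi_M_pow' χ₂ (by omega) (by omega)]
    exact hprim2
  have hξ : χ₂ ((1 + 2 ^ (a - 3) : ℕ) : ZMod (2 ^ a)) ^ 4 = -1 := by
    rcases sq_one (σ := χ₂ ((1 + 2 ^ (a - 3) : ℕ) : ZMod (2 ^ a)) ^ 4) (by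
      rw [← pow_add]; exact hξ8) with h | h
    · exact absurd h hξ4
    · exact h
  obtain ⟨η, hη⟩ := exists_eta (k := k)
  obtain ⟨ζ, z3, z8, z12, hζ⟩ := mk_zeta hξ hη
  obtain ⟨T, hTm, hT⟩ := exists_tab hζ
  have hw := hall T hTm
  unfold chk2 at hw
  simp only [Bool.and_eq_true, decide_eq_true_eq] at hw
  obtain ⟨⟨w1, w2⟩, w3⟩ := hw
  have h3k : ((3 : ℕ) : k) ≠ 0 := ne_of_not_dvd 3 (by norm_num)
  have h2k : ((2 : ℕ) : k) ≠ 0 := ne_of_not_dvd 2 (by norm_num)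
  have hχ3 := chi3_val hb2 χ₃ (fun h => (sq_one (char_neg_sq χ₃)).resolve_left (hprim3 h)) z12
  have key := class_zero (p := 5) (ℓ := 2) (n := 3) (K := a) (N₁ := 3 ^ b) (g := 2) (m := m) (u := 3) χ₃ χ₂
    (by norm_num) (Or.inr ⟨rfl, by norm_num⟩) (by norm_num) (by omega) (by norm_num) (by norm_num) (by norm_num)
    (fun x => char_pow_eq χ₃ (by norm_num) (by
      have hb' : b = 0 ∨ b = 1 := by omega
      rcases hb' with rfl | rfl <;> decide) x) hprim2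
    (Nat.Coprime.pow_left _ (by norm_num)) (by positivity) (by push_cast; exact pow_ne_zero _ (by exact_mod_cast h3k))
    h2k (FF m) _ (fun x => FF_aeval_refl m x) hpar hS 1 w1 w2
  rw [← z3] at key
  refine nz_false hT hζ w3 ?_
  rw [← key]
  refine Finset.sum_congr rfl fun t _ => ?_
  rw [hχ3, gv_eq hm1 hm4]
  by_cases h4 : b = 1 ∧ (1 + 2 ^ (a - 3) * t) % 3 = 0
  · simp only [if_pos h4, Nat.cast_zero, mul_zero, zero_mul]
  · simp only [if_neg h4]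
    rw [pow_add, ← pow_mul]

omit [CharP k 5] in
lemma exists_xi [IsAlgClosed k] {a : ℕ} (ha : 2 ≤ a) (ha5 : a < 6) (χ₂ : MulChar (ZMod (2 ^ a)) k)
    (hprim2 : χ₂ ((1 + 2 ^ (a - 1) : ℕ) : ZMod (2 ^ a)) ≠ 1) :
    ∃ ξ : k, ξ ^ 4 = -1 ∧ χ₂ 5 = ξ ^ 2 ^ (5 - a) := by
  have ha' : a = 2 ∨ a = 3 ∨ a = 4 ∨ a = 5 := by omega
  have key : ∀ σ : k, σ ^ 2 = 1 → σ ≠ 1 → σ = -1 := fun σ h1 h2 =>
    (sq_one (by rw [← sq]; exact h1)).resolve_left h2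
  rcases ha' with rfl | rfl | rfl | rfl
  · obtain ⟨ξ, hξ⟩ := IsAlgClosed.exists_pow_nat_eq (k := k) (-1) (n := 4) (by norm_num)
    refine ⟨ξ, hξ, ?_⟩
    have h1 : (5 : ZMod (2 ^ 2)) = 1 := by decide
    rw [h1, map_one]
    linear_combination (1 - ξ ^ 4) * hξ
  · obtain ⟨ξ, hξ⟩ := IsAlgClosed.exists_pow_nat_eq (k := k) (-1) (n := 4) (by norm_num)
    refine ⟨ξ, hξ, ?_⟩
    have h1 : ((1 + 2 ^ (3 - 1) : ℕ) : ZMod (2 ^ 3)) = 5 := by decide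
    rw [h1] at hprim2
    have h2 := key (χ₂ 5) (by
      rw [← map_pow]
      have : (5 : ZMod (2 ^ 3)) ^ 2 = 1 := by decide
      rw [this, map_one]) hprim2
    rw [h2]
    linear_combination -hξ
  · obtain ⟨ξ, hξ⟩ := IsAlgClosed.exists_pow_nat_eq (k := k) (χ₂ 5) (n := 2) (by norm_num)
    have h1 : ((1 + 2 ^ (4 - 1) : ℕ) : ZMod (2 ^ 4)) = 5 ^ 2 := by decide
    rw [h1, map_pow] at hprim2
    have h2 := key (χ₂ 5 ^ 2) (by
      rw [← map_pow, ← map_pow]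
      have : ((5 : ZMod (2 ^ 4)) ^ 2) ^ 2 = 1 := by decide
      rw [this, map_one]) hprim2
    refine ⟨ξ, ?_, ?_⟩
    · rw [← h2, ← hξ]
      ring
    · rw [← hξ]
      norm_num
  · have h1 : ((1 + 2 ^ (5 - 1) : ℕ) : ZMod (2 ^ 5)) = 5 ^ 4 := by decide
    rw [h1, map_pow] at hprim2
    have h2 := key (χ₂ 5 ^ 4) (by
      rw [← map_pow, ← map_pow]
      have : ((5 : ZMod (2 ^ 5)) ^ 4) ^ 2 = 1 := by decide
      rw [this, map_one]) hprim2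
    exact ⟨χ₂ 5, h2, by norm_num⟩

/-- the case `2 ≤ a ≤ 5`, `b ≥ 2` -/
theorem region1 {a b m : ℕ} (h3 : cond1 a b m = true) (ha6 : a < 6) (hb8 : b < 8) (hm4 : m ≤ 4)
    [IsAlgClosed k]
    (χ₃ : MulChar (ZMod (3 ^ b)) k) (χ₂ : MulChar (ZMod (2 ^ a)) k)
    (hprim2 : χ₂ ((1 + 2 ^ (a - 1) : ℕ) : ZMod (2 ^ a)) ≠ 1)
    (hprim3 : χ₃ ((1 + 3 ^ (b - 1) : ℕ) : ZMod (3 ^ b)) ≠ 1)
    (hpar : χ₃ (-1) * χ₂ (-1) = (-1) ^ m) :
    ∑ x ∈ range (3 ^ b * 2 ^ a), χ₃ (x : ZMod (3 ^ b)) * χ₂ (x : ZMod (2 ^ a)) *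
      Polynomial.aeval ((x : k) / (3 ^ b * 2 ^ a : ℕ)) (FF m) ≠ 0 := by
  intro hS
  have : Fact (Nat.Prime 5) := ⟨by norm_num⟩
  have hc := h3
  unfold cond1 at hc
  simp only [Bool.and_eq_true, decide_eq_true_eq] at hc
  obtain ⟨⟨⟨⟨ha, hb⟩, hm1⟩, -⟩, -⟩ := hc
  have hall := all1_ok
  unfold all1 at hall
  rw [List.all_eq_true] at hall
  have hall := hall a (List.mem_range.2 ha6)
  rw [List.all_eq_true] at hall
  have hall := hall b (List.mem_range.2 hb8)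
  rw [List.all_eq_true] at hall
  have hall := hall m (List.mem_range.2 (by omega))
  rw [h3, Bool.not_true, Bool.false_or, List.all_eq_true] at hall
  -- the roots of unity
  have hη3 := psi_M_pow (n := 1) χ₃ (ℓ := 3) (K := b) (by omega)
  have hη : χ₃ ((1 + 3 ^ (b - 1) : ℕ) : ZMod (3 ^ b)) ^ 2 + χ₃ ((1 + 3 ^ (b - 1) : ℕ) : ZMod (3 ^ b)) + 1 = 0 := by
    have h1 : (χ₃ ((1 + 3 ^ (b - 1) : ℕ) : ZMod (3 ^ b)) - 1) *
        (χ₃ ((1 + 3 ^ (b - 1) : ℕ) : ZMod (3 ^ b)) ^ 2 + χ₃ ((1 + 3 ^ (b - 1) : ℕ) : ZMod (3 ^ b)) + 1) = 0 := by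
      linear_combination hη3
    exact (mul_eq_zero.1 h1).resolve_left (sub_ne_zero.2 hprim3)
  obtain ⟨ξ, hξ, hξ5⟩ := exists_xi ha ha6 χ₂ hprim2
  obtain ⟨ζ, z3, z8, z12, hζ⟩ := mk_zeta hξ hη
  obtain ⟨T, hTm, hT⟩ := exists_tab hζ
  obtain ⟨ε, hε, hσ⟩ := sign_eps (char_neg_sq χ₂) z12
  rw [← z3, ← pow_mul] at hξ5
  have hχ2 := chi2_val ha ha6 χ₂ hσ hξ5
  have hall := hall T hTm
  rw [List.all_eq_true] at hall
  have hall := hall ε (List.mem_range.2 hε)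
  rw [List.any_eq_true] at hall
  obtain ⟨c, -, hw⟩ := hall
  unfold chk1 at hw
  simp only [Bool.and_eq_true, decide_eq_true_eq] at hw
  obtain ⟨⟨w1, w2⟩, w3⟩ := hw
  have h3k : ((3 : ℕ) : k) ≠ 0 := ne_of_not_dvd 3 (by norm_num)
  have h2k : ((2 : ℕ) : k) ≠ 0 := ne_of_not_dvd 2 (by norm_num)
  rw [mul_comm (3 ^ b) (2 ^ a)] at hS
  have key := class_zero (p := 5) (ℓ := 3) (n := 1) (K := b) (N₁ := 2 ^ a) (g := 2) (m := m) (u := 8) χ₂ χ₃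
    (by norm_num) (Or.inl ⟨rfl, by norm_num⟩) le_rfl (by omega) (by norm_num) (by norm_num) (by norm_num)
    (fun x => by
      obtain ⟨n, hn⟩ : ∃ n : ℕ, (n : ZMod (2 ^ a)) = x := by
        have : NeZero (2 ^ a) := ⟨by positivity⟩
        exact ⟨x.val, by simp⟩
      rw [← hn, hχ2]
      split_ifs with h4
      · norm_num
      · rw [← pow_mul, show (12 * ε * s4 n + 3 * 2 ^ (5 - a) * lg n) * 5 ^ 2 =
          24 * (12 * ε * s4 n + 3 * 2 ^ (5 - a) * lg n) + (12 * ε * s4 n + 3 * 2 ^ (5 - a) * lg n) by ring,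
          pow_add, pow_mul, hT.1, one_pow, one_mul]) hprim3
    (Nat.Coprime.pow_left _ (by norm_num)) (by positivity) (by push_cast; exact pow_ne_zero _ (by exact_mod_cast h2k))
    h3k (FF m) _ (fun x => FF_aeval_refl m x) (by rw [mul_comm]; exact hpar)
    (by
      rw [← hS]
      refine Finset.sum_congr rfl fun x _ => ?_
      ring) c w1 w2
  rw [mul_comm (2 ^ a) (3 ^ b), ← z8] at key
  refine nz_false hT hζ w3 ?_
  rw [← key]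
  refine Finset.sum_congr rfl fun t _ => ?_
  rw [hχ2, gv_eq hm1 hm4]
  by_cases h4 : (c + 3 ^ (b - 1) * t) % 2 = 0
  · simp only [if_pos h4, Nat.cast_zero, mul_zero, zero_mul]
  · simp only [if_neg h4]
    rw [pow_add _ (12 * ε * s4 (c + 3 ^ (b - 1) * t) + 3 * 2 ^ (5 - a) * lg (c + 3 ^ (b - 1) * t)) (8 * t),
      ← pow_mul ζ 8 t]

/-- the case `2 ≤ a ≤ 5`, `b ≤ 1` -/
theorem region0 {a b m : ℕ} (ha : 2 ≤ a) (ha6 : a < 6) (hb2 : b < 2) (hm1 : 1 ≤ m) (hm4 : m ≤ 4)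
    (hex1 : ¬ (a = 4 ∧ b = 0 ∧ m = 2)) (hex2 : ¬ (a = 4 ∧ b = 1 ∧ m = 3))
    [IsAlgClosed k]
    (χ₃ : MulChar (ZMod (3 ^ b)) k) (χ₂ : MulChar (ZMod (2 ^ a)) k)
    (hprim2 : χ₂ ((1 + 2 ^ (a - 1) : ℕ) : ZMod (2 ^ a)) ≠ 1)
    (hprim3 : b = 1 → χ₃ (-1) ≠ 1)
    (hpar : χ₃ (-1) * χ₂ (-1) = (-1) ^ m) :
    ∑ x ∈ range (3 ^ b * 2 ^ a), χ₃ (x : ZMod (3 ^ b)) * χ₂ (x : ZMod (2 ^ a)) *
      Polynomial.aeval ((x : k) / (3 ^ b * 2 ^ a : ℕ)) (FF m) ≠ 0 := by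
  intro hS
  obtain ⟨η, hη⟩ := exists_eta (k := k)
  obtain ⟨ξ, hξ, hξ5⟩ := exists_xi ha ha6 χ₂ hprim2
  obtain ⟨ζ, z3, z8, z12, hζ⟩ := mk_zeta hξ hη
  obtain ⟨T, hTm, hT⟩ := exists_tab hζ
  rw [← z3, ← pow_mul] at hξ5
  have hb1 : b = 1 → χ₃ (-1) = -1 := fun h => (sq_one (char_neg_sq χ₃)).resolve_left (hprim3 h)
  have hχ3 := chi3_val hb2 χ₃ hb1 z12
  have hχ3n : χ₃ (-1) = (-1) ^ b := by
    have hb' : b = 0 ∨ b = 1 := by omega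
    rcases hb' with rfl | rfl
    · have : (-1 : ZMod (3 ^ 0)) = 1 := Subsingleton.elim (α := ZMod 1) _ _
      rw [this, map_one, pow_zero]
    · rw [hb1 rfl, pow_one]
  have hσ' : χ₂ (-1) = (-1) ^ (m + b) := by
    rw [hχ3n] at hpar
    have h1 : ((-1 : k) ^ b) * (-1) ^ b = 1 := by
      rw [← mul_pow]
      norm_num
    rw [pow_add]
    linear_combination ((-1 : k) ^ b) * hpar - χ₂ (-1) * h1
  have hσ : χ₂ (-1) = ζ ^ (12 * ((m + b) % 2)) := by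
    rw [hσ']
    rcases Nat.mod_two_eq_zero_or_one (m + b) with h | h
    · rw [h, (Nat.even_iff.2 h).neg_one_pow]
      simp
    · rw [h, (Nat.odd_iff.2 h).neg_one_pow, mul_one, z12]
  have hχ2 := chi2_val ha ha6 χ₂ hσ hξ5
  have h2par : ¬ (a = 2 ∧ (m + b) % 2 = 0) := by
    rintro ⟨rfl, h⟩
    apply hprim2
    have h1 : ((1 + 2 ^ (2 - 1) : ℕ) : ZMod (2 ^ 2)) = -1 := by decide
    rw [h1, hσ', (Nat.even_iff.2 h).neg_one_pow]
  have hcond : cond0 a b m = true := by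
    unfold cond0
    simp only [Bool.and_eq_true, Bool.not_eq_true', Bool.and_eq_false_iff, decide_eq_true_eq, decide_eq_false_iff_not]
    omega
  have hall := all0_ok
  unfold all0 at hall
  rw [List.all_eq_true] at hall
  have hall := hall a (List.mem_range.2 ha6)
  rw [List.all_eq_true] at hall
  have hall := hall b (List.mem_range.2 hb2)
  rw [List.all_eq_true] at hall
  have hall := hall m (List.mem_range.2 (by omega))
  rw [hcond, Bool.not_true, Bool.false_or, List.all_eq_true] at hall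
  have w3 := hall T hTm
  unfold chk0 at w3
  refine nz_false hT hζ w3 ?_
  rw [← hS]
  refine Finset.sum_congr rfl fun x _ => ?_
  rw [hχ3, hχ2, gv_eq hm1 hm4]
  by_cases h4 : x % 2 = 0
  · have h6 : x % 2 = 0 ∨ b = 1 ∧ x % 3 = 0 := Or.inl h4
    simp only [if_pos h4, if_pos h6, Nat.cast_zero, mul_zero, zero_mul]
  · by_cases h5 : b = 1 ∧ x % 3 = 0
    · have h6 : x % 2 = 0 ∨ b = 1 ∧ x % 3 = 0 := Or.inr h5
      simp only [if_pos h5, if_pos h6, Nat.cast_zero, mul_zero, zero_mul]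
    · simp only [if_neg h4, if_neg h5, if_neg (not_or.2 ⟨h4, h5⟩)]
      rw [← pow_add]
      congr 2
      ring

end

end Pool.Agent.J6H1.GX
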