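import Pool.Agent.Y18.GX.Red

/-!
# From sums in an algebraically closed field of characteristic `p` to the values at negative integers
-/

set_option autoImplicit false

namespace Pool.Agent.J6H1.GX

open Finset Polynomial Pool.Agent.Y18.GX

/-- a root of unity of order prime to `p` whose reduction is `1` is `1` -/
lemma eq_one_of_red {p : ℕ} (hp : p.Prime) {B : ValuationSubring ℂ} (hB : B.valuation (p : ℂ) < 1) {n : ℕ}
    (hn : ¬ p ∣ n) (z : B) (hz : z ^ n = 1) (h : IsLocalRing.residue B z = 1) : z = 1 := by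
  by_contra h1
  exact red_ne_one hp hB hn z hz h1 h

theorem unit_gen2 {p : ℕ} (hp : p.Prime) {N₁ N₂ m : ℕ} (ψ₁ : MulChar (ZMod N₁) ℂ) (ψ₂ : MulChar (ZMod N₂) ℂ)
    (hpN₁ : ¬ p ∣ N₁) (hpN₂ : ¬ p ∣ N₂) (hφ₁ : ¬ p ∣ N₁.totient) (hφ₂ : ¬ p ∣ N₂.totient)
    (hpar : ψ₁ (-1) * ψ₂ (-1) = (-1) ^ m) (hm1 : 1 ≤ m) (hmp : m < p)
    (hcore : ∀ (k : Type) [Field k] [CharP k p] [IsAlgClosed k] (χ₁ : MulChar (ZMod N₁) k) (χ₂ : MulChar (ZMod N₂) k),
      (∀ a, χ₁ a = 1 → ψ₁ a = 1) → (∀ a, χ₂ a = 1 → ψ₂ a = 1) → χ₁ (-1) * χ₂ (-1) = (-1) ^ m →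
      (∑ a ∈ range (N₁ * N₂), χ₁ (a : ZMod N₁) * χ₂ (a : ZMod N₂) *
        Polynomial.aeval ((a : k) / (N₁ * N₂ : ℕ)) (FF m) ≠ 0) ∧
      (m = 1 → χ₁ (p : ZMod N₁) * χ₂ (p : ZMod N₂) ≠ 1))
    (hsum : ∑ a ∈ range (N₁ * N₂), ψ₁ (a : ZMod N₁) * ψ₂ (a : ZMod N₂) = 0) :
    IsUnitAt p ((1 - ψ₁ (p : ZMod N₁) * ψ₂ (p : ZMod N₂) * (p : ℂ) ^ (m - 1)) *
      (((N₁ * N₂ : ℕ) : ℂ) ^ (m - 1) * ∑ a ∈ range (N₁ * N₂), ψ₁ (a : ZMod N₁) * ψ₂ (a : ZMod N₂) *
        (((Polynomial.bernoulli m).eval ((a : ℚ) / (N₁ * N₂ : ℕ)) : ℚ) : ℂ)) / m) := by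
  have : Fact p.Prime := ⟨hp⟩
  have hN0₁ : N₁ ≠ 0 := by
    rintro rfl
    exact hpN₁ (dvd_zero _)
  have hN0₂ : N₂ ≠ 0 := by
    rintro rfl
    exact hpN₂ (dvd_zero _)
  set N := N₁ * N₂ with hN
  have hpN' : ¬ p ∣ N := by
    intro h
    rcases (hp.dvd_mul).1 h with h | h
    · exact hpN₁ h
    · exact hpN₂ h
  have hN0' : N ≠ 0 := by
    intro h
    rw [h] at hpN'
    exact hpN' (dvd_zero _)
  have hpm : ¬ p ∣ m := fun h => by
    have := Nat.le_of_dvd (by omega) h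
    omega
  have hpf : ¬ p ∣ m.factorial := fun h => by
    have := (hp.dvd_factorial).1 h
    omega
  -- the sum in terms of `FF`
  have hT : ((m.factorial : ℕ) : ℂ) * ∑ a ∈ range N, ψ₁ (a : ZMod N₁) * ψ₂ (a : ZMod N₂) *
      (((Polynomial.bernoulli m).eval ((a : ℚ) / (N : ℕ)) : ℚ) : ℂ) =
      ∑ a ∈ range N, ψ₁ (a : ZMod N₁) * ψ₂ (a : ZMod N₂) * aeval ((a : ℂ) / (N : ℕ)) (FF m) := by
    have h1 : ∀ a : ℕ, aeval ((a : ℂ) / (N : ℕ)) (FF m) = ((m.factorial : ℕ) : ℂ) *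
        ((((Polynomial.bernoulli m).eval ((a : ℚ) / (N : ℕ)) : ℚ) : ℂ) - ((_root_.bernoulli m : ℚ) : ℂ)) := by
      intro a
      rw [← FF_eval]
      push_cast
      rfl
    simp only [h1]
    have h2 : ∑ a ∈ range N, ψ₁ (a : ZMod N₁) * ψ₂ (a : ZMod N₂) * (((m.factorial : ℕ) : ℂ) *
        ((((Polynomial.bernoulli m).eval ((a : ℚ) / (N : ℕ)) : ℚ) : ℂ) - ((_root_.bernoulli m : ℚ) : ℂ))) =
        ((m.factorial : ℕ) : ℂ) * ∑ a ∈ range N, ψ₁ (a : ZMod N₁) * ψ₂ (a : ZMod N₂) *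
      (((Polynomial.bernoulli m).eval ((a : ℚ) / (N : ℕ)) : ℚ) : ℂ) -
      ((m.factorial : ℕ) : ℂ) * ((_root_.bernoulli m : ℚ) : ℂ) *
        ∑ a ∈ range N, ψ₁ (a : ZMod N₁) * ψ₂ (a : ZMod N₂) := by
      rw [Finset.mul_sum, Finset.mul_sum, ← Finset.sum_sub_distrib]
      refine Finset.sum_congr rfl fun a _ => ?_
      ring
    rw [h2, hsum, mul_zero, sub_zero]
  set S := ∑ a ∈ range N, ψ₁ (a : ZMod N₁) * ψ₂ (a : ZMod N₂) *
      (((Polynomial.bernoulli m).eval ((a : ℚ) / (N : ℕ)) : ℚ) : ℂ) with hS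
  set T := ∑ a ∈ range N, ψ₁ (a : ZMod N₁) * ψ₂ (a : ZMod N₂) * aeval ((a : ℂ) / (N : ℕ)) (FF m) with hTd
  set E := 1 - ψ₁ (p : ZMod N₁) * ψ₂ (p : ZMod N₂) * (p : ℂ) ^ (m - 1) with hE
  -- the valuations
  have hval : ∀ B : ValuationSubring ℂ, B.valuation (p : ℂ) < 1 → B.valuation T = 1 ∧ B.valuation E = 1 := by
    intro B hB
    have hch := charP_res B hp hB
    have hm1' : ∀ a, ψ₁ a ∈ B := char_mem B hN0₁ ψ₁
    have hm2' : ∀ a, ψ₂ a ∈ B := char_mem B hN0₂ ψ₂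
    set χ₁ := liftChar B ψ₁ hm1' with hχ₁
    set χ₂ := liftChar B ψ₂ hm2' with hχ₂
    have hchk : CharP (AlgebraicClosure (IsLocalRing.ResidueField B)) p :=
      charP_of_injective_algebraMap (algebraMap (IsLocalRing.ResidueField B)
        (AlgebraicClosure (IsLocalRing.ResidueField B))).injective p
    set ρ : B →+* AlgebraicClosure (IsLocalRing.ResidueField B) :=
      (algebraMap (IsLocalRing.ResidueField B) (AlgebraicClosure (IsLocalRing.ResidueField B))).comp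
        (IsLocalRing.residue B) with hρ
    have hρ0 : ∀ x : B, ρ x ≠ 0 → IsLocalRing.residue B x ≠ 0 := by
      intro x hx h
      apply hx
      rw [hρ, RingHom.comp_apply, h, map_zero]
    have hρ1 : ∀ x : B, ρ x = 1 → IsLocalRing.residue B x = 1 := by
      intro x hx
      apply (algebraMap (IsLocalRing.ResidueField B) (AlgebraicClosure (IsLocalRing.ResidueField B))).injective
      rw [map_one]
      exact hx
    have hck1 : ∀ a, (χ₁.ringHomComp ρ) a = ρ (χ₁ a) := fun a => rfl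
    have hck2 : ∀ a, (χ₂.ringHomComp ρ) a = ρ (χ₂ a) := fun a => rfl
    have hc1 : ∀ a, ((χ₁ a : B) : ℂ) = ψ₁ a := fun a => rfl
    have hc2 : ∀ a, ((χ₂ a : B) : ℂ) = ψ₂ a := fun a => rfl
    have hnk : ∀ n : ℕ, ¬ p ∣ n → ((n : ℕ) : AlgebraicClosure (IsLocalRing.ResidueField B)) ≠ 0 := fun n hn h =>
      hn ((CharP.cast_eq_zero_iff (AlgebraicClosure (IsLocalRing.ResidueField B)) p n).1 h)
    -- properties of the reductions
    have hone : ∀ (M : ℕ) (hM : M ≠ 0) (hφ : ¬ p ∣ M.totient) (ψ : MulChar (ZMod M) ℂ) (hψ : ∀ a, ψ a ∈ B)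
        (a : ZMod M), ρ (liftChar B ψ hψ a) = 1 → ψ a = 1 := by
      intro M hM hφ ψ hψ a h
      have hu : IsUnit a := by
        by_contra hu
        rw [MulChar.map_nonunit _ hu, map_zero] at h
        exact zero_ne_one h
      obtain ⟨U, rfl⟩ := hu
      have h1 : (liftChar B ψ hψ (U : ZMod M)) ^ M.totient = 1 := by
        rw [← map_pow, ← Units.val_pow_eq_pow_val, ZMod.pow_totient, Units.val_one, map_one]
      have h2 := eq_one_of_red hp hB hφ _ h1 (hρ1 _ h)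
      exact congrArg Subtype.val h2
    have h1' : ∀ a, (χ₁.ringHomComp ρ) a = 1 → ψ₁ a = 1 := fun a h => hone N₁ hN0₁ hφ₁ ψ₁ hm1' a h
    have h2' : ∀ a, (χ₂.ringHomComp ρ) a = 1 → ψ₂ a = 1 := fun a h => hone N₂ hN0₂ hφ₂ ψ₂ hm2' a h
    have hpar' : (χ₁.ringHomComp ρ) (-1) * (χ₂.ringHomComp ρ) (-1) = (-1) ^ m := by
      have h1 : χ₁ (-1) * χ₂ (-1) = (-1) ^ m := by
        apply Subtype.ext
        push_cast
        rw [hc1, hc2]
        exact hpar
      rw [hck1, hck2, ← map_mul, h1, map_pow, map_neg, map_one]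
    constructor
    · -- `T`
      have hNB : IsUnit (N : B) := by
        rw [← IsLocalRing.residue_ne_zero_iff_isUnit]
        apply hρ0
        rw [map_natCast]
        exact hnk N hpN'
      obtain ⟨ν, hν⟩ := hNB.exists_right_inv
      have hνC : ∀ a : ℕ, (((a : B) * ν : B) : ℂ) = (a : ℂ) / (N : ℕ) := by
        intro a
        have h1 : (N : ℂ) * (ν : ℂ) = 1 := by
          have := congrArg (Subtype.val) hν
          push_cast at this
          exact this
        have h2 : (N : ℂ) ≠ 0 := by exact_mod_cast hN0'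
        push_cast
        field_simp
        linear_combination (a : ℂ) * h1
      have hνk : ∀ a : ℕ, ρ ((a : B) * ν) = (a : AlgebraicClosure (IsLocalRing.ResidueField B)) / (N : ℕ) := by
        intro a
        have h1 : (N : AlgebraicClosure (IsLocalRing.ResidueField B)) * ρ ν = 1 := by
          have := congrArg ρ hν
          rwa [map_mul, map_natCast, map_one] at this
        have h2 := hnk N hpN'
        rw [map_mul, map_natCast]
        field_simp
        linear_combination (a : AlgebraicClosure (IsLocalRing.ResidueField B)) * h1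
      set TB : B := ∑ a ∈ range N, χ₁ (a : ZMod N₁) * χ₂ (a : ZMod N₂) * aeval ((a : B) * ν) (FF m)
        with hTB
      have e1 : (TB : ℂ) = T := by
        have h1 : (TB : ℂ) = B.subtype TB := rfl
        rw [h1, hTB, hTd, map_sum]
        refine Finset.sum_congr rfl fun a _ => ?_
        rw [map_mul, map_mul]
        have h2 : B.subtype (aeval ((a : B) * ν) (FF m)) = aeval (B.subtype ((a : B) * ν)) (FF m) :=
          (Polynomial.aeval_algHom_apply B.subtype.toIntAlgHom ((a : B) * ν) (FF m)).symm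
        rw [h2]
        have h4 : B.subtype ((a : B) * ν) = (a : ℂ) / (N : ℕ) := hνC a
        rw [h4]
        rfl
      have e2 : ρ TB = ∑ a ∈ range N, (χ₁.ringHomComp ρ) (a : ZMod N₁) * (χ₂.ringHomComp ρ) (a : ZMod N₂) *
          aeval ((a : AlgebraicClosure (IsLocalRing.ResidueField B)) / (N : ℕ)) (FF m) := by
        rw [hTB, map_sum]
        refine Finset.sum_congr rfl fun a _ => ?_
        rw [map_mul, map_mul]
        have h2 : ρ (aeval ((a : B) * ν) (FF m)) = aeval (ρ ((a : B) * ν)) (FF m) :=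
          (Polynomial.aeval_algHom_apply ρ.toIntAlgHom ((a : B) * ν) (FF m)).symm
        rw [h2, hνk]
        rfl
      rw [← e1]
      apply val_of_res
      apply hρ0
      rw [e2]
      exact (hcore _ (χ₁.ringHomComp ρ) (χ₂.ringHomComp ρ) h1' h2' hpar').1
    · -- the Euler factor
      have h1 : ((1 - χ₁ (p : ZMod N₁) * χ₂ (p : ZMod N₂) * (p : B) ^ (m - 1) : B) : ℂ) = E := by
        rw [hE]
        push_cast
        rfl
      rw [← h1]
      apply val_of_res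
      apply hρ0
      have hp0 : ((p : ℕ) : AlgebraicClosure (IsLocalRing.ResidueField B)) = 0 :=
        (CharP.cast_eq_zero_iff (AlgebraicClosure (IsLocalRing.ResidueField B)) p p).2 dvd_rfl
      have h2 : ρ (1 - χ₁ (p : ZMod N₁) * χ₂ (p : ZMod N₂) * (p : B) ^ (m - 1)) =
          1 - (χ₁.ringHomComp ρ) (p : ZMod N₁) * (χ₂.ringHomComp ρ) (p : ZMod N₂) *
            ((p : ℕ) : AlgebraicClosure (IsLocalRing.ResidueField B)) ^ (m - 1) := by
        rw [hck1, hck2, map_sub, map_one, map_mul ρ, map_mul ρ, map_pow, map_natCast ρ]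
      rw [h2, hp0]
      rcases Nat.lt_or_ge 1 m with h4 | h4
      · rw [zero_pow (by omega), mul_zero, sub_zero]
        exact one_ne_zero
      · have h5 : m = 1 := by omega
        subst h5
        rw [Nat.sub_self, pow_zero, mul_one]
        intro h6
        exact (hcore _ (χ₁.ringHomComp ρ) (χ₂.ringHomComp ρ) h1' h2' hpar').2 rfl (sub_eq_zero.1 h6).symm
  -- the conclusion
  have hz : E * ((N : ℂ) ^ (m - 1) * S) / m = E * (N : ℂ) ^ (m - 1) * T / (((m.factorial : ℕ) : ℂ) * m) := by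
    rw [← hT]
    have h1 : ((m.factorial : ℕ) : ℂ) ≠ 0 := by exact_mod_cast (Nat.factorial_pos m).ne'
    field_simp
  rw [hz]
  have hv1 : ∀ B : ValuationSubring ℂ, B.valuation (p : ℂ) < 1 →
      B.valuation (E * (N : ℂ) ^ (m - 1) * T / (((m.factorial : ℕ) : ℂ) * m)) = 1 := by
    intro B hB
    obtain ⟨h1, h2⟩ := hval B hB
    rw [map_div₀, map_mul, map_mul, map_mul, map_pow, h1, h2, nat_val hp hB hpN', nat_val hp hB hpm,
      nat_val hp hB hpf]
    simp
  refine unit_of_val hp ?_ hv1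
  intro h0
  obtain ⟨B, hB⟩ := exists_over hp
  have h1 := hv1 B hB
  rw [h0, map_zero] at h1
  exact zero_ne_one h1

end Pool.Agent.J6H1.GX
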