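import Pool.Agent.J6H1.GX.CoreTwo
import Pool.Agent.J6H1.GX.EulerTwo
import Pool.Agent.J6H1.GX.RedTwo
import Pool.Agent.Results.MP_c2a07f_nt.FiveAndPowersOfThree

/-!
# Primitive characters modulo `2 ^ a * 3 ^ b`: units at `p` if `2 ^ a` or `3 ^ b` is large
-/

set_option autoImplicit false

namespace Pool.Agent.J6H1.GX

open Finset Polynomial Pool.Agent.Y18.GX
open Pool.Agent.Results.MP_c2a07f_nt.FiveAndPowersOfThree (lValue lValue_eq part_one)

/-- primitivity of the first component -/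
lemma fst_prim {ℓ K Q : ℕ} (h : (ℓ ^ K).Coprime Q) (hℓ : ℓ.Prime) (hK : 2 ≤ K) (hN : Q ≠ 0)
    (ψ : DirichletCharacter ℂ (ℓ ^ K * Q)) (hc : ℓ ^ K ∣ ψ.conductor) :
    fst h ψ ((1 + ℓ ^ (K - 1) : ℕ) : ZMod (ℓ ^ K)) ≠ 1 := by
  intro h1
  have : NeZero (ℓ ^ K * Q) := ⟨mul_ne_zero (pow_ne_zero _ hℓ.ne_zero) hN⟩
  have : NeZero (ℓ ^ K) := ⟨pow_ne_zero _ hℓ.ne_zero⟩
  have hd : ℓ ^ (K - 1) * Q ∣ ℓ ^ K * Q := Nat.mul_dvd_mul_right (pow_dvd_pow _ (by omega)) _
  have h2 : ψ.FactorsThrough (ℓ ^ (K - 1) * Q) := by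
    rw [DirichletCharacter.factorsThrough_iff_ker_unitsMap hd]
    intro U hU
    rw [MonoidHom.mem_ker] at hU ⊢
    have h3 : ((U : ZMod (ℓ ^ K * Q)).cast : ZMod (ℓ ^ (K - 1) * Q)) = 1 := by
      have := congrArg Units.val hU
      simpa [ZMod.unitsMap] using this
    set a := (U : ZMod (ℓ ^ K * Q)).val with ha
    have haU : ((a : ℕ) : ZMod (ℓ ^ K * Q)) = U := by rw [ha, ZMod.natCast_val, ZMod.cast_id', id_eq]
    have h4 : a ≡ 1 [MOD ℓ ^ (K - 1) * Q] := by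
      rw [← ZMod.natCast_eq_natCast_iff, Nat.cast_one, ← h3, ha, ZMod.natCast_val]
    have h5 : ((a : ℕ) : ZMod Q) = 1 := by
      rw [← Nat.cast_one, ZMod.natCast_eq_natCast_iff]
      exact h4.of_dvd (dvd_mul_left _ _)
    have h6 : a ≡ 1 [MOD ℓ ^ (K - 1)] := h4.of_dvd (dvd_mul_right _ _)
    have ha0 : a ≠ 0 := by
      intro h0
      rw [h0] at h6
      have h7 := (Nat.modEq_iff_dvd' (Nat.zero_le 1)).1 h6
      have h8 := Nat.dvd_one.1 h7
      exact (Nat.one_lt_pow (by omega) hℓ.one_lt).ne' h8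
    obtain ⟨y, hy⟩ := (Nat.modEq_iff_dvd' (Nat.pos_of_ne_zero ha0)).1 h6.symm
    have h7 : a = 1 + ℓ ^ (K - 1) * y := by omega
    have h8 : fst h ψ (a : ZMod (ℓ ^ K)) = 1 := by
      rw [h7, psi_one_add (n := 1) (fst h ψ) (by omega), h1, one_pow]
    have h9 : ψ (U : ZMod (ℓ ^ K * Q)) = 1 := by
      rw [← haU, dec_nat h ψ, h5, h8, map_one, one_mul]
    apply Units.ext
    rw [MulChar.coe_toUnitHom, h9, Units.val_one]
  have h3 := DirichletCharacter.conductor_dvd_of_mem_conductorSet (χ := ψ) (d := ℓ ^ (K - 1) * Q) h2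
  have h4 : ℓ ^ K ∣ ℓ ^ (K - 1) := (Nat.Coprime.dvd_of_dvd_mul_right h (hc.trans h3))
  have h5 := (Nat.pow_dvd_pow_iff_le_right hℓ.one_lt).1 h4
  omega

lemma phi_two {p : ℕ} (hp : p.Prime) (hp2 : p ≠ 2) (a : ℕ) : ¬ p ∣ (2 ^ a).totient := by
  rcases Nat.eq_zero_or_pos a with h | h
  · subst h
    rw [pow_zero, Nat.totient_one, Nat.dvd_one]
    exact hp.one_lt.ne'
  · rw [Nat.totient_prime_pow Nat.prime_two h, show 2 - 1 = 1 from rfl, mul_one]
    intro h1
    exact hp2 ((Nat.prime_dvd_prime_iff_eq hp Nat.prime_two).1 (hp.dvd_of_dvd_pow h1))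

lemma phi_three {p : ℕ} (hp : p.Prime) (hp2 : p ≠ 2) (hp3 : p ≠ 3) (b : ℕ) : ¬ p ∣ (3 ^ b).totient := by
  rcases Nat.eq_zero_or_pos b with h | h
  · subst h
    rw [pow_zero, Nat.totient_one, Nat.dvd_one]
    exact hp.one_lt.ne'
  · rw [Nat.totient_prime_pow Nat.prime_three h]
    intro h1
    rcases (hp.dvd_mul).1 h1 with h1 | h1
    · exact hp3 ((Nat.prime_dvd_prime_iff_eq hp Nat.prime_three).1 (hp.dvd_of_dvd_pow h1))
    · exact hp2 ((Nat.prime_dvd_prime_iff_eq hp Nat.prime_two).1 h1)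

/-- `ψ` modulo `3 ^ b * 2 ^ a`: from the sums in characteristic `p` to the values -/
theorem unit_dec {p : ℕ} (hp : p.Prime) (hp2 : p ≠ 2) (hp3 : p ≠ 3) {a b m : ℕ} (hab : 3 ^ b * 2 ^ a ≠ 1)
    (ψ : DirichletCharacter ℂ (3 ^ b * 2 ^ a)) (hψ1 : ψ ≠ 1) (hm1 : 1 ≤ m) (hmp : m < p)
    (hpar : ψ (-1) = (-1) ^ m)
    (hcore : ∀ (k : Type) [Field k] [CharP k p] [IsAlgClosed k] (χ₁ : MulChar (ZMod (3 ^ b)) k)
      (χ₂ : MulChar (ZMod (2 ^ a)) k),
      (∀ x, χ₁ x = 1 → fst (Nat.Coprime.pow b a (by norm_num)) ψ x = 1) →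
      (∀ x, χ₂ x = 1 → snd (Nat.Coprime.pow b a (by norm_num)) ψ x = 1) → χ₁ (-1) * χ₂ (-1) = (-1) ^ m →
      (∑ x ∈ range (3 ^ b * 2 ^ a), χ₁ (x : ZMod (3 ^ b)) * χ₂ (x : ZMod (2 ^ a)) *
        Polynomial.aeval ((x : k) / (3 ^ b * 2 ^ a : ℕ)) (FF m) ≠ 0) ∧
      (m = 1 → χ₁ (p : ZMod (3 ^ b)) * χ₂ (p : ZMod (2 ^ a)) ≠ 1)) :
    Pool.Agent.Results.MP_c2a07f_nt.FiveAndPowersOfThree.IsUnitAt p (lValue p m ψ) := by
  have hcop : Nat.Coprime (3 ^ b) (2 ^ a) := Nat.Coprime.pow b a (by norm_num)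
  have hp3' : ¬ p ∣ 3 ^ b := fun h => hp3
    ((Nat.prime_dvd_prime_iff_eq hp Nat.prime_three).1 (hp.dvd_of_dvd_pow h))
  have hp2' : ¬ p ∣ 2 ^ a := fun h => hp2
    ((Nat.prime_dvd_prime_iff_eq hp Nat.prime_two).1 (hp.dvd_of_dvd_pow h))
  have hsum : ∑ x ∈ range (3 ^ b * 2 ^ a), fst hcop ψ (x : ZMod (3 ^ b)) * snd hcop ψ (x : ZMod (2 ^ a)) = 0 := by
    rw [← sum_char (by positivity) ψ hψ1]
    exact Finset.sum_congr rfl fun a _ => (dec_nat hcop ψ a).symm
  have key := unit_gen2 hp (fst hcop ψ) (snd hcop ψ) hp3' hp2' (phi_three hp hp2 hp3 b) (phi_two hp hp2 a)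
    (by rw [← dec_neg, hpar]) hm1 hmp hcore hsum
  simp only [← dec_nat] at key
  rw [lValue_eq hab]
  exact key

/-- `p ^ 2` modulo `8` and modulo `3` -/
lemma sq_mod {p : ℕ} (hp : p.Prime) (h5 : 5 ≤ p) : p ^ 2 % 8 = 1 ∧ p ^ 2 % 3 = 1 := by
  constructor
  · have h2 : p % 8 = 1 ∨ p % 8 = 3 ∨ p % 8 = 5 ∨ p % 8 = 7 := by
      obtain ⟨w, hw⟩ := hp.odd_of_ne_two (by omega)
      omega
    rw [Nat.pow_mod]
    rcases h2 with h2 | h2 | h2 | h2 <;> rw [h2]
  · have h1 : p % 3 = 1 ∨ p % 3 = 2 := by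
      have : ¬ 3 ∣ p := fun h => by
        have := (Nat.prime_dvd_prime_iff_eq Nat.prime_three hp).1 h
        omega
      omega
    rw [Nat.pow_mod]
    rcases h1 with h2 | h2 <;> rw [h2]

theorem gen_aux {p : ℕ} (hp : p.Prime) (h5 : 5 ≤ p) {n r : ℕ}
    (hn : 2 ^ n ∣ p ^ 2 - 1) (hn' : ¬ 2 ^ (n + 1) ∣ p ^ 2 - 1)
    (hr : 3 ^ r ∣ p ^ 2 - 1) (hr' : ¬ 3 ^ (r + 1) ∣ p ^ 2 - 1) {a b m : ℕ} (hm1 : 1 ≤ m) (hmp : m ≤ p - 1)
    (hsize : (p - 1) * 4 ^ n * 9 ^ r ≤ 2 ^ a ∨ (p - 1) * 4 ^ n * 9 ^ r ≤ 3 ^ b)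
    (N : ℕ) (hN : N = 3 ^ b * 2 ^ a)
    (ψ : DirichletCharacter ℂ N) (hprim : ψ.conductor = N) (hpar : ψ (-1) = (-1) ^ m) :
    Pool.Agent.Results.MP_c2a07f_nt.FiveAndPowersOfThree.IsUnitAt p (lValue p m ψ) := by
  obtain ⟨h8, h3⟩ := sq_mod hp h5
  have hq1 : 1 ≤ p ^ 2 := Nat.one_le_pow _ _ hp.pos
  have hqo : Odd (p ^ 2) := (hp.odd_of_ne_two (by omega)).pow
  have hn3 : 3 ≤ n := by
    by_contra hcon
    exact hn' ((pow_dvd_pow 2 (show n + 1 ≤ 3 by omega)).trans (by omega))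
  have hr1 : 1 ≤ r := by
    by_contra hcon
    have : r = 0 := by omega
    subst this
    apply hr'
    rw [zero_add, pow_one]
    omega
  obtain ⟨u, hu⟩ := hn
  have huc : u.Coprime 2 := by
    rw [Nat.coprime_comm, Nat.Prime.coprime_iff_not_dvd Nat.prime_two]
    rintro ⟨w, hw⟩
    apply hn'
    rw [hu, hw, pow_succ, ← mul_assoc]
    exact dvd_mul_right _ _
  obtain ⟨v, hv⟩ := hr
  have hvc : v.Coprime 3 := by
    rw [Nat.coprime_comm, Nat.Prime.coprime_iff_not_dvd Nat.prime_three]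
    rintro ⟨w, hw⟩
    apply hr'
    rw [hv, hw, pow_succ, ← mul_assoc]
    exact dvd_mul_right _ _
  have h4n : 4 ^ n = 2 ^ n * 2 ^ n := by
    rw [← mul_pow]
    norm_num
  have h9r : 9 ^ r = 3 ^ r * 3 ^ r := by
    rw [← mul_pow]
    norm_num
  have h2n1 : 1 ≤ 2 ^ n := Nat.one_le_pow _ _ (by norm_num)
  have h3r1 : 3 ≤ 3 ^ r := by
    calc 3 = 3 ^ 1 := by norm_num
      _ ≤ 3 ^ r := Nat.pow_le_pow_right (by norm_num) hr1
  -- the main case
  have main : ∀ (_ : 2 * n + 1 ≤ a) (_ : 2 * r ≤ b)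
      (_ : 2 ^ n * 3 ^ r * (3 ^ r * (m - 1) + 2) ≤ 2 ^ (a - n) ∨
        2 ^ n * 3 ^ r * (2 ^ (n - 1) * (m - 1) + 2) ≤ 3 ^ (b - r)),
      Pool.Agent.Results.MP_c2a07f_nt.FiveAndPowersOfThree.IsUnitAt p (lValue p m ψ) := by
    intro ha hb hs
    subst hN
    have hab : 3 ^ b * 2 ^ a ≠ 1 := by
      intro h
      have h6 : 2 ^ a = 1 := Nat.dvd_one.1 (h ▸ dvd_mul_left (2 ^ a) (3 ^ b))
      exact (Nat.one_lt_pow (by omega) (by norm_num)).ne' h6
    have hψ1 : ψ ≠ 1 := by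
      have : NeZero (3 ^ b * 2 ^ a) := ⟨by positivity⟩
      intro h
      rw [h, DirichletCharacter.conductor_one] at hprim
      exact hab hprim.symm
    have hcop : Nat.Coprime (3 ^ b) (2 ^ a) := Nat.Coprime.pow b a (by norm_num)
    have hp1 := fst_prim hcop Nat.prime_three (by omega) (by positivity) ψ (by rw [hprim]; exact dvd_mul_right _ _)
    have hp2 := snd_prim hcop Nat.prime_two (by omega) (by positivity) ψ (by rw [hprim]; exact dvd_mul_left _ _)
    refine unit_dec hp (by omega) (by omega) hab ψ hψ1 hm1 (by omega) hpar ?_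
    intro k _ _ _ χ₁ χ₂ h1 h2 h4
    have : Fact p.Prime := ⟨hp⟩
    have hpf : ¬ p ∣ m.factorial := fun h => by
      have := (hp.dvd_factorial).1 h
      omega
    have hprim2 : χ₂ ((1 + 2 ^ (a - 1) : ℕ) : ZMod (2 ^ a)) ≠ 1 := fun h => hp2 (h2 _ h)
    have hprim3 : χ₁ ((1 + 3 ^ (b - 1) : ℕ) : ZMod (3 ^ b)) ≠ 1 := fun h => hp1 (h1 _ h)
    refine ⟨core_two (p := p) (g := 2) (n := n) (r := r) (u := u) (v := v) χ₁ χ₂ (by omega) (by omega)
      (by omega) hr1 ha hb (by omega) h3 hu huc hv hvc hprim2 hprim3 (FF m) _ (fun x => FF_aeval_refl m x) h4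
      (FF_natDegree m) (by
        rw [FF_coeff m hm1]
        have h6 : ((m.factorial : ℕ) : k) ≠ 0 := fun h => hpf ((CharP.cast_eq_zero_iff k p _).1 h)
        push_cast
        exact h6) hm1 (by omega) hs, fun _ => ?_⟩
    exact euler_a hp χ₁ χ₂ (by omega) (by omega) h3 hu huc (by omega) (by omega) hprim2
  rcases hsize with hsize | hsize
  · -- `2 ^ a` is large
    have ha : 2 * n + 1 ≤ a := by
      have h6 : 2 ^ (2 * n) < 2 ^ a := by
        calc 2 ^ (2 * n) = 4 ^ n := by rw [pow_mul]; norm_num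
          _ < 2 * 4 ^ n * 1 := by
            have : 0 < 4 ^ n := by positivity
            omega
          _ ≤ (p - 1) * 4 ^ n * 9 ^ r := Nat.mul_le_mul (Nat.mul_le_mul_right _ (by omega))
              (Nat.one_le_pow _ _ (by norm_num))
          _ ≤ 2 ^ a := hsize
      have := (Nat.pow_lt_pow_iff_right (by norm_num : 1 < 2)).1 h6
      omega
    rcases Nat.lt_or_ge b (2 * r) with hb | hb
    · -- `3 ^ b` is small
      subst hN
      obtain ⟨u', hu', hu'c⟩ := two_part hq1 hqo (J := 3 ^ b) (Odd.pow (by decide)) hu huc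
      rw [← pow_mul] at hu'
      refine part_one hp h5 (Or.inl rfl) (N₁ := 3 ^ b) (g := 2 * 3 ^ b) (n := n)
        (Nat.Coprime.pow_left _ (by norm_num)) (fun h => ?_) (even_two_mul _) ?_ ?_ ?_ hm1 hmp ?_ ψ
        (by rw [hprim]; exact dvd_mul_left _ _) hpar
      · have := (Nat.prime_dvd_prime_iff_eq hp Nat.prime_three).1 (hp.dvd_of_dvd_pow h)
        omega
      · rcases Nat.eq_zero_or_pos b with h | h
        · subst h
          rw [pow_zero, Nat.totient_one]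
          exact one_dvd _
        · rw [Nat.totient_prime_pow Nat.prime_three h]
          refine Nat.Coprime.mul_dvd_of_dvd_of_dvd (Nat.Coprime.pow_left _ (by norm_num)) ?_ ?_
          · obtain ⟨y, hy, -⟩ := pow_iter (r := r) (Or.inl ⟨rfl, h3⟩ : Adm 3 (p ^ 2))
              (by omega : p ^ 2 = 1 + 3 ^ r * v) hvc b
            rw [pow_mul, hy]
            rw [Nat.add_sub_cancel_left]
            exact (pow_dvd_pow _ (by omega)).mul_right _
          · rw [hu']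
            exact (dvd_pow_self 2 (by omega)).mul_right _
      · rw [hu']
        exact dvd_mul_right _ _
      · rw [hu', pow_succ]
        intro h
        have h6 : 2 ∣ u' := Nat.dvd_of_mul_dvd_mul_left (by positivity) h
        rw [Nat.coprime_comm, Nat.Prime.coprime_iff_not_dvd Nat.prime_two] at hu'c
        exact hu'c h6
      · calc m * 3 ^ b * 2 ^ (2 * n) ≤ (p - 1) * 9 ^ r * 4 ^ n := by
              refine Nat.mul_le_mul (Nat.mul_le_mul hmp ?_) ?_
              · calc 3 ^ b ≤ 3 ^ (2 * r) := Nat.pow_le_pow_right (by norm_num) (by omega)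
                  _ = 9 ^ r := by rw [pow_mul]; norm_num
              · rw [pow_mul]
                norm_num
          _ = (p - 1) * 4 ^ n * 9 ^ r := by ring
          _ ≤ 2 ^ a := hsize
    · refine main ha hb (Or.inl ?_)
      have e2 : 2 ^ (a - n) * 2 ^ n = 2 ^ a := by rw [← pow_add, Nat.sub_add_cancel (by omega)]
      have h6 : 2 ^ n * 3 ^ r * (3 ^ r * (m - 1) + 2) * 2 ^ n ≤ 2 ^ (a - n) * 2 ^ n := by
        rw [e2]
        calc 2 ^ n * 3 ^ r * (3 ^ r * (m - 1) + 2) * 2 ^ n ≤ 2 ^ n * 3 ^ r * (3 ^ r * (p - 1)) * 2 ^ n := by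
              refine Nat.mul_le_mul_right _ (Nat.mul_le_mul_left _ ?_)
              calc 3 ^ r * (m - 1) + 2 ≤ 3 ^ r * (m - 1) + 3 ^ r := by omega
                _ = 3 ^ r * (m - 1 + 1) := by ring
                _ ≤ 3 ^ r * (p - 1) := Nat.mul_le_mul_left _ (by omega)
          _ = (p - 1) * 4 ^ n * 9 ^ r := by rw [h4n, h9r]; ring
          _ ≤ 2 ^ a := hsize
      exact Nat.le_of_mul_le_mul_right h6 (by positivity)
  · -- `3 ^ b` is large
    have hb : 2 * r + 1 ≤ b := by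
      have h6 : 3 ^ (2 * r) < 3 ^ b := by
        calc 3 ^ (2 * r) = 9 ^ r := by rw [pow_mul]; norm_num
          _ < 2 * 9 ^ r := by
            have : 0 < 9 ^ r := by positivity
            omega
          _ ≤ (p - 1) * 4 ^ n * 9 ^ r := by
            refine Nat.mul_le_mul_right _ ?_
            calc 2 = 2 * 1 := by norm_num
              _ ≤ (p - 1) * 4 ^ n := Nat.mul_le_mul (by omega) (Nat.one_le_pow _ _ (by norm_num))
          _ ≤ 3 ^ b := hsize
      have := (Nat.pow_lt_pow_iff_right (by norm_num : 1 < 3)).1 h6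
      omega
    rcases Nat.lt_or_ge a (2 * n + 1) with ha | ha
    · -- `2 ^ a` is small
      have hN' : N = 2 ^ a * 3 ^ b := by rw [hN, mul_comm]
      subst hN'
      obtain ⟨v', hv', hv'c⟩ := three_part hq1 h3 (J := 2 ^ a)
        (fun h4 => by
          have := Nat.Prime.dvd_of_dvd_pow Nat.prime_three h4
          omega) hv hvc
      rw [← pow_mul] at hv'
      refine part_one hp h5 (Or.inr rfl) (N₁ := 2 ^ a) (g := 2 * 2 ^ a) (n := r)
        (Nat.Coprime.pow_left _ (by norm_num)) (fun h => ?_) (even_two_mul _) ?_ ?_ ?_ hm1 hmp ?_ ψ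
        (by rw [hprim]; exact dvd_mul_left _ _) hpar
      · have := (Nat.prime_dvd_prime_iff_eq hp Nat.prime_two).1 (hp.dvd_of_dvd_pow h)
        omega
      · rcases Nat.eq_zero_or_pos a with h | h
        · subst h
          rw [pow_zero, Nat.totient_one]
          exact one_dvd _
        · rw [Nat.totient_prime_pow Nat.prime_two h, show 2 - 1 = 1 from rfl, mul_one]
          obtain ⟨y, hy, -⟩ := pow_iter (r := n) (Or.inr ⟨rfl, by omega⟩ : Adm 2 (p ^ 2))
            (by omega : p ^ 2 = 1 + 2 ^ n * u) huc a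
          rw [pow_mul, hy]
          rw [Nat.add_sub_cancel_left]
          exact (pow_dvd_pow _ (by omega)).mul_right _
      · rw [hv']
        exact dvd_mul_right _ _
      · rw [hv', pow_succ]
        intro h
        have h6 : 3 ∣ v' := Nat.dvd_of_mul_dvd_mul_left (by positivity) h
        rw [Nat.coprime_comm, Nat.Prime.coprime_iff_not_dvd Nat.prime_three] at hv'c
        exact hv'c h6
      · calc m * 2 ^ a * 3 ^ (2 * r) ≤ (p - 1) * 4 ^ n * 9 ^ r := by
              refine Nat.mul_le_mul (Nat.mul_le_mul hmp ?_) ?_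
              · calc 2 ^ a ≤ 2 ^ (2 * n) := Nat.pow_le_pow_right (by norm_num) (by omega)
                  _ = 4 ^ n := by rw [pow_mul]; norm_num
              · rw [pow_mul]
                norm_num
          _ ≤ 3 ^ b := hsize
    · refine main ha (by omega) (Or.inr ?_)
      have e2 : 3 ^ (b - r) * 3 ^ r = 3 ^ b := by rw [← pow_add, Nat.sub_add_cancel (by omega)]
      have h6 : 2 ^ n * 3 ^ r * (2 ^ (n - 1) * (m - 1) + 2) * 3 ^ r ≤ 3 ^ (b - r) * 3 ^ r := by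
        rw [e2]
        calc 2 ^ n * 3 ^ r * (2 ^ (n - 1) * (m - 1) + 2) * 3 ^ r ≤ 2 ^ n * 3 ^ r * (2 ^ n * (p - 1)) * 3 ^ r := by
              refine Nat.mul_le_mul_right _ (Nat.mul_le_mul_left _ ?_)
              have h7 : 2 ^ n = 2 * 2 ^ (n - 1) := by
                rw [← pow_succ']
                congr 1
                omega
              have h8 : 2 ≤ 2 ^ (n - 1) := by
                calc 2 = 2 ^ 1 := by norm_num
                  _ ≤ 2 ^ (n - 1) := Nat.pow_le_pow_right (by norm_num) (by omega)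
              calc 2 ^ (n - 1) * (m - 1) + 2 ≤ 2 ^ (n - 1) * (m - 1) + 2 ^ (n - 1) := by omega
                _ = 2 ^ (n - 1) * (m - 1 + 1) := by ring
                _ ≤ 2 ^ n * (p - 1) := by
                  refine Nat.mul_le_mul ?_ (by omega)
                  omega
          _ = (p - 1) * 4 ^ n * 9 ^ r := by rw [h4n, h9r]; ring
          _ ≤ 3 ^ b := hsize
      exact Nat.le_of_mul_le_mul_right h6 (by positivity)

end Pool.Agent.J6H1.GX
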