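import Pool.Agent.J6H1.GX.Five
import Pool.Agent.J6H1.GX.Gen

/-!
# `p = 5` and all primitive characters modulo `2 ^ a * 3 ^ b`
-/

set_option autoImplicit false

namespace Pool.Agent.J6H1.GX

open Finset Polynomial Pool.Agent.Y18.GX
open Pool.Agent.Results.MP_c2a07f_nt.FiveAndPowersOfThree (lValue lValue_eq part_one part_three)

/-- a character modulo `Q * 2`, `Q` odd, is not primitive -/
lemma not_prim_two {Q : ℕ} (h : Q.Coprime (2 ^ 1)) (hQ : Q ≠ 0) (ψ : DirichletCharacter ℂ (Q * 2 ^ 1)) :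
    ψ.conductor ≠ Q * 2 ^ 1 := by
  intro hc
  have : NeZero (Q * 2 ^ 1) := ⟨by positivity⟩
  have hd : Q ∣ Q * 2 ^ 1 := dvd_mul_right _ _
  have h2 : ψ.FactorsThrough Q := by
    rw [DirichletCharacter.factorsThrough_iff_ker_unitsMap hd]
    intro U hU
    rw [MonoidHom.mem_ker] at hU ⊢
    have h3 : ((U : ZMod (Q * 2 ^ 1)).cast : ZMod Q) = 1 := by
      have := congrArg Units.val hU
      simpa [ZMod.unitsMap] using this
    set a := (U : ZMod (Q * 2 ^ 1)).val with ha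
    have haU : ((a : ℕ) : ZMod (Q * 2 ^ 1)) = U := by rw [ha, ZMod.natCast_val, ZMod.cast_id', id_eq]
    have h5 : ((a : ℕ) : ZMod Q) = 1 := by
      rw [ha, ZMod.natCast_val]
      exact h3
    have h6 : ((a : ℕ) : ZMod (2 ^ 1)) = 1 := by
      have hu : IsUnit ((a : ℕ) : ZMod (Q * 2 ^ 1)) := by
        rw [haU]
        exact U.isUnit
      rw [ZMod.isUnit_iff_coprime] at hu
      have h7 : Nat.Coprime a 2 := Nat.Coprime.coprime_dvd_right (by norm_num) hu
      rw [Nat.coprime_two_right, Nat.odd_iff] at h7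
      have h8 : ((a : ℕ) : ZMod (2 ^ 1)) = ((1 : ℕ) : ZMod (2 ^ 1)) := (ZMod.natCast_eq_natCast_iff _ _ _).2 h7
      rw [h8, Nat.cast_one]
    have h9 : ψ (U : ZMod (Q * 2 ^ 1)) = 1 := by
      rw [← haU, dec_nat h ψ, h5, h6, map_one, map_one, one_mul]
    apply Units.ext
    rw [MulChar.coe_toUnitHom, h9, Units.val_one]
  have h3 := DirichletCharacter.conductor_dvd_of_mem_conductorSet (χ := ψ) (d := Q) h2
  rw [hc] at h3
  have := Nat.le_of_dvd (Nat.pos_of_ne_zero hQ) h3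
  omega

/-- primitivity of the first component modulo `3` -/
lemma fst_one {Q : ℕ} (h : (3 ^ 1).Coprime Q) (hQ : Q ≠ 0) (ψ : DirichletCharacter ℂ (3 ^ 1 * Q))
    (hc : 3 ∣ ψ.conductor) : fst h ψ (-1) ≠ 1 := by
  intro h1
  have : NeZero (3 ^ 1 * Q) := ⟨by positivity⟩
  have hd : Q ∣ 3 ^ 1 * Q := dvd_mul_left _ _
  have h2 : ψ.FactorsThrough Q := by
    rw [DirichletCharacter.factorsThrough_iff_ker_unitsMap hd]
    intro U hU
    rw [MonoidHom.mem_ker] at hU ⊢
    have h3 : ((U : ZMod (3 ^ 1 * Q)).cast : ZMod Q) = 1 := by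
      have := congrArg Units.val hU
      simpa [ZMod.unitsMap] using this
    set a := (U : ZMod (3 ^ 1 * Q)).val with ha
    have haU : ((a : ℕ) : ZMod (3 ^ 1 * Q)) = U := by rw [ha, ZMod.natCast_val, ZMod.cast_id', id_eq]
    have h5 : ((a : ℕ) : ZMod Q) = 1 := by
      rw [ha, ZMod.natCast_val]
      exact h3
    have h6 : fst h ψ ((a : ℕ) : ZMod (3 ^ 1)) = 1 := by
      have hu : IsUnit ((a : ℕ) : ZMod (3 ^ 1 * Q)) := by
        rw [haU]
        exact U.isUnit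
      rw [ZMod.isUnit_iff_coprime] at hu
      have h7 : Nat.Coprime a 3 := Nat.Coprime.coprime_dvd_right (by norm_num) hu
      have h8 : a % 3 = 1 ∨ a % 3 = 2 := by
        have : ¬ 3 ∣ a := (Nat.Prime.coprime_iff_not_dvd Nat.prime_three).1 h7.symm
        omega
      rcases h8 with h8 | h8
      · have h9 : ((a : ℕ) : ZMod (3 ^ 1)) = ((1 : ℕ) : ZMod (3 ^ 1)) := (ZMod.natCast_eq_natCast_iff _ _ _).2 h8
        rw [h9, Nat.cast_one, map_one]
      · have : ((a : ℕ) : ZMod (3 ^ 1)) = -1 := by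
          have h9 : ((a : ℕ) : ZMod (3 ^ 1)) = ((2 : ℕ) : ZMod (3 ^ 1)) := by
            rw [ZMod.natCast_eq_natCast_iff]
            exact h8
          rw [h9]
          decide
        rw [this, h1]
    have h9 : ψ (U : ZMod (3 ^ 1 * Q)) = 1 := by
      rw [← haU, dec_nat h ψ, h5, h6, map_one, one_mul]
    apply Units.ext
    rw [MulChar.coe_toUnitHom, h9, Units.val_one]
  have h3 := DirichletCharacter.conductor_dvd_of_mem_conductorSet (χ := ψ) (d := Q) h2
  have h4 : 3 ∣ Q := hc.trans h3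
  rw [pow_one, Nat.Prime.coprime_iff_not_dvd Nat.prime_three] at h
  exact h h4

/-- `a ≤ 6`, `3 ^ b` large -/
lemma large_b {a b m : ℕ} (hm1 : 1 ≤ m) (hm4 : m ≤ 4) (hs : 9 * m * 2 ^ a ≤ 3 ^ b)
    (N : ℕ) (hN : N = 3 ^ b * 2 ^ a) (ψ : DirichletCharacter ℂ N) (hprim : ψ.conductor = N)
    (hpar : ψ (-1) = (-1) ^ m) :
    Pool.Agent.Results.MP_c2a07f_nt.FiveAndPowersOfThree.IsUnitAt 5 (lValue 5 m ψ) := by
  have hN' : N = 2 ^ a * 3 ^ b := by rw [hN, mul_comm]
  subst hN'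
  obtain ⟨v', hv', hv'c⟩ := three_part (q := 5 ^ 2) (n := 1) (u := 8) (by norm_num) (by norm_num) (J := 2 ^ a)
    (fun h4 => by
      have := Nat.Prime.dvd_of_dvd_pow Nat.prime_three h4
      omega) (by norm_num) (by norm_num)
  rw [← pow_mul] at hv'
  refine part_one (p := 5) (by norm_num) le_rfl (Or.inr rfl) (N₁ := 2 ^ a) (g := 2 * 2 ^ a) (n := 1)
    (Nat.Coprime.pow_left _ (by norm_num)) (fun h => ?_) (even_two_mul _) ?_ ?_ ?_ hm1 (by omega) ?_ ψ
    (by rw [hprim]; exact dvd_mul_left _ _) hpar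
  · have := Nat.Prime.dvd_of_dvd_pow (by norm_num : Nat.Prime 5) h
    omega
  · rcases Nat.eq_zero_or_pos a with h | h
    · subst h
      rw [pow_zero, Nat.totient_one]
      exact one_dvd _
    · rw [Nat.totient_prime_pow Nat.prime_two h, show 2 - 1 = 1 from rfl, mul_one]
      obtain ⟨y, hy, -⟩ := pow_iter (ℓ := 2) (d := 5 ^ 2) (r := 3) (x := 3) (Or.inr ⟨rfl, by norm_num⟩)
        (by norm_num) (by norm_num) a
      rw [pow_mul, hy]
      rw [Nat.add_sub_cancel_left]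
      exact (pow_dvd_pow _ (by omega)).mul_right _
  · rw [hv']
    exact dvd_mul_right _ _
  · rw [hv', pow_succ]
    intro h
    have h6 : 3 ∣ v' := Nat.dvd_of_mul_dvd_mul_left (by positivity) h
    rw [Nat.coprime_comm, Nat.Prime.coprime_iff_not_dvd Nat.prime_three] at hv'c
    exact hv'c h6
  · calc m * 2 ^ a * 3 ^ (2 * 1) = 9 * m * 2 ^ a := by ring
      _ ≤ 3 ^ b := hs

/-- `b ≤ 1`, `2 ^ a` large -/
lemma large_a {a b m : ℕ} (hb : b < 2) (hm1 : 1 ≤ m) (hm4 : m ≤ 4) (hs : 64 * m * 3 ^ b ≤ 2 ^ a)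
    (N : ℕ) (hN : N = 3 ^ b * 2 ^ a) (ψ : DirichletCharacter ℂ N) (hprim : ψ.conductor = N)
    (hpar : ψ (-1) = (-1) ^ m) :
    Pool.Agent.Results.MP_c2a07f_nt.FiveAndPowersOfThree.IsUnitAt 5 (lValue 5 m ψ) := by
  subst hN
  refine part_one (p := 5) (by norm_num) le_rfl (Or.inl rfl) (N₁ := 3 ^ b) (g := 2) (n := 3)
    (Nat.Coprime.pow_left _ (by norm_num)) (fun h => ?_) even_two ?_ (by norm_num) (by norm_num) hm1 (by omega) ?_ ψ
    (by rw [hprim]; exact dvd_mul_left _ _) hpar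
  · have := Nat.Prime.dvd_of_dvd_pow (by norm_num : Nat.Prime 5) h
    omega
  · have hb' : b = 0 ∨ b = 1 := by omega
    rcases hb' with rfl | rfl <;> decide
  · calc m * 3 ^ b * 2 ^ (2 * 3) = 64 * m * 3 ^ b := by ring
      _ ≤ 2 ^ a := hs

theorem five_aux {a b m : ℕ} (hm1 : 1 ≤ m) (hm4 : m ≤ 4)
    (hex : ¬ (a = 0 ∧ b = 0 ∧ m = 4) ∧ ¬ (a = 2 ∧ b = 0 ∧ m = 1) ∧ ¬ (a = 3 ∧ b = 1 ∧ m = 1) ∧
      ¬ (a = 4 ∧ b = 0 ∧ m = 2) ∧ ¬ (a = 4 ∧ b = 1 ∧ m = 3) ∧ ¬ (a = 2 ∧ b = 2 ∧ m = 4))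
    (N : ℕ) (hN : N = 3 ^ b * 2 ^ a) (ψ : DirichletCharacter ℂ N) (hprim : ψ.conductor = N)
    (hpar : ψ (-1) = (-1) ^ m) :
    Pool.Agent.Results.MP_c2a07f_nt.FiveAndPowersOfThree.IsUnitAt 5 (lValue 5 m ψ) := by
  obtain ⟨e1, e2, e3, e4, e5, e6⟩ := hex
  have hp5 : Nat.Prime 5 := by norm_num
  -- `a = 0`
  rcases Nat.eq_zero_or_pos a with ha0 | ha0
  · subst ha0
    rw [pow_zero, mul_one] at hN
    subst hN
    exact part_three b m hm1 hm4 (by omega) ψ hprim hpar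
  -- `a = 1`
  rcases Nat.lt_or_ge a 2 with ha1 | ha2
  · have : a = 1 := by omega
    subst this
    subst hN
    exact absurd hprim (not_prim_two (Nat.Coprime.pow_left _ (by norm_num)) (by positivity) ψ)
  -- the general case
  have main : (∀ (k : Type) [Field k] [CharP k 5] [IsAlgClosed k] (χ₃ : MulChar (ZMod (3 ^ b)) k)
      (χ₂ : MulChar (ZMod (2 ^ a)) k), χ₂ ((1 + 2 ^ (a - 1) : ℕ) : ZMod (2 ^ a)) ≠ 1 →
      (2 ≤ b → χ₃ ((1 + 3 ^ (b - 1) : ℕ) : ZMod (3 ^ b)) ≠ 1) → (b = 1 → χ₃ (-1) ≠ 1) →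
      χ₃ (-1) * χ₂ (-1) = (-1) ^ m →
      ∑ x ∈ range (3 ^ b * 2 ^ a), χ₃ (x : ZMod (3 ^ b)) * χ₂ (x : ZMod (2 ^ a)) *
        Polynomial.aeval ((x : k) / (3 ^ b * 2 ^ a : ℕ)) (FF m) ≠ 0) →
      Pool.Agent.Results.MP_c2a07f_nt.FiveAndPowersOfThree.IsUnitAt 5 (lValue 5 m ψ) := by
    intro hsum
    subst hN
    have hab : 3 ^ b * 2 ^ a ≠ 1 := by
      intro h
      have h6 : 2 ^ a = 1 := Nat.dvd_one.1 (h ▸ dvd_mul_left (2 ^ a) (3 ^ b))
      exact (Nat.one_lt_pow (by omega) (by norm_num)).ne' h6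
    have hψ1 : ψ ≠ 1 := by
      have : NeZero (3 ^ b * 2 ^ a) := ⟨by positivity⟩
      intro h
      rw [h, DirichletCharacter.conductor_one] at hprim
      exact hab hprim.symm
    have hcop : Nat.Coprime (3 ^ b) (2 ^ a) := Nat.Coprime.pow b a (by norm_num)
    have hp2 := snd_prim hcop Nat.prime_two ha2 (by positivity) ψ (by rw [hprim]; exact dvd_mul_left _ _)
    have hp3 : 2 ≤ b → fst hcop ψ ((1 + 3 ^ (b - 1) : ℕ) : ZMod (3 ^ b)) ≠ 1 := fun hb =>
      fst_prim hcop Nat.prime_three hb (by positivity) ψ (by rw [hprim]; exact dvd_mul_right _ _)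
    have hp31 : b = 1 → fst hcop ψ (-1) ≠ 1 := by
      rintro rfl
      exact fst_one hcop (by positivity) ψ (by rw [hprim]; exact dvd_mul_right _ _)
    refine unit_dec hp5 (by norm_num) (by norm_num) hab ψ hψ1 hm1 (by omega) hpar ?_
    intro k _ _ _ χ₁ χ₂ h1 h2 h4
    have hprim2 : χ₂ ((1 + 2 ^ (a - 1) : ℕ) : ZMod (2 ^ a)) ≠ 1 := fun h => hp2 (h2 _ h)
    have hprim3 : 2 ≤ b → χ₁ ((1 + 3 ^ (b - 1) : ℕ) : ZMod (3 ^ b)) ≠ 1 := fun hb h => hp3 hb (h1 _ h)
    have hprim31 : b = 1 → χ₁ (-1) ≠ 1 := fun hb h => hp31 hb (h1 _ h)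
    refine ⟨hsum k χ₁ χ₂ hprim2 hprim3 hprim31 h4, fun hm => ?_⟩
    subst hm
    rcases Nat.lt_or_ge b 2 with hb | hb
    · rcases Nat.lt_or_ge a 4 with ha | ha
      · -- the small conductors
        have h2k : ((2 : ℕ) : k) ≠ 0 := ne_of_not_dvd 2 (by norm_num)
        have ha' : a = 2 ∨ a = 3 := by omega
        have hb' : b = 0 ∨ b = 1 := by omega
        rcases hb' with rfl | rfl
        · have ha3 : a = 3 := by omega
          subst ha3
          have h5 : ((5 : ℕ) : ZMod (3 ^ 0)) = 1 := Subsingleton.elim (α := ZMod 1) _ _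
          rw [h5, map_one, one_mul]
          have h6 : ((1 + 2 ^ (3 - 1) : ℕ) : ZMod (2 ^ 3)) = ((5 : ℕ) : ZMod (2 ^ 3)) := by norm_num
          rw [h6] at hprim2
          exact hprim2
        · have ha3 : a = 2 := by omega
          subst ha3
          exfalso
          have h5 := (sq_one (char_neg_sq χ₁)).resolve_left (hprim31 rfl)
          have h6 : ((1 + 2 ^ (2 - 1) : ℕ) : ZMod (2 ^ 2)) = -1 := by decide
          rw [h6] at hprim2
          have h7 := (sq_one (char_neg_sq χ₂)).resolve_left hprim2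
          rw [h5, h7] at h4
          apply h2k
          push_cast
          linear_combination h4
      · exact euler_a (g := 2) (n := 3) (u := 3) hp5 χ₁ χ₂ (by norm_num) (by norm_num) (by norm_num) (by norm_num)
          (by norm_num) ha ha2 hprim2
    · exact euler_b (g := 2) (r := 1) (v := 8) hp5 χ₁ χ₂ (by norm_num) (by norm_num) (by norm_num)
        (by norm_num) hb hb (hprim3 hb)
  rcases Nat.lt_or_ge b 2 with hb | hb
  · rcases Nat.lt_or_ge a 6 with ha | ha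
    · exact main fun k _ _ _ χ₃ χ₂ h1 h2 h3 h4 => region0 ha2 ha hb hm1 hm4 e4 e5 χ₃ χ₂ h1 h3 h4
    · rcases Nat.lt_or_ge (2 ^ a) (64 * m * 3 ^ b) with hs | hs
      · have ha10 : a < 10 := by
          have h3b : 3 ^ b ≤ 3 := by
            calc 3 ^ b ≤ 3 ^ 1 := Nat.pow_le_pow_right (by norm_num) (by omega)
              _ = 3 := by norm_num
          have h6 : 2 ^ a < 2 ^ 10 := by
            calc 2 ^ a < 64 * m * 3 ^ b := hs
              _ ≤ 64 * 4 * 3 := Nat.mul_le_mul (Nat.mul_le_mul_left _ hm4) h3b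
              _ ≤ 2 ^ 10 := by norm_num
          exact (Nat.pow_lt_pow_iff_right (by norm_num : 1 < 2)).1 h6
        refine main fun k _ _ _ χ₃ χ₂ h1 h2 h3 h4 => region2 ?_ ha10 hb hm4 χ₃ χ₂ h1 h3 h4
        unfold cond2
        simp only [Bool.and_eq_true, decide_eq_true_eq]
        exact ⟨⟨ha, hm1⟩, hs⟩
      · exact large_a hb hm1 hm4 hs N hN ψ hprim hpar
  · rcases Nat.lt_or_ge (3 ^ b) (9 * m * 2 ^ a) with hs | hs
    · rcases Nat.lt_or_ge a 6 with ha | ha
      · have hb8 : b < 8 := by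
          have h6 : 3 ^ b < 3 ^ 8 := by
            calc 3 ^ b < 9 * m * 2 ^ a := hs
              _ ≤ 9 * 4 * 2 ^ 5 := Nat.mul_le_mul (Nat.mul_le_mul_left _ hm4)
                  (Nat.pow_le_pow_right (by norm_num) (by omega))
              _ ≤ 3 ^ 8 := by norm_num
          exact (Nat.pow_lt_pow_iff_right (by norm_num : 1 < 3)).1 h6
        refine main fun k _ _ _ χ₃ χ₂ h1 h2 h3 h4 => region1 ?_ ha hb8 hm4 χ₃ χ₂ h1 (h2 hb) h4
        unfold cond1
        simp only [Bool.and_eq_true, decide_eq_true_eq, Bool.not_eq_true', Bool.and_eq_false_iff,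
          decide_eq_false_iff_not]
        refine ⟨⟨⟨⟨ha2, hb⟩, hm1⟩, hs⟩, ?_⟩
        omega
      · rcases Nat.lt_or_ge a 7 with ha7 | ha7
        · have ha6 : a = 6 := by omega
          subst ha6
          have hb8 : b < 8 := by
            have h6 : 3 ^ b < 3 ^ 8 := by
              calc 3 ^ b < 9 * m * 2 ^ 6 := hs
                _ ≤ 9 * 4 * 2 ^ 6 := Nat.mul_le_mul_right _ (Nat.mul_le_mul_left _ hm4)
                _ ≤ 3 ^ 8 := by norm_num
            exact (Nat.pow_lt_pow_iff_right (by norm_num : 1 < 3)).1 h6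
          refine main fun k _ _ _ χ₃ χ₂ h1 h2 h3 h4 => region3 ?_ (by norm_num) hb8 hm4 χ₃ χ₂ h1 (h2 hb) h4
          unfold cond3
          simp only [Bool.and_eq_true, decide_eq_true_eq, if_true]
          refine ⟨⟨⟨le_rfl, hb⟩, hm1⟩, ?_⟩
          calc 3 ^ b < 9 * m * 2 ^ 6 := hs
            _ = 576 * m := by ring
        · by_cases hsz : 2 ^ 3 * 3 ^ 1 * (3 ^ 1 * (m - 1) + 2) ≤ 2 ^ (a - 3) ∨
            2 ^ 3 * 3 ^ 1 * (2 ^ (3 - 1) * (m - 1) + 2) ≤ 3 ^ (b - 1)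
          · refine main fun k _ _ _ χ₃ χ₂ h1 h2 h3 h4 => ?_
            have : Fact (Nat.Prime 5) := ⟨hp5⟩
            refine core_two (p := 5) (g := 2) (n := 3) (r := 1) (u := 3) (v := 8) χ₃ χ₂ (by norm_num) (by norm_num)
              (by norm_num) le_rfl (by omega) (by omega) (by norm_num) (by norm_num) (by norm_num) (by norm_num)
              (by norm_num) (by norm_num) h1 (h2 hb) (FF m) _ (fun x => FF_aeval_refl m x) h4
              (FF_natDegree m) ?_ hm1 (by omega) hsz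
            rw [FF_coeff m hm1]
            have hpf : ¬ 5 ∣ m.factorial := fun h => by
              have := (hp5.dvd_factorial).1 h
              omega
            have h6 : ((m.factorial : ℕ) : k) ≠ 0 := fun h => hpf ((CharP.cast_eq_zero_iff k 5 _).1 h)
            push_cast
            exact h6
          · rw [not_or, not_le, not_le] at hsz
            have ha12 : a < 12 := by
              have h6 : 2 ^ (a - 3) < 2 ^ 9 := by
                calc 2 ^ (a - 3) < 2 ^ 3 * 3 ^ 1 * (3 ^ 1 * (m - 1) + 2) := hsz.1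
                  _ ≤ 2 ^ 3 * 3 ^ 1 * (3 ^ 1 * 3 + 2) := Nat.mul_le_mul_left _ (by omega)
                  _ ≤ 2 ^ 9 := by norm_num
              have := (Nat.pow_lt_pow_iff_right (by norm_num : 1 < 2)).1 h6
              omega
            have hb8 : b < 8 := by
              have h6 : 3 ^ (b - 1) < 3 ^ 7 := by
                calc 3 ^ (b - 1) < 2 ^ 3 * 3 ^ 1 * (2 ^ (3 - 1) * (m - 1) + 2) := hsz.2
                  _ ≤ 2 ^ 3 * 3 ^ 1 * (2 ^ (3 - 1) * 3 + 2) := Nat.mul_le_mul_left _ (by omega)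
                  _ ≤ 3 ^ 7 := by norm_num
              have := (Nat.pow_lt_pow_iff_right (by norm_num : 1 < 3)).1 h6
              omega
            refine main fun k _ _ _ χ₃ χ₂ h1 h2 h3 h4 => region3 ?_ ha12 hb8 hm4 χ₃ χ₂ h1 (h2 hb) h4
            unfold cond3
            rw [if_neg (by omega)]
            simp only [Bool.and_eq_true, decide_eq_true_eq]
            refine ⟨⟨⟨ha, hb⟩, hm1⟩, ?_, ?_⟩
            · calc 2 ^ (a - 3) < 2 ^ 3 * 3 ^ 1 * (3 ^ 1 * (m - 1) + 2) := hsz.1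
                _ = 24 * (3 * (m - 1) + 2) := by norm_num
            · calc 3 ^ (b - 1) < 2 ^ 3 * 3 ^ 1 * (2 ^ (3 - 1) * (m - 1) + 2) := hsz.2
                _ = 24 * (4 * (m - 1) + 2) := by norm_num
    · exact large_b hm1 hm4 hs N hN ψ hprim hpar

end Pool.Agent.J6H1.GX
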