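import Pool.Agent.Y18.GX.Core

/-!
# Twisted sums of translates of a polynomial
-/

set_option autoImplicit false

namespace Pool.Agent.J6H1.GX

open Finset Polynomial Pool.Agent.Y18.GX

section
variable {k : Type*} [Field k]

/-- `∑_{s < L} τ^s f(X + s/L)` -/
noncomputable def tw (L : ℕ) (τ : k) (f : k[X]) : k[X] :=
  ∑ s ∈ range L, C (τ ^ s) * taylor ((s : k) / L) f

lemma tw_eval (L : ℕ) (τ : k) (f : k[X]) (x : k) :
    (tw L τ f).eval x = ∑ s ∈ range L, τ ^ s * f.eval (x + (s : k) / L) := by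
  rw [tw, eval_finsetSum]
  refine Finset.sum_congr rfl fun s _ => ?_
  rw [eval_mul, eval_C, taylor_eval]

lemma geom_zero {L : ℕ} {τ : k} (h1 : τ ^ L = 1) (hne : τ ≠ 1) : ∑ s ∈ range L, τ ^ s = 0 := by
  have h := geom_sum_mul τ L
  rw [h1, sub_self] at h
  exact (mul_eq_zero.1 h).resolve_right (sub_ne_zero.2 hne)

lemma geom_weighted {L : ℕ} {τ : k} (h1 : τ ^ L = 1) (hne : τ ≠ 1) :
    (τ - 1) * ∑ s ∈ range L, τ ^ s * (s : k) = L := by
  have hz := geom_zero h1 hne
  have h2 : ∑ s ∈ range (L + 1), τ ^ s * (s : k) = ∑ s ∈ range L, τ ^ s * (s : k) + L := by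
    rw [Finset.sum_range_succ, h1, one_mul]
  have h3 : ∑ s ∈ range (L + 1), τ ^ s * (s : k) = τ * ∑ s ∈ range L, τ ^ s * (s : k) +
      τ * ∑ s ∈ range L, τ ^ s := by
    rw [Finset.sum_range_succ', Finset.mul_sum, Finset.mul_sum, ← Finset.sum_add_distrib]
    simp only [Nat.cast_zero, mul_zero, add_zero]
    refine Finset.sum_congr rfl fun s _ => ?_
    push_cast
    ring
  rw [hz, mul_zero, add_zero] at h3
  linear_combination h2 - h3

variable {p : ℕ} [CharP k p]

lemma tw_degree {L m : ℕ} {τ : k} (f : k[X]) (hf : f.natDegree ≤ m) (h1 : τ ^ L = 1) (hne : τ ≠ 1) :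
    (tw L τ f).degree < m := by
  rw [degree_lt_iff_coeff_zero]
  intro i hi
  rcases hi.eq_or_lt with h | h
  · rw [← h, tw, finsetSum_coeff]
    simp only [coeff_C_mul, taylor_coeff_top f m hf]
    rw [← Finset.sum_mul, geom_zero h1 hne, zero_mul]
  · rw [tw, finsetSum_coeff]
    refine Finset.sum_eq_zero fun t _ => ?_
    rw [coeff_C_mul, coeff_eq_zero_of_natDegree_lt, mul_zero]
    rw [natDegree_taylor]
    omega

include p in
lemma tw_ne_zero {L m : ℕ} {τ : k} (f : k[X]) (hf : f.natDegree ≤ m) (h1 : τ ^ L = 1) (hne : τ ≠ 1)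
    (hfm : f.coeff m ≠ 0) (hm1 : 1 ≤ m) (hmp : m < p) (hL : (L : k) ≠ 0) : tw L τ f ≠ 0 := by
  intro h0
  have h2 : (tw L τ f).coeff (m - 1) = 0 := by rw [h0, coeff_zero]
  rw [tw, finsetSum_coeff] at h2
  simp only [coeff_C_mul, taylor_coeff_sub f m hm1 hf] at h2
  have h3 : ∑ s ∈ range L, τ ^ s * (f.coeff (m - 1) + m * f.coeff m * ((s : k) / L)) =
      f.coeff (m - 1) * ∑ s ∈ range L, τ ^ s + (m * f.coeff m / L) * ∑ s ∈ range L, τ ^ s * (s : k) := by
    rw [Finset.mul_sum, Finset.mul_sum, ← Finset.sum_add_distrib]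
    refine Finset.sum_congr rfl fun t _ => ?_
    ring
  rw [h3, geom_zero h1 hne, mul_zero, zero_add] at h2
  have h4 := geom_weighted h1 hne
  rcases mul_eq_zero.1 h2 with h5 | h5
  · rw [div_eq_zero_iff] at h5
    rcases h5 with h5 | h5
    · rcases mul_eq_zero.1 h5 with h6 | h6
      · rw [CharP.cast_eq_zero_iff k p] at h6
        have := Nat.le_of_dvd (by omega) h6
        omega
      · exact hfm h6
    · exact hL h5
  · rw [h5, mul_zero] at h4
    exact hL h4.symm

include p in
/-- a polynomial of degree less than `m` with `m` zeros in an arithmetic progression -/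
lemma ap_zero {m : ℕ} (hmp : m < p) (A : k[X]) (hA : A.degree < m) (x₀ ε : k) (hε : ε ≠ 0)
    (h : ∀ j : ℕ, j < m → A.eval (x₀ + j * ε) = 0) : A = 0 := by
  refine eq_zero_of_degree_lt_of_eval_index_eq_zero (s := range m) (f := A)
    (v := fun j : ℕ => x₀ + (j : k) * ε) ?_ (by rwa [card_range]) (fun j hj => h j (mem_range.1 hj))
  intro i hi j hj hij
  have hi' : i < m := mem_range.1 hi
  have hj' : j < m := mem_range.1 hj
  simp only at hij
  have h1 : ((i : k) - j) * ε = 0 := by linear_combination hij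
  rcases mul_eq_zero.1 h1 with h2 | h2
  · have h4 : (i : k) = (j : k) := sub_eq_zero.1 h2
    rw [CharP.cast_eq_iff_mod_eq k p, Nat.mod_eq_of_lt (by omega), Nat.mod_eq_of_lt (by omega)] at h4
    exact h4
  · exact absurd h2 hε

include p in
/-- two polynomials -/
lemma two_poly {m J : ℕ} (hmp : m < p) (A B : k[X]) (hA : A.degree < m) (hB : B.degree < m)
    (x₀ x₁ ε ε' ρ ω : k) (hε' : ε' ≠ 0) (hρ : ρ ≠ 0) (hω : ω ^ J = 1) (hω1 : ω ≠ 1)
    (hJ : (J : k) ≠ 0)
    (h : ∀ j : ℕ, j ≤ J * (m - 1) + 1 → A.eval (x₀ + j * ε) + ρ * ω ^ j * B.eval (x₁ + j * ε') = 0) :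
    B = 0 := by
  have hdeg : ∀ (P : k[X]) (x e : k), P.degree < m → (P.comp (C x + C e * X)).degree < m := by
    intro P x e hP
    by_cases h0 : P = 0
    · rw [h0, zero_comp, degree_zero]
      exact WithBot.bot_lt_coe _
    · have h1 := (natDegree_lt_iff_degree_lt h0).2 hP
      have h2 : (P.comp (C x + C e * X)).natDegree ≤ P.natDegree := by
        refine natDegree_comp_le.trans ?_
        have h3 : (C x + C e * X : k[X]).natDegree ≤ 1 := by
          refine (natDegree_add_le _ _).trans ?_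
          rw [natDegree_C]
          exact max_le (Nat.zero_le _) ((natDegree_C_mul_le _ _).trans natDegree_X_le)
        calc P.natDegree * (C x + C e * X : k[X]).natDegree ≤ P.natDegree * 1 := Nat.mul_le_mul le_rfl h3
          _ = P.natDegree := mul_one _
      refine lt_of_le_of_lt degree_le_natDegree ?_
      exact_mod_cast (by omega : (P.comp (C x + C e * X)).natDegree < m)
  set A' := A.comp (C x₀ + C ε * X) with hA'
  set B' := B.comp (C x₁ + C ε' * X) with hB'
  have hAe : ∀ j : k, A'.eval j = A.eval (x₀ + j * ε) := fun j => by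
    rw [hA', eval_comp, eval_add, eval_C, eval_mul, eval_C, eval_X, mul_comm]
  have hBe : ∀ j : k, B'.eval j = B.eval (x₁ + j * ε') := fun j => by
    rw [hB', eval_comp, eval_add, eval_C, eval_mul, eval_C, eval_X, mul_comm]
  have hsum : ∀ c : k, (A' + C c * B').degree < m := fun c =>
    (degree_add_le _ _).trans_lt (max_lt (hdeg _ _ _ hA) (by
      rw [← smul_eq_C_mul]
      exact (degree_smul_le _ _).trans_lt (hdeg _ _ _ hB)))
  have h1 : A' + C ρ * B' = 0 := by
    refine ap_zero (p := p) hmp _ (hsum ρ) 0 (J : k) hJ fun t ht => ?_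
    have h2 := h (J * t) (by
      have : J * t ≤ J * (m - 1) := Nat.mul_le_mul_left _ (by omega)
      omega)
    rw [pow_mul, hω, one_pow, mul_one] at h2
    push_cast at h2
    rw [zero_add, eval_add, eval_mul, eval_C, hAe, hBe]
    rw [show (t : k) * J = J * t by ring]
    exact h2
  have h3 : A' + C (ρ * ω) * B' = 0 := by
    refine ap_zero (p := p) hmp _ (hsum (ρ * ω)) 1 (J : k) hJ fun t ht => ?_
    have h2 := h (J * t + 1) (by
      have : J * t ≤ J * (m - 1) := Nat.mul_le_mul_left _ (by omega)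
      omega)
    rw [pow_succ, pow_mul, hω, one_pow, one_mul] at h2
    push_cast at h2
    rw [eval_add, eval_mul, eval_C, hAe, hBe]
    rw [show 1 + (t : k) * J = J * t + 1 by ring]
    exact h2
  have h4 : C (ρ * (1 - ω)) * B' = 0 := by
    have : C (ρ * (1 - ω)) * B' = (A' + C ρ * B') - (A' + C (ρ * ω) * B') := by
      rw [mul_sub, mul_one, C_sub]
      ring
    rw [this, h1, h3, sub_zero]
  have h5 : B' = 0 := by
    rcases mul_eq_zero.1 h4 with h6 | h6
    · rw [C_eq_zero] at h6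
      exact absurd h6 (mul_ne_zero hρ (sub_ne_zero.2 hω1.symm))
    · exact h6
  have h6 : B'.comp (C (-(x₁ / ε')) + C (1 / ε') * X) = B := by
    rw [hB', comp_assoc]
    have : (C x₁ + C ε' * X : k[X]).comp (C (-(x₁ / ε')) + C (1 / ε') * X) = X := by
      rw [add_comp, C_comp, mul_comp, C_comp, X_comp, mul_add, ← mul_assoc, ← C_mul, ← C_mul, ← add_assoc,
        ← C_add, mul_one_div_cancel hε', mul_neg, mul_div_cancel₀ _ hε', add_neg_cancel]
      simp
    rw [this, comp_X]
  rw [← h6, h5, zero_comp]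

end

end Pool.Agent.J6H1.GX
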