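import Pool.Agent.J6H1.GX.Cls

/-!
# Projection of a vanishing character sum to the classes `± b`
-/

set_option autoImplicit false

namespace Pool.Agent.J6H1.GX

open Finset Pool.Agent.Y18.GX

section
variable {k : Type*} [Field k]

/-- The sum over the Frobenius orbit of `ψ(a) / ψ(b)` vanishes unless `a = ± b` modulo `ℓ ^ (K - n)`. -/
theorem trace_class {ℓ n K u q : ℕ} (ψ₂ : MulChar (ZMod (ℓ ^ K)) k)
    (hA : Adm ℓ q) (hn1 : 1 ≤ n) (hn : 2 * n ≤ K) (hqodd : Even (q - 1))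
    (hq : q - 1 = ℓ ^ n * u) (hu : u.Coprime ℓ)
    (hprim : ψ₂ ((1 + ℓ ^ (K - 1) : ℕ) : ZMod (ℓ ^ K)) ≠ 1)
    (b : ℕ) (hb : b < ℓ ^ (K - n)) (hbℓ : ¬ ℓ ∣ b) (a : ℕ) :
    ∑ j ∈ range (ℓ ^ K), (ψ₂ (a : ZMod (ℓ ^ K)) * (ψ₂ (b : ZMod (ℓ ^ K)))⁻¹) ^ q ^ j =
      if a % ℓ ^ (K - n) = b ∨ a % ℓ ^ (K - n) = ℓ ^ (K - n) - b then
        (ℓ ^ K : ℕ) * (ψ₂ (a : ZMod (ℓ ^ K)) * (ψ₂ (b : ZMod (ℓ ^ K)))⁻¹) else 0 := by
  have hℓ := hA.prime
  set M := ℓ ^ (K - n) with hM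
  have hM0 : 0 < M := Nat.pos_of_ne_zero (pow_ne_zero _ hℓ.ne_zero)
  have hMn : ℓ ^ n ∣ M := pow_dvd_pow _ (by omega)
  have hq1 : 1 ≤ q := by rcases hA with h | h <;> omega
  have hb0 : b ≠ 0 := fun h => hbℓ (h ▸ dvd_zero _)
  have hbcop : b.Coprime (ℓ ^ K) :=
    Nat.Coprime.pow_right _ ((Nat.Prime.coprime_iff_not_dvd hℓ).2 hbℓ).symm
  have hunit : ∀ a : ℕ, ¬ ℓ ∣ a → IsUnit (a : ZMod (ℓ ^ K)) := fun a ha =>
    (ZMod.isUnit_iff_coprime a (ℓ ^ K)).2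
      (Nat.Coprime.pow_right _ ((Nat.Prime.coprime_iff_not_dvd hℓ).2 ha).symm)
  have hnunit : ∀ a : ℕ, ℓ ∣ a → ψ₂ (a : ZMod (ℓ ^ K)) = 0 := by
    intro a ha
    apply ψ₂.map_nonunit
    intro h
    have h1 := (ZMod.isUnit_iff_coprime a (ℓ ^ K)).1 h
    have h2 := Nat.dvd_gcd ha (dvd_pow_self ℓ (show K ≠ 0 by omega))
    rw [h1] at h2
    exact hℓ.one_lt.ne' (Nat.dvd_one.1 h2)
  -- the inverse of `b`
  set β := ψ₂ (b : ZMod (ℓ ^ K)) with hβ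
  have hβ0 : β ≠ 0 := ((hunit b hbℓ).map ψ₂).ne_zero
  obtain ⟨b', hb'⟩ : ∃ b' : ℕ, (b : ZMod (ℓ ^ K)) * b' = 1 := by
    have : NeZero (ℓ ^ K) := ⟨pow_ne_zero _ hℓ.ne_zero⟩
    refine ⟨((b : ZMod (ℓ ^ K))⁻¹).val, ?_⟩
    rw [ZMod.natCast_val, ZMod.cast_id', id_eq]
    exact ZMod.coe_mul_inv_eq_one b hbcop
  have hβ' : ψ₂ (b' : ZMod (ℓ ^ K)) = β⁻¹ := by
    apply eq_inv_of_mul_eq_one_left
    rw [hβ, ← map_mul, mul_comm, hb', map_one]
  have hb'M : b * b' ≡ 1 [MOD M] := by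
    have h1 : b * b' ≡ 1 [MOD ℓ ^ K] := by
      rw [← ZMod.natCast_eq_natCast_iff]
      push_cast
      exact hb'
    exact h1.of_dvd (pow_dvd_pow _ (by omega))
  have hb'0 : ¬ ℓ ∣ b' := by
    intro h
    have h1 : b * b' ≡ 1 [MOD ℓ] := hb'M.of_dvd ((dvd_pow_self ℓ (by omega)).trans hMn)
    have h2 : b * b' ≡ 0 [MOD ℓ] := (Nat.modEq_zero_iff_dvd).2 (h.mul_left b)
    have h4 := h2.symm.trans h1
    have h5 := (Nat.modEq_iff_dvd' (Nat.zero_le 1)).1 h4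
    exact hℓ.one_lt.ne' (Nat.dvd_one.1 h5)
  -- the traces
  have hT : ∀ a : ℕ, ∑ j ∈ range (ℓ ^ K), (ψ₂ (a : ZMod (ℓ ^ K)) * β⁻¹) ^ q ^ j =
      if a % M = b ∨ a % M = M - b then (ℓ ^ K : ℕ) * (ψ₂ (a : ZMod (ℓ ^ K)) * β⁻¹) else 0 := by
    intro a
    by_cases ha : ℓ ∣ a
    · rw [hnunit a ha]
      have h1 : ∀ j, ((0 : k) * β⁻¹) ^ q ^ j = 0 := fun j => by
        rw [zero_mul, zero_pow]
        exact (Nat.pos_of_ne_zero (pow_ne_zero _ (by omega))).ne'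
      rw [Finset.sum_eq_zero fun j _ => h1 j, zero_mul, mul_zero, ite_self]
    · have hz : ψ₂ (a : ZMod (ℓ ^ K)) * β⁻¹ = ψ₂ ((a * b' : ℕ) : ZMod (ℓ ^ K)) := by
        rw [← hβ', ← map_mul]
        push_cast
        rfl
      have hcℓ : ¬ ℓ ∣ a * b' := fun h => by
        rcases (hℓ.dvd_mul).1 h with h | h
        · exact ha h
        · exact hb'0 h
      have hc0 : a * b' ≠ 0 := fun h => hcℓ (h ▸ dvd_zero _)
      have hz0 : ψ₂ ((a * b' : ℕ) : ZMod (ℓ ^ K)) ≠ 0 := ((hunit _ hcℓ).map ψ₂).ne_zero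
      have hab : a * b' * b ≡ a [MOD M] := by
        calc a * b' * b = a * (b * b') := by ring
          _ ≡ a * 1 [MOD M] := hb'M.mul_left a
          _ = a := mul_one a
      rw [hz]
      split_ifs with hcase
      · refine trace_one _ hq1 (kernel_conv ψ₂ hn hqodd hq hc0
          (Nat.one_le_pow _ _ hℓ.pos) ?_)
        rcases hcase with h1 | h1
        · left
          have h2 : a ≡ b [MOD M] := by
            rw [Nat.ModEq, h1, Nat.mod_eq_of_lt hb]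
          have h4 : 1 ≡ a * b' [MOD M] := (h2.mul_right b' |>.trans hb'M).symm
          exact (Nat.modEq_iff_dvd' (Nat.pos_of_ne_zero hc0)).1 h4
        · right
          have h2 : a + b ≡ 0 [MOD M] := by
            have h4 : a ≡ M - b [MOD M] := by
              rw [Nat.ModEq, h1, Nat.mod_eq_of_lt (by omega)]
            have h5 := h4.add_right b
            rw [Nat.sub_add_cancel hb.le] at h5
            exact h5.trans (Nat.modEq_zero_iff_dvd.2 dvd_rfl)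
          have h4 : a * b' + b * b' ≡ 0 [MOD M] := by
            have := h2.mul_right b'
            rwa [add_mul, zero_mul] at this
          exact Nat.modEq_zero_iff_dvd.1 ((hb'M.symm.add_left (a * b')).trans h4)
      · refine trace_zero hA _ hz0 ?_ ?_
        · intro h1
          apply hcase
          rcases kernel ψ₂ hA hn hn1 hprim hq hu
            ((Nat.Prime.coprime_iff_not_dvd hℓ).2 hcℓ).symm h1 with h2 | h2
          · left
            have h4 : 1 ≡ a * b' [MOD M] := (Nat.modEq_iff_dvd' (Nat.pos_of_ne_zero hc0)).2 h2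
            have h5 : b ≡ a [MOD M] := by
              have := (h4.mul_right b).trans hab
              rwa [one_mul] at this
            rw [← Nat.mod_eq_of_lt hb]
            exact h5.symm
          · right
            have h4 : (a * b' + 1) * b ≡ 0 [MOD M] := Nat.modEq_zero_iff_dvd.2 (h2.mul_right b)
            rw [add_mul, one_mul] at h4
            have h5 : a + b ≡ 0 [MOD M] := (hab.symm.add_right b).trans h4
            have h6 : a + b ≡ (M - b) + b [MOD M] := by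
              rw [Nat.sub_add_cancel hb.le]
              exact h5.trans (Nat.modEq_zero_iff_dvd.2 dvd_rfl).symm
            have h7 : a ≡ M - b [MOD M] := Nat.ModEq.add_right_cancel' b h6
            rw [Nat.ModEq, Nat.mod_eq_of_lt (show M - b < M by omega)] at h7
            exact h7
        · rw [← pow_mul, ← map_pow]
          have h1 : ((a * b' : ℕ) : ZMod (ℓ ^ K)) ^ ((q - 1) * ℓ ^ K) = 1 := by
            obtain ⟨U, hU⟩ := hunit _ hcℓ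
            rw [← hU, ← Units.val_pow_eq_pow_val]
            have h2 := ZMod.pow_totient U
            rw [Nat.totient_prime_pow hℓ (by omega)] at h2
            have h4 : ℓ - 1 ∣ q - 1 := by
              rcases hA with ⟨h5, -⟩ | ⟨h5, -⟩
              · rw [h5]
                exact even_iff_two_dvd.1 hqodd
              · rw [h5]
                exact one_dvd _
            obtain ⟨w, hw⟩ := h4
            have h5 : (q - 1) * ℓ ^ K = (ℓ ^ (K - 1) * (ℓ - 1)) * (w * ℓ) := by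
              rw [hw]
              have : ℓ ^ K = ℓ ^ (K - 1) * ℓ := by
                rw [← pow_succ]
                congr 1
                omega
              rw [this]
              ring
            rw [h5, pow_mul, h2, one_pow, Units.val_one]
          rw [h1, map_one]
  exact hT a

end

section
variable {k : Type*} [Field k] {p : ℕ} [Fact p.Prime] [CharP k p]

/-- Projection of a vanishing sum `∑ ψ(A i) w i`, where the `w i` are in the field with `p ^ g` elements, to the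
indices with `A i = ± b` modulo `ℓ ^ (K - n)`. -/
theorem project {ι : Type*} {ℓ n K u g : ℕ} (ψ₂ : MulChar (ZMod (ℓ ^ K)) k) (hp2 : p ≠ 2)
    (hA : Adm ℓ (p ^ g)) (hn1 : 1 ≤ n) (hn : 2 * n ≤ K)
    (hq : p ^ g - 1 = ℓ ^ n * u) (hu : u.Coprime ℓ)
    (hprim : ψ₂ ((1 + ℓ ^ (K - 1) : ℕ) : ZMod (ℓ ^ K)) ≠ 1) (hℓk : (ℓ : k) ≠ 0)
    (b : ℕ) (hb : b < ℓ ^ (K - n)) (hbℓ : ¬ ℓ ∣ b) (s : Finset ι) (A : ι → ℕ) (w : ι → k)
    (hw : ∀ i ∈ s, w i ^ p ^ g = w i) (h0 : ∑ i ∈ s, ψ₂ (A i : ZMod (ℓ ^ K)) * w i = 0) :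
    ∑ i ∈ s, (if A i % ℓ ^ (K - n) = b ∨ A i % ℓ ^ (K - n) = ℓ ^ (K - n) - b then
      ψ₂ (A i : ZMod (ℓ ^ K)) * w i else 0) = 0 := by
  have hℓ := hA.prime
  have hp := (Fact.out : p.Prime)
  have hqodd : Even (p ^ g - 1) := by
    have h1 : Odd (p ^ g) := (hp.odd_of_ne_two hp2).pow
    exact Nat.Odd.sub_odd h1 odd_one
  have hT := trace_class ψ₂ hA hn1 hn hqodd hq hu hprim b hb hbℓ
  have hunit : IsUnit (b : ZMod (ℓ ^ K)) := (ZMod.isUnit_iff_coprime b (ℓ ^ K)).2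
      (Nat.Coprime.pow_right _ ((Nat.Prime.coprime_iff_not_dvd hℓ).2 hbℓ).symm)
  set β := ψ₂ (b : ZMod (ℓ ^ K)) with hβ
  have hβ0 : β ≠ 0 := (hunit.map ψ₂).ne_zero
  have hwj : ∀ i ∈ s, ∀ j, w i ^ (p ^ g) ^ j = w i := by
    intro i hi j
    induction j with
    | zero => simp
    | succ j ih => rw [pow_succ, pow_mul, ih, hw i hi]
  have hSj : ∀ j, ∑ i ∈ s, ψ₂ (A i : ZMod (ℓ ^ K)) ^ (p ^ g) ^ j * w i = 0 := by
    intro j
    have h1 := congrArg (iterateFrobenius k p (g * j)) h0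
    rw [map_zero, map_sum] at h1
    rw [← h1]
    refine Finset.sum_congr rfl fun i hi => ?_
    rw [iterateFrobenius_def, mul_pow, pow_mul, hwj i hi]
  have h1 : ∑ j ∈ range (ℓ ^ K), (β⁻¹) ^ (p ^ g) ^ j * ∑ i ∈ s,
      ψ₂ (A i : ZMod (ℓ ^ K)) ^ (p ^ g) ^ j * w i = 0 := by
    simp only [hSj, mul_zero, Finset.sum_const_zero]
  simp only [Finset.mul_sum] at h1
  rw [Finset.sum_comm] at h1
  have h2 : ∀ i ∈ s, ∑ j ∈ range (ℓ ^ K), (β⁻¹) ^ (p ^ g) ^ j * (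
      ψ₂ (A i : ZMod (ℓ ^ K)) ^ (p ^ g) ^ j * w i) =
      ((ℓ ^ K : ℕ) * β⁻¹) * (if A i % ℓ ^ (K - n) = b ∨ A i % ℓ ^ (K - n) = ℓ ^ (K - n) - b then
        ψ₂ (A i : ZMod (ℓ ^ K)) * w i else 0) := by
    intro i _
    have h4 : ∀ j, (β⁻¹) ^ (p ^ g) ^ j * (ψ₂ (A i : ZMod (ℓ ^ K)) ^ (p ^ g) ^ j * w i) =
        w i * (ψ₂ (A i : ZMod (ℓ ^ K)) * β⁻¹) ^ (p ^ g) ^ j := by
      intro j
      rw [mul_pow]
      ring
    simp only [h4]
    rw [← Finset.mul_sum, hT]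
    split_ifs
    · ring
    · ring
  rw [Finset.sum_congr rfl h2, ← Finset.mul_sum] at h1
  rcases mul_eq_zero.1 h1 with h4 | h4
  · exfalso
    rcases mul_eq_zero.1 h4 with h5 | h5
    · push_cast at h5
      exact pow_ne_zero _ hℓk h5
    · exact inv_ne_zero hβ0 h5
  · exact h4

/-- `ψ (w + M t)` if `w = 1` modulo `ℓ ^ n`, that is, `M w = M`. -/
lemma psi_w {ℓ K n : ℕ} (ψ : MulChar (ZMod (ℓ ^ K)) k) (hn : 2 * n ≤ K) (w : ZMod (ℓ ^ K)) (t : ℕ)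
    (hw : ((ℓ ^ (K - n) : ℕ) : ZMod (ℓ ^ K)) * w = ((ℓ ^ (K - n) : ℕ) : ZMod (ℓ ^ K))) :
    ψ (w + ((ℓ ^ (K - n) : ℕ) : ZMod (ℓ ^ K)) * t) =
      ψ w * ψ ((1 + ℓ ^ (K - n) : ℕ) : ZMod (ℓ ^ K)) ^ t := by
  rw [← psi_one_add ψ hn, ← map_mul]
  congr 1
  push_cast at hw ⊢
  linear_combination (-(t : ZMod (ℓ ^ K))) * hw

/-- `ψ (w + M t)` if `w = - 1` modulo `ℓ ^ n`, that is, `M w = - M`. -/
lemma psi_w_neg {ℓ K n : ℕ} (ψ : MulChar (ZMod (ℓ ^ K)) k) (hn : 2 * n ≤ K) (hℓ : ℓ.Prime) (w : ZMod (ℓ ^ K)) (t : ℕ)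
    (hw : ((ℓ ^ (K - n) : ℕ) : ZMod (ℓ ^ K)) * w = -((ℓ ^ (K - n) : ℕ) : ZMod (ℓ ^ K))) :
    ψ (w + ((ℓ ^ (K - n) : ℕ) : ZMod (ℓ ^ K)) * t) =
      ψ w * ((ψ ((1 + ℓ ^ (K - n) : ℕ) : ZMod (ℓ ^ K)))⁻¹) ^ t := by
  have h1 := psi_one_add ψ hn t
  have h2 := M_sq (ℓ := ℓ) (K := K) hn
  have h3 : ψ ((w + ((ℓ ^ (K - n) : ℕ) : ZMod (ℓ ^ K)) * t)) *
      ψ ((1 + ℓ ^ (K - n) : ℕ) : ZMod (ℓ ^ K)) ^ t = ψ w := by
    rw [← h1, ← map_mul]
    congr 1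
    push_cast at hw h2 ⊢
    linear_combination (t : ZMod (ℓ ^ K)) * hw + ((t : ZMod (ℓ ^ K)) ^ 2) * h2
  have h4 : ψ ((1 + ℓ ^ (K - n) : ℕ) : ZMod (ℓ ^ K)) ≠ 0 := by
    intro h
    have h5 := psi_M_pow ψ hn
    rw [h] at h5
    have h6 : ℓ ^ n ≠ 0 := pow_ne_zero _ hℓ.ne_zero
    rw [zero_pow h6] at h5
    exact zero_ne_one h5
  rw [← h3, inv_pow]
  field_simp

end

end Pool.Agent.J6H1.GX
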