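import Pool.Agent.J6H1.GX.PolyTwo

/-!
# The two ways to use the relations between two classes
-/

set_option autoImplicit false

namespace Pool.Agent.J6H1.GX

open Finset Polynomial Pool.Agent.Y18.GX

lemma lin_solve {A M : ℕ} (h : A.Coprime M) (hM : 0 < M) (B : ℕ) : ∃ X, X < M ∧ A * X ≡ B [MOD M] := by
  have : NeZero M := ⟨hM.ne'⟩
  set u := ZMod.unitOfCoprime A h with hu
  refine ⟨((↑(u⁻¹) : ZMod M) * (B : ZMod M)).val, ZMod.val_lt _, ?_⟩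
  rw [← ZMod.natCast_eq_natCast_iff]
  push_cast
  rw [ZMod.natCast_val, ZMod.cast_id', id_eq, ← mul_assoc]
  have h1 : (A : ZMod M) = u := by rw [hu, ZMod.coe_unitOfCoprime]
  rw [h1, Units.mul_inv, one_mul]

lemma pow_one_coprime {G : Type*} [Monoid G] {x : G} {A B : ℕ} (h1 : x ^ A = 1) (h2 : x ^ B = 1)
    (h : A.Coprime B) : x = 1 := by
  have h4 : orderOf x ∣ 1 := by
    rw [← Nat.coprime_iff_gcd_eq_one.1 h]
    exact Nat.dvd_gcd (orderOf_dvd_of_pow_eq_one h1) (orderOf_dvd_of_pow_eq_one h2)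
  exact orderOf_eq_one_iff.1 (Nat.dvd_one.1 h4)

lemma crt {A B : ℕ} (h : A.Coprime B) (hA : 0 < A) (hB : 0 < B) (a b : ℕ) :
    ∃ y, y < A * B ∧ y ≡ a [MOD A] ∧ y ≡ b [MOD B] :=
  ⟨_, Nat.chineseRemainder_lt_mul h a b hA.ne' hB.ne', (Nat.chineseRemainder h a b).2.1,
    (Nat.chineseRemainder h a b).2.2⟩

section
variable {k : Type*} [Field k] {p : ℕ} [CharP k p]

/-- the relations between `A` and `B` -/
def Rel (A B : k[X]) (ξ η σ N : k) (Q₂ Q₃ n r c₁ : ℕ) : Prop :=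
  ∀ y z κ : ℕ, y < Q₂ * Q₃ → z < Q₂ * Q₃ → y ≡ z [MOD Q₂] → y * c₁ % 2 ^ n = 1 → y % 3 ^ r = 1 →
    y + z = Q₃ * κ → ξ ^ (y / Q₂) * A.eval ((y : k) / N) + σ * η ^ κ * ξ ^ (z / Q₂) * B.eval ((z : k) / N) = 0

include p in
lemma type_I {α β n r m : ℕ} (A B : k[X]) (hA : A.degree < m) (hB : B.degree < m) (hm1 : 1 ≤ m) (hmp : m < p)
    (ξ η σ N : k) (hξ : ξ ≠ 0) (hη : η ^ 3 ^ r = 1) (hη1 : η ≠ 1) (hσ : σ ≠ 0) (hN : N ≠ 0)
    (h2 : (2 : k) ≠ 0) (h3 : (3 : k) ≠ 0) (hn : 1 ≤ n) (hnα : n ≤ α) (hr : 1 ≤ r) (hrβ : r ≤ β)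
    (hsize : 2 ^ n * 3 ^ r * (3 ^ r * (m - 1) + 2) ≤ 2 ^ α)
    (h : Rel A B ξ η σ N (2 ^ α) (3 ^ β) n r 1) : B = 0 := by
  set Q₂ := 2 ^ α with hQ₂
  set Q₃ := 3 ^ β with hQ₃
  have hQ₂0 : 0 < Q₂ := by positivity
  have hQ₃0 : 0 < Q₃ := by positivity
  have h2n : 2 ^ n ∣ Q₂ := pow_dvd_pow _ hnα
  have h3r : 3 ^ r ∣ Q₃ := pow_dvd_pow _ hrβ
  have h3r1 : 3 ≤ 3 ^ r := by
    calc 3 = 3 ^ 1 := by norm_num
      _ ≤ 3 ^ r := Nat.pow_le_pow_right (by norm_num) hr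
  have h2n1 : 2 ≤ 2 ^ n := by
    calc 2 = 2 ^ 1 := by norm_num
      _ ≤ 2 ^ n := Nat.pow_le_pow_right (by norm_num) hn
  have hη0 : η ≠ 0 := by
    intro h0
    rw [h0, zero_pow (by positivity)] at hη
    exact zero_ne_one hη
  -- the shift
  obtain ⟨e, he, hee⟩ := lin_solve (A := Q₂) (M := 3 ^ r) (Nat.Coprime.pow _ _ (by norm_num)) (by positivity) (3 ^ r - 2)
  have hee2 : Q₂ * e + 2 ≡ 0 [MOD 3 ^ r] := by
    have h4 := hee.add_right 2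
    rw [Nat.sub_add_cancel (by omega)] at h4
    exact h4.trans (Nat.modEq_zero_iff_dvd.2 dvd_rfl)
  obtain ⟨y', hy', hyy⟩ := lin_solve (A := 2) (M := Q₃) (Nat.Coprime.pow_right _ (by norm_num)) hQ₃0
    ((Q₃ - 1) * (Q₂ * e))
  have hyy2 : 2 * y' + Q₂ * e ≡ 0 [MOD Q₃] := by
    have h4 := hyy.add_right (Q₂ * e)
    have h5 : (Q₃ - 1) * (Q₂ * e) + Q₂ * e = Q₃ * (Q₂ * e) := by
      obtain ⟨w, hw⟩ : ∃ w, Q₃ = w + 1 := ⟨Q₃ - 1, by omega⟩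
      rw [hw, Nat.add_sub_cancel]
      ring
    rw [h5] at h4
    exact h4.trans (Nat.modEq_zero_iff_dvd.2 (dvd_mul_right _ _))
  have hcop : Nat.Coprime Q₃ (2 ^ n) := Nat.Coprime.pow _ _ (by norm_num)
  obtain ⟨y₀, hy₀, hy1, hy2⟩ := crt hcop hQ₃0 (by positivity) y' 1
  -- the sum
  have hs0 : 2 * y₀ + Q₂ * e ≡ 0 [MOD Q₃] := ((hy1.mul_left 2).add_right _).trans hyy2
  obtain ⟨κ₀, hκ₀⟩ := Nat.modEq_zero_iff_dvd.1 hs0
  have hy3 : y₀ ≡ 1 [MOD 3 ^ r] := by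
    have h4 : 2 * y₀ + Q₂ * e ≡ 0 [MOD 3 ^ r] := hs0.of_dvd h3r
    have h5 : 2 * y₀ + Q₂ * e + 2 ≡ 0 + 2 [MOD 3 ^ r] := h4.add_right 2
    have h6 : 2 * y₀ + Q₂ * e + 2 ≡ 2 * y₀ + 0 [MOD 3 ^ r] := by
      rw [add_assoc]
      exact hee2.add_left _
    have h7 : 2 * y₀ ≡ 2 * 1 [MOD 3 ^ r] := by
      have h8 := h6.symm.trans h5
      simpa using h8
    exact Nat.ModEq.cancel_left_of_coprime (by
      rw [Nat.gcd_comm]
      exact Nat.Coprime.pow_right _ (by norm_num)) h7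
  have h3rk : ((3 ^ r : ℕ) : k) ≠ 0 := by
    push_cast
    exact pow_ne_zero _ h3
  have hQ₃k : ((Q₃ : ℕ) : k) ≠ 0 := by
    rw [hQ₃]
    push_cast
    exact pow_ne_zero _ h3
  refine two_poly (p := p) (J := 3 ^ r) hmp A B hA hB ((y₀ : k) / N) (((y₀ + Q₂ * e : ℕ) : k) / N)
    (((Q₃ * 2 ^ n : ℕ) : k) / N) (((Q₃ * 2 ^ n : ℕ) : k) / N) (σ * η ^ κ₀ * ξ ^ e) (η ^ 2 ^ (n + 1)) ?_ ?_ ?_ ?_
    h3rk ?_
  · refine div_ne_zero ?_ hN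
    push_cast
    exact mul_ne_zero hQ₃k (pow_ne_zero _ h2)
  · exact mul_ne_zero (mul_ne_zero hσ (pow_ne_zero _ hη0)) (pow_ne_zero _ hξ)
  · rw [← pow_mul, mul_comm, pow_mul, hη, one_pow]
  · intro h4
    exact hη1 (pow_one_coprime h4 hη (Nat.Coprime.pow _ _ (by norm_num)))
  · intro j hj
    have hylt : y₀ + Q₃ * 2 ^ n * j + Q₂ * e < Q₂ * Q₃ := by
      have h4 : y₀ + Q₃ * 2 ^ n * j < Q₃ * (2 ^ n * (3 ^ r * (m - 1) + 2)) := by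
        calc y₀ + Q₃ * 2 ^ n * j < Q₃ * 2 ^ n + Q₃ * 2 ^ n * j := Nat.add_lt_add_right hy₀ _
          _ = Q₃ * (2 ^ n * (j + 1)) := by ring
          _ ≤ Q₃ * (2 ^ n * (3 ^ r * (m - 1) + 2)) :=
            Nat.mul_le_mul_left _ (Nat.mul_le_mul_left _ (by omega))
      have h5 : Q₃ * (2 ^ n * (3 ^ r * (m - 1) + 2)) + Q₂ * e ≤ Q₂ * Q₃ := by
        obtain ⟨w, hw⟩ := h3r
        have hw1 : 1 ≤ w := by
          rcases Nat.eq_zero_or_pos w with h6 | h6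
          · rw [h6, mul_zero] at hw
            omega
          · exact h6
        have h6 : Q₃ * (2 ^ n * (3 ^ r * (m - 1) + 2)) ≤ w * Q₂ := by
          calc Q₃ * (2 ^ n * (3 ^ r * (m - 1) + 2)) = w * (2 ^ n * 3 ^ r * (3 ^ r * (m - 1) + 2)) := by
                rw [hw]; ring
            _ ≤ w * Q₂ := Nat.mul_le_mul_left _ hsize
        have h7 : w + e ≤ Q₃ := by
          rw [hw]
          obtain ⟨v, hv⟩ : ∃ v, 3 ^ r = v + 1 := ⟨3 ^ r - 1, by omega⟩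
          obtain ⟨w', hw'⟩ : ∃ w', w = w' + 1 := ⟨w - 1, by omega⟩
          rw [hv, hw']
          have h8 : e ≤ v := by omega
          calc w' + 1 + e ≤ w' + 1 + v := by omega
            _ ≤ (v + 1) * (w' + 1) := by
              have : 0 ≤ v * w' := Nat.zero_le _
              ring_nf
              omega
        calc Q₃ * (2 ^ n * (3 ^ r * (m - 1) + 2)) + Q₂ * e ≤ w * Q₂ + Q₂ * e := by omega
          _ = Q₂ * (w + e) := by ring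
          _ ≤ Q₂ * Q₃ := Nat.mul_le_mul_left _ h7
      omega
    have h4 := h (y₀ + Q₃ * 2 ^ n * j) (y₀ + Q₃ * 2 ^ n * j + Q₂ * e) (κ₀ + 2 ^ (n + 1) * j) (by omega) hylt
      (by
        show (y₀ + Q₃ * 2 ^ n * j) % Q₂ = (y₀ + Q₃ * 2 ^ n * j + Q₂ * e) % Q₂
        rw [Nat.add_mul_mod_self_left])
      (by
        rw [mul_one]
        have h5 : y₀ + Q₃ * 2 ^ n * j ≡ 1 [MOD 2 ^ n] := by
          have h6 : Q₃ * 2 ^ n * j ≡ 0 [MOD 2 ^ n] :=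
            Nat.modEq_zero_iff_dvd.2 (Dvd.dvd.mul_right (dvd_mul_left _ _) _)
          simpa using hy2.add h6
        rw [h5, Nat.mod_eq_of_lt (by omega)])
      (by
        have h5 : y₀ + Q₃ * 2 ^ n * j ≡ 1 [MOD 3 ^ r] := by
          have h6 : Q₃ * 2 ^ n * j ≡ 0 [MOD 3 ^ r] :=
            Nat.modEq_zero_iff_dvd.2 (Dvd.dvd.mul_right (Dvd.dvd.mul_right h3r _) _)
          simpa using hy3.add h6
        rw [h5, Nat.mod_eq_of_lt (by omega)])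
      (by
        rw [mul_add Q₃, ← hκ₀, pow_succ]
        ring)
    have h5 : (y₀ + Q₃ * 2 ^ n * j + Q₂ * e) / Q₂ = (y₀ + Q₃ * 2 ^ n * j) / Q₂ + e :=
      Nat.add_mul_div_left _ _ hQ₂0
    rw [h5] at h4
    set T := (y₀ + Q₃ * 2 ^ n * j) / Q₂ with hT
    have hx0 : (y₀ : k) / N + j * (((Q₃ * 2 ^ n : ℕ) : k) / N) = ((y₀ + Q₃ * 2 ^ n * j : ℕ) : k) / N := by
      push_cast
      field_simp
    have hx1 : ((y₀ + Q₂ * e : ℕ) : k) / N + j * (((Q₃ * 2 ^ n : ℕ) : k) / N) =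
        ((y₀ + Q₃ * 2 ^ n * j + Q₂ * e : ℕ) : k) / N := by
      push_cast
      field_simp
      ring
    rw [hx0, hx1]
    have hξT : ξ ^ T ≠ 0 := pow_ne_zero _ hξ
    apply mul_left_cancel₀ hξT
    rw [mul_zero, ← h4, pow_add, pow_add, ← pow_mul]
    ring

include p in
lemma type_II {α β n r m : ℕ} (A B : k[X]) (hA : A.degree < m) (hB : B.degree < m) (hm1 : 1 ≤ m) (hmp : m < p)
    (ξ η σ N : k) (hη0 : η ≠ 0) (hξ : ξ ^ 2 ^ n = 1) (hξ1 : ξ ^ 2 ^ (n - 1) ≠ 1) (hσ : σ ≠ 0) (hN : N ≠ 0)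
    (h2 : (2 : k) ≠ 0) (h3 : (3 : k) ≠ 0) (hn : 2 ≤ n) (hnα : n + 1 ≤ α) (hr : 1 ≤ r) (hrβ : r ≤ β)
    (hsize : 2 ^ n * 3 ^ r * (2 ^ (n - 1) * (m - 1) + 2) ≤ 3 ^ β)
    (h : Rel A B ξ η σ N (2 ^ α) (3 ^ β) n r 1) : B = 0 := by
  set Q₂ := 2 ^ α with hQ₂
  set Q₃ := 3 ^ β with hQ₃
  have hQ₂0 : 0 < Q₂ := by positivity
  have hQ₃0 : 0 < Q₃ := by positivity
  have h2n : 2 ^ n ∣ Q₂ := pow_dvd_pow _ (by omega)
  have h3r : 3 ^ r ∣ Q₃ := pow_dvd_pow _ hrβ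
  have h3r1 : 3 ≤ 3 ^ r := by
    calc 3 = 3 ^ 1 := by norm_num
      _ ≤ 3 ^ r := Nat.pow_le_pow_right (by norm_num) hr
  have h2n1 : 4 ≤ 2 ^ n := by
    calc 4 = 2 ^ 2 := by norm_num
      _ ≤ 2 ^ n := Nat.pow_le_pow_right (by norm_num) hn
  have hξ0 : ξ ≠ 0 := by
    intro h0
    rw [h0, zero_pow (by positivity)] at hξ
    exact zero_ne_one hξ
  -- the shift
  obtain ⟨e, he, hee⟩ := lin_solve (A := Q₃) (M := 2 ^ n) (Nat.Coprime.pow _ _ (by norm_num)) (by positivity)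
    (2 ^ n - 1)
  have hee1 : Q₃ * e + 1 ≡ 0 [MOD 2 ^ n] := by
    have h4 := hee.add_right 1
    rw [Nat.sub_add_cancel (by omega)] at h4
    exact h4.trans (Nat.modEq_zero_iff_dvd.2 dvd_rfl)
  have hcop : Nat.Coprime Q₂ (3 ^ r) := Nat.Coprime.pow _ _ (by norm_num)
  obtain ⟨y₀, hy₀, hy1, hy2⟩ := crt hcop hQ₂0 (by positivity) ((Q₂ - 1) * (Q₃ * e)) 1
  have hy1' : y₀ + Q₃ * e ≡ 0 [MOD Q₂] := by
    have h4 := hy1.add_right (Q₃ * e)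
    have h5 : (Q₂ - 1) * (Q₃ * e) + Q₃ * e = Q₂ * (Q₃ * e) := by
      obtain ⟨w, hw⟩ : ∃ w, Q₂ = w + 1 := ⟨Q₂ - 1, by omega⟩
      rw [hw, Nat.add_sub_cancel]
      ring
    rw [h5] at h4
    exact h4.trans (Nat.modEq_zero_iff_dvd.2 (dvd_mul_right _ _))
  have hy3 : y₀ ≡ 1 [MOD 2 ^ n] := by
    have h4 : y₀ + Q₃ * e ≡ 0 [MOD 2 ^ n] := hy1'.of_dvd h2n
    have h5 : y₀ + Q₃ * e + 1 ≡ 0 + 1 [MOD 2 ^ n] := h4.add_right 1
    have h6 : y₀ + Q₃ * e + 1 ≡ y₀ + 0 [MOD 2 ^ n] := by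
      rw [add_assoc]
      exact hee1.add_left _
    simpa using h6.symm.trans h5
  obtain ⟨w₂, hw₂⟩ : 2 ^ (n + 1) ∣ Q₂ := pow_dvd_pow _ hnα
  have hw₂1 : 1 ≤ w₂ := by
    rcases Nat.eq_zero_or_pos w₂ with h6 | h6
    · rw [h6, mul_zero] at hw₂
      omega
    · exact h6
  -- the sizes
  have hbig : ∀ i ≤ 2 ^ (n - 1) * (m - 1) + 1, y₀ + Q₂ * 3 ^ r * i + 2 * (Q₃ * e) ≤ Q₂ * Q₃ := by
    intro i hi
    have h4 : y₀ + Q₂ * 3 ^ r * i ≤ 2 * w₂ * Q₃ := by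
      calc y₀ + Q₂ * 3 ^ r * i ≤ Q₂ * 3 ^ r + Q₂ * 3 ^ r * i := Nat.add_le_add_right hy₀.le _
        _ = Q₂ * (3 ^ r * (i + 1)) := by ring
        _ ≤ Q₂ * (3 ^ r * (2 ^ (n - 1) * (m - 1) + 2)) :=
          Nat.mul_le_mul_left _ (Nat.mul_le_mul_left _ (by omega))
        _ = 2 * w₂ * (2 ^ n * 3 ^ r * (2 ^ (n - 1) * (m - 1) + 2)) := by rw [hw₂, pow_succ]; ring
        _ ≤ 2 * w₂ * Q₃ := Nat.mul_le_mul_left _ hsize
    have h5 : w₂ + e ≤ 2 ^ n * w₂ := by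
      obtain ⟨v, hv⟩ : ∃ v, 2 ^ n = v + 1 := ⟨2 ^ n - 1, by omega⟩
      obtain ⟨w', hw'⟩ : ∃ w', w₂ = w' + 1 := ⟨w₂ - 1, by omega⟩
      rw [hv, hw']
      have h8 : e ≤ v := by omega
      calc w' + 1 + e ≤ w' + 1 + v := by omega
        _ ≤ (v + 1) * (w' + 1) := by
          have : 0 ≤ v * w' := Nat.zero_le _
          ring_nf
          omega
    calc y₀ + Q₂ * 3 ^ r * i + 2 * (Q₃ * e) ≤ 2 * w₂ * Q₃ + 2 * (Q₃ * e) := by omega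
      _ = 2 * Q₃ * (w₂ + e) := by ring
      _ ≤ 2 * Q₃ * (2 ^ n * w₂) := Nat.mul_le_mul_left _ h5
      _ = Q₂ * Q₃ := by rw [hw₂, pow_succ]; ring
  have he2 : 2 * e ≤ Q₂ := by
    have h4 : 2 * e ≤ 2 ^ (n + 1) * 1 := by
      rw [pow_succ]
      omega
    exact h4.trans (hw₂ ▸ Nat.mul_le_mul_left _ hw₂1)
  have h2nk : ((2 ^ (n - 1) : ℕ) : k) ≠ 0 := by
    push_cast
    exact pow_ne_zero _ h2
  have hQ₂k : ((Q₂ : ℕ) : k) ≠ 0 := by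
    rw [hQ₂]
    push_cast
    exact pow_ne_zero _ h2
  set z₀ := Q₂ * Q₃ - 2 * (Q₃ * e) - y₀ with hz₀
  refine two_poly (p := p) (J := 2 ^ (n - 1)) hmp A B hA hB ((y₀ : k) / N) ((z₀ : k) / N)
    (((Q₂ * 3 ^ r : ℕ) : k) / N) (-(((Q₂ * 3 ^ r : ℕ) : k) / N)) (σ * η ^ (Q₂ - 2 * e) * ξ ^ (z₀ / Q₂) *
      (ξ⁻¹) ^ (y₀ / Q₂)) ((ξ⁻¹) ^ (2 * 3 ^ r)) ?_ ?_ ?_ ?_ h2nk ?_
  · refine neg_ne_zero.2 (div_ne_zero ?_ hN)
    push_cast
    exact mul_ne_zero hQ₂k (pow_ne_zero _ h3)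
  · exact mul_ne_zero (mul_ne_zero (mul_ne_zero hσ (pow_ne_zero _ hη0)) (pow_ne_zero _ hξ0))
      (pow_ne_zero _ (inv_ne_zero hξ0))
  · rw [← pow_mul, show 2 * 3 ^ r * 2 ^ (n - 1) = 2 ^ (n - 1) * 2 * 3 ^ r by ring, ← pow_succ,
      Nat.sub_add_cancel (by omega), pow_mul, inv_pow, hξ, inv_one, one_pow]
  · intro h4
    rw [inv_pow, inv_eq_one, pow_mul] at h4
    apply hξ1
    have h5 : (ξ ^ 2) ^ 2 ^ (n - 1) = 1 := by
      rw [← pow_mul, ← pow_succ', Nat.sub_add_cancel (by omega)]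
      exact hξ
    have h6 := pow_one_coprime h4 h5 (Nat.Coprime.pow _ _ (by norm_num))
    have h7 : 2 ^ (n - 1) = 2 * 2 ^ (n - 2) := by
      rw [← pow_succ']
      congr 1
      omega
    rw [h7, pow_mul, h6, one_pow]
  · intro i hi
    have hb := hbig i hi
    have hb0 := hbig 0 (Nat.zero_le _)
    rw [mul_zero, add_zero] at hb0
    have hzi : z₀ = (z₀ - Q₂ * 3 ^ r * i) + Q₂ * (3 ^ r * i) := by
      rw [← mul_assoc]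
      omega
    set zi := z₀ - Q₂ * 3 ^ r * i with hzi'
    have hy₀pos : 1 ≤ y₀ := by
      rcases Nat.eq_zero_or_pos y₀ with h6 | h6
      · rw [h6] at hy2
        have h7 := (Nat.modEq_iff_dvd' (Nat.zero_le 1)).1 hy2
        have h8 := Nat.dvd_one.1 h7
        omega
      · exact h6
    have hylt : y₀ + Q₂ * 3 ^ r * i < Q₂ * Q₃ := by
      -- `e > 0`
      have he0 : 1 ≤ e := by
        rcases Nat.eq_zero_or_pos e with h6 | h6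
        · rw [h6, mul_zero, zero_add] at hee1
          have h8 := Nat.dvd_one.1 (Nat.modEq_zero_iff_dvd.1 hee1)
          omega
        · exact h6
      have : 0 < Q₃ * e := Nat.mul_pos hQ₃0 he0
      omega
    have hzlt : zi < Q₂ * Q₃ := by omega
    have hsum : y₀ + Q₂ * 3 ^ r * i + zi = Q₃ * (Q₂ - 2 * e) := by
      have h5 : Q₃ * (Q₂ - 2 * e) = Q₂ * Q₃ - 2 * (Q₃ * e) := by
        rw [Nat.mul_sub, mul_comm Q₃ Q₂]
        congr 1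
        ring
      rw [h5]
      omega
    have h4 := h (y₀ + Q₂ * 3 ^ r * i) zi (Q₂ - 2 * e) hylt hzlt
      (by
        have h5 : (y₀ + Q₂ * 3 ^ r * i) + (y₀ + Q₂ * 3 ^ r * i) ≡ (y₀ + Q₂ * 3 ^ r * i) + zi [MOD Q₂] := by
          rw [hsum]
          have h6 : (y₀ + Q₂ * 3 ^ r * i) + (y₀ + Q₂ * 3 ^ r * i) + 2 * (Q₃ * e) ≡
              Q₃ * (Q₂ - 2 * e) + 2 * (Q₃ * e) [MOD Q₂] := by
            have h7 : Q₃ * (Q₂ - 2 * e) + 2 * (Q₃ * e) = Q₂ * Q₃ := by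
              have : Q₃ * (Q₂ - 2 * e) + Q₃ * (2 * e) = Q₃ * Q₂ := by
                rw [← mul_add, Nat.sub_add_cancel he2]
              calc Q₃ * (Q₂ - 2 * e) + 2 * (Q₃ * e) = Q₃ * (Q₂ - 2 * e) + Q₃ * (2 * e) := by ring
                _ = Q₂ * Q₃ := by rw [this, mul_comm]
            rw [h7]
            have h8 : (y₀ + Q₂ * 3 ^ r * i) + (y₀ + Q₂ * 3 ^ r * i) + 2 * (Q₃ * e) =
                2 * (y₀ + Q₃ * e) + Q₂ * (2 * (3 ^ r * i)) := by ring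
            rw [h8]
            have h9 : 2 * (y₀ + Q₃ * e) ≡ 2 * 0 [MOD Q₂] := hy1'.mul_left 2
            have h10 : Q₂ * (2 * (3 ^ r * i)) ≡ 0 [MOD Q₂] := Nat.modEq_zero_iff_dvd.2 (dvd_mul_right _ _)
            have h11 : Q₂ * Q₃ ≡ 0 [MOD Q₂] := Nat.modEq_zero_iff_dvd.2 (dvd_mul_right _ _)
            exact (h9.add h10).trans h11.symm
          exact Nat.ModEq.add_right_cancel' _ h6
        exact Nat.ModEq.add_left_cancel' _ h5)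
      (by
        rw [mul_one]
        have h5 : y₀ + Q₂ * 3 ^ r * i ≡ 1 [MOD 2 ^ n] := by
          have h6 : Q₂ * 3 ^ r * i ≡ 0 [MOD 2 ^ n] :=
            Nat.modEq_zero_iff_dvd.2 (Dvd.dvd.mul_right (Dvd.dvd.mul_right h2n _) _)
          simpa using hy3.add h6
        rw [h5, Nat.mod_eq_of_lt (by omega)])
      (by
        have h5 : y₀ + Q₂ * 3 ^ r * i ≡ 1 [MOD 3 ^ r] := by
          have h6 : Q₂ * 3 ^ r * i ≡ 0 [MOD 3 ^ r] :=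
            Nat.modEq_zero_iff_dvd.2 (Dvd.dvd.mul_right (dvd_mul_left _ _) _)
          simpa using hy2.add h6
        rw [h5, Nat.mod_eq_of_lt (by omega)])
      hsum
    have h5 : (y₀ + Q₂ * 3 ^ r * i) / Q₂ = y₀ / Q₂ + 3 ^ r * i := by
      rw [mul_assoc]
      exact Nat.add_mul_div_left _ _ hQ₂0
    have h6 : z₀ / Q₂ = zi / Q₂ + 3 ^ r * i := by
      rw [hzi]
      exact Nat.add_mul_div_left _ _ hQ₂0
    rw [h5] at h4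
    rw [h6]
    set T := y₀ / Q₂ with hT
    set T' := zi / Q₂ with hT'
    have hx0 : (y₀ : k) / N + i * (((Q₂ * 3 ^ r : ℕ) : k) / N) = ((y₀ + Q₂ * 3 ^ r * i : ℕ) : k) / N := by
      push_cast
      field_simp
    have hx1 : (z₀ : k) / N + i * -(((Q₂ * 3 ^ r : ℕ) : k) / N) = ((zi : ℕ) : k) / N := by
      rw [hzi]
      push_cast
      field_simp
      ring
    rw [hx0, hx1]
    have hξT : ξ ^ (T + 3 ^ r * i) ≠ 0 := pow_ne_zero _ hξ0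
    apply mul_left_cancel₀ hξT
    rw [mul_zero, ← h4, mul_add]
    congr 1
    have h7 : ξ ^ (T + 3 ^ r * i) * ((ξ⁻¹) ^ T * (ξ⁻¹) ^ (3 ^ r * i)) = 1 := by
      rw [← pow_add, ← mul_pow, mul_inv_cancel₀ hξ0, one_pow]
    have h8 : ((ξ⁻¹) ^ (2 * 3 ^ r)) ^ i = (ξ⁻¹) ^ (3 ^ r * i) * (ξ⁻¹) ^ (3 ^ r * i) := by
      rw [← pow_mul, ← pow_add]
      congr 1
      ring
    have h9 : ξ ^ (3 ^ r * i) * (ξ⁻¹) ^ (3 ^ r * i) = 1 := by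
      rw [← mul_pow, mul_inv_cancel₀ hξ0, one_pow]
    rw [h8, pow_add ξ T' (3 ^ r * i)]
    calc ξ ^ (T + 3 ^ r * i) * (σ * η ^ (Q₂ - 2 * e) * (ξ ^ T' * ξ ^ (3 ^ r * i)) * (ξ⁻¹) ^ T *
          ((ξ⁻¹) ^ (3 ^ r * i) * (ξ⁻¹) ^ (3 ^ r * i)) * eval ((zi : k) / N) B) =
        (ξ ^ (T + 3 ^ r * i) * ((ξ⁻¹) ^ T * (ξ⁻¹) ^ (3 ^ r * i))) *
        (ξ ^ (3 ^ r * i) * (ξ⁻¹) ^ (3 ^ r * i)) *
        (σ * η ^ (Q₂ - 2 * e) * ξ ^ T' * eval ((zi : k) / N) B) := by ring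
      _ = _ := by rw [h7, h9, one_mul, one_mul]

end

end Pool.Agent.J6H1.GX
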